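import Mathlib

/-!
Definitions for MP_e29fc4_al (intersections of conjugates of soluble subgroups).
-/

namespace Pool.Agent.H77.TI

open Subgroup

variable {G : Type*} [Group G]

/-- The soluble radical of `G` is trivial: `G` has no soluble normal subgroup besides `1`. -/
def TrivRad (G : Type*) [Group G] : Prop :=
  ∀ N : Subgroup G, N.Normal → Group.IsSolvable N → N = ⊥

/-- The family `H` of subgroups of `G` is regular: there are elements `x i` such that the
intersection of the conjugates `(x i)⁻¹ (H i) (x i)` is trivial. -/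
def Regular {ι : Type*} (H : ι → Subgroup G) : Prop :=
  ∃ x : ι → G, ∀ g : G, (∀ i, x i * g * (x i)⁻¹ ∈ H i) → g = 1

/-- A component of `G` (in a group with trivial soluble radical): a subnormal subgroup which
is a simple nonabelian group. -/
def IsComp (T : Subgroup G) : Prop :=
  T.IsSubnormal ∧ IsSimpleGroup T ∧ ¬ ∀ a b : T, a * b = b * a

/-- `autSub H T`: the group of automorphisms of `T` which is induced by the normaliser of `T`
in `H` (acting by conjugation). -/
def autSub (H T : Subgroup G) : Subgroup (MulAut T) :=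
  (H.subgroupOf (normalizer (T : Set G))).map T.normalizerMonoidHom

/-- The inner automorphisms. -/
def inn (T : Type*) [Group T] : Subgroup (MulAut T) := (MulAut.conj : T →* MulAut T).range

/-- The conjugate `g T g⁻¹`. -/
def cj (g : G) (T : Subgroup G) : Subgroup G := T.map (MulAut.conj g).toMonoidHom

/-- Five inequivalent regular tuples `τ c`, `c < 5`, with entries in the subgroup `S`. -/
def Five {ι A : Type*} [Group A] (S : Subgroup A) (K : ι → Subgroup A) : Prop :=
  ∃ τ : Fin 5 → ι → A, (∀ c i, τ c i ∈ S) ∧
    ∀ c c' n, (∀ i, τ c' i * n * (τ c i)⁻¹ ∈ K i) → c = c' ∧ n = 1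

/-- The local hypothesis: for every component `T` and all groups `K i` of automorphisms of `T`
induced by `H i`, with `K i` times the inner automorphisms independent of `i`, there are five
inequivalent regular tuples with inner entries. -/
def LocHyp {ι G : Type*} [Group G] (H : ι → Subgroup G) : Prop :=
  ∀ T : Subgroup G, IsComp T → ∀ K : ι → Subgroup (MulAut T),
    (∀ i, K i ≤ autSub (H i) T) → (∀ i j, K i ⊔ inn T = K j ⊔ inn T) → Five (inn T) K

/-- Five inequivalent colourings with five colours with trivial stabiliser. -/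
def Col (P Ω : Type*) [Group P] [MulAction P Ω] : Prop :=
  ∃ c : Fin 5 → Ω → Fin 5, ∀ i j, ∀ p : P, (∀ ω, c j (p • ω) = c i ω) →
    i = j ∧ ∀ ω : Ω, p • ω = ω

theorem mem_cj {g x : G} {T : Subgroup G} : x ∈ cj g T ↔ g⁻¹ * x * g ∈ T := by
  constructor
  · rintro ⟨y, hy, rfl⟩
    simpa [MulAut.conj_apply, mul_assoc] using hy
  · intro h
    exact ⟨g⁻¹ * x * g, h, by simp [MulAut.conj_apply, mul_assoc]⟩

theorem cj_one (T : Subgroup G) : cj 1 T = T := by
  ext x; simp [mem_cj]

theorem cj_mul (g h : G) (T : Subgroup G) : cj (g * h) T = cj g (cj h T) := by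
  ext x; simp [mem_cj, mul_assoc]

theorem cj_inv_eq_iff {g : G} {S T : Subgroup G} : cj g⁻¹ S = T ↔ S = cj g T := by
  constructor
  · rintro rfl
    rw [← cj_mul]; simp [cj_one]
  · rintro rfl
    rw [← cj_mul]; simp [cj_one]

theorem mem_normalizer_iff_cj {g : G} {T : Subgroup G} :
    g ∈ normalizer (T : Set G) ↔ cj g T = T := by
  rw [mem_normalizer_iff']
  constructor
  · intro h
    ext x
    rw [mem_cj]
    have := h (g⁻¹ * x)
    simpa [mul_assoc] using this
  · intro h x
    have : g * x ∈ cj g (T : Subgroup G) ↔ g * x ∈ T := by rw [h]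
    rw [mem_cj] at this
    simpa [mul_assoc] using this

theorem cj_mono {g : G} {S T : Subgroup G} (h : S ≤ T) : cj g S ≤ cj g T := by
  intro x hx
  rw [mem_cj] at hx ⊢
  exact h hx

end Pool.Agent.H77.TI
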