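import Pool.Agent.H77.TI.Base

/-!
[H77 TI COMP1] Minimal normal subgroups are products of commuting conjugates (40-60 min).

PROOF. Among the nontrivial normal subgroups of G contained in C choose N of minimal order.
Among the nontrivial subgroups T ≤ N with N ≤ normalizer T choose T of minimal order; so
(min) every T' ≤ T, T' ≠ ⊥ with N ≤ normalizer T' is T.
For g in G: cj g T ≤ N (N normal) and N ≤ normalizer (cj g T) (conjugate of N ≤ normalizer T).
If cj g T ≠ T: T ⊓ cj g T is normalised by N, and if it is ≠ ⊥ it is T by (min), so T ≤ cj g T,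
and the orders are the same: T = cj g T, contradiction; so T ⊓ cj g T = ⊥, and for a in T, b in
cj g T: a b a⁻¹ b⁻¹ ∈ T ⊓ cj g T (both are normalised by N, a, b ∈ N), so a b = b a.
⨆ g, cj g T is normal in G, nontrivial and ≤ N, so it is N.
-/

namespace Pool.Agent.H77.TI

open Subgroup

theorem comp1_ne {G : Type*} [Group G] {g : G} {T : Subgroup G} (h : T ≠ ⊥) : cj g T ≠ ⊥ := by
  intro h0
  apply h
  rw [eq_bot_iff]
  intro x hx
  have h1 : g * x * g⁻¹ ∈ cj g T := by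
    rw [mem_cj]
    simpa [mul_assoc] using hx
  rw [h0, Subgroup.mem_bot] at h1
  rw [Subgroup.mem_bot]
  have h2 : x = g⁻¹ * (g * x * g⁻¹) * g := by group
  rw [h2, h1]
  group

theorem comp1_inf {G : Type*} [Group G] {g : G} {S T : Subgroup G} :
    cj g (S ⊓ T) = cj g S ⊓ cj g T := by
  ext x
  rw [Subgroup.mem_inf, mem_cj, mem_cj, mem_cj, Subgroup.mem_inf]

theorem comp1_norm {G : Type*} [Group G] {N T : Subgroup G} (hN : N.Normal)
    (h : N ≤ normalizer (T : Set G)) (g : G) : N ≤ normalizer (cj g T : Set G) := by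
  intro n hn
  rw [mem_normalizer_iff_cj, ← cj_mul]
  have h1 : n * g = g * (g⁻¹ * n * g) := by group
  have h2 : g⁻¹ * n * g ∈ N := by
    have := hN.conj_mem n hn g⁻¹
    simpa using this
  rw [h1, cj_mul, mem_normalizer_iff_cj.1 (h h2)]

theorem comp1_conj {G : Type*} [Group G] {n x : G} {T : Subgroup G}
    (h : n ∈ normalizer (T : Set G)) (hx : x ∈ T) : n * x * n⁻¹ ∈ T := by
  rw [← mem_normalizer_iff_cj.1 h, mem_cj]
  simpa [mul_assoc] using hx

theorem comp1 {G : Type*} [Group G] [Finite G] (C : Subgroup G) (hC : C.Normal) (hC1 : C ≠ ⊥) :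
    ∃ N T : Subgroup G, N ≤ C ∧ N.Normal ∧ N ≠ ⊥ ∧ T ≠ ⊥ ∧ T ≤ N ∧
      (∀ g, N ≤ normalizer (cj g T : Set G)) ∧
      (∀ g, cj g T ≠ T → ∀ a ∈ T, ∀ b ∈ cj g T, a * b = b * a) ∧
      N = ⨆ g, cj g T ∧
      ∀ T' : Subgroup G, T' ≤ T → T' ≠ ⊥ → N ≤ normalizer (T' : Set G) → T' = T := by
  obtain ⟨N, ⟨hN1, hN2, hN3⟩, hNmin⟩ := (Set.toFinite
    {N : Subgroup G | N ≤ C ∧ N.Normal ∧ N ≠ ⊥}).exists_minimal ⟨C, le_rfl, hC, hC1⟩
  obtain ⟨T, ⟨hT1, hT2, hT3⟩, hTmin⟩ := (Set.toFinite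
    {T : Subgroup G | T ≤ N ∧ T ≠ ⊥ ∧ N ≤ normalizer (T : Set G)}).exists_minimal
      ⟨N, le_rfl, hN3, Subgroup.le_normalizer⟩
  have hmin : ∀ T' : Subgroup G, T' ≤ T → T' ≠ ⊥ → N ≤ normalizer (T' : Set G) → T' = T :=
    fun T' h1 h2 h3 => le_antisymm h1 (hTmin ⟨h1.trans hT1, h2, h3⟩ h1)
  have hnorm : ∀ g, N ≤ normalizer (cj g T : Set G) := comp1_norm hN2 hT3
  have hle : ∀ g, cj g T ≤ N := by
    intro g x hx
    rw [mem_cj] at hx
    have := hN2.conj_mem _ (hT1 hx) g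
    have h2 : g * (g⁻¹ * x * g) * g⁻¹ = x := by group
    rwa [h2] at this
  refine ⟨N, T, hN1, hN2, hN3, hT2, hT1, hnorm, ?_, ?_, hmin⟩
  · intro g hg a ha b hb
    have hbot : T ⊓ cj g T = ⊥ := by
      by_contra h0
      have h1 : N ≤ normalizer ((T ⊓ cj g T : Subgroup G) : Set G) := by
        intro n hn
        rw [mem_normalizer_iff_cj, comp1_inf, mem_normalizer_iff_cj.1 (hT3 hn),
          mem_normalizer_iff_cj.1 (hnorm g hn)]
      have h2 := hmin _ inf_le_left h0 h1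
      have h3 : T ≤ cj g T := inf_eq_left.1 h2
      have h4 : cj g⁻¹ T ≤ T := by
        have h5 := cj_mono (g := g⁻¹) h3
        rwa [← cj_mul, inv_mul_cancel, cj_one] at h5
      have h5 := hmin _ h4 (comp1_ne hT2) (hnorm g⁻¹)
      exact hg (cj_inv_eq_iff.1 h5).symm
    have h1 : a * b * a⁻¹ ∈ cj g T := comp1_conj (hnorm g (hT1 ha)) hb
    have h2 : b * a⁻¹ * b⁻¹ ∈ T := comp1_conj (hT3 (hle g hb)) (T.inv_mem ha)
    have h3 : a * b * a⁻¹ * b⁻¹ ∈ T ⊓ cj g T := by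
      refine Subgroup.mem_inf.2 ⟨?_, Subgroup.mul_mem _ h1 (Subgroup.inv_mem _ hb)⟩
      have h4 := T.mul_mem ha h2
      have h5 : a * b * a⁻¹ * b⁻¹ = a * (b * a⁻¹ * b⁻¹) := by group
      rwa [h5]
    rw [hbot, Subgroup.mem_bot] at h3
    calc a * b = a * b * a⁻¹ * b⁻¹ * (b * a) := by group
      _ = b * a := by rw [h3, one_mul]
  · have h1 : (⨆ g, cj g T) ≤ N := iSup_le hle
    have h2 : (⨆ g, cj g T).Normal := by
      constructor
      intro n hn g
      have h3 : ∀ k, cj g (cj k T) ≤ ⨆ g, cj g T := by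
        intro k
        rw [← cj_mul]
        exact le_iSup (fun g => cj g T) (g * k)
      have h4 : cj g (⨆ k, cj k T) ≤ ⨆ g, cj g T := by
        have h5 : cj g (⨆ k, cj k T) = ⨆ k, cj g (cj k T) := by
          unfold cj
          rw [Subgroup.map_iSup]
        rw [h5]
        exact iSup_le h3
      apply h4
      rw [mem_cj]
      have h6 : g⁻¹ * (g * n * g⁻¹) * g = n := by group
      rwa [h6]
    have h3 : (⨆ g, cj g T) ≠ ⊥ := by
      intro h0
      apply hT2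
      rw [eq_bot_iff, ← h0]
      have h4 := le_iSup (fun g => cj g T) 1
      simpa only [cj_one] using h4
    exact le_antisymm (hNmin ⟨h1.trans hN1, h2, h3⟩ h1) h1

end Pool.Agent.H77.TI
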