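import Pool.Agent.H77.TI.Comp1

/-!
[H77 TI COMP2] The minimal T is a component (30-40 min).

PROOF. Subnormal: T is normal in N and N is normal in G (IsSubnormal.step T N ...; N.Normal gives
IsSubnormal N; (T.subgroupOf N).Normal from N ≤ normalizer T, cj 1 T = T).
Simple: let X be a normal subgroup of ↥T, T' its image in G, T' ≤ T. T' is normalised by T and by
every cj g T ≠ T (commutes with T by hcomm); the members generate N, so N ≤ normalizer T'. By
hmin T' = ⊥ or T' = T. T is nontrivial.
Not commutative: if T is commutative then each cj g T is commutative and any two of them commute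
elementwise (if cj g T ≠ cj h T then conjugate with g⁻¹: cj (g⁻¹ h) T ≠ T, hcomm), so
N = ⨆ g, cj g T is commutative (closure of a set of commuting elements), hence soluble, N = ⊥ by
hR, contradiction.
-/

namespace Pool.Agent.H77.TI

open Subgroup

theorem Comp2_norm {G : Type*} [Group G] {K S : Subgroup G}
    (h : ∀ k ∈ K, ∀ x ∈ S, k * x * k⁻¹ ∈ S) : K ≤ normalizer (S : Set G) := by
  intro k hk
  rw [mem_normalizer_iff]
  intro x
  constructor
  · intro hx
    exact h k hk x hx
  · intro hx
    have h1 := h k⁻¹ (K.inv_mem hk) _ hx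
    have h2 : k⁻¹ * (k * x * k⁻¹) * k⁻¹⁻¹ = x := by group
    rwa [h2] at h1

theorem comp2 {G : Type*} [Group G] [Finite G] (hR : TrivRad G) (N T : Subgroup G)
    (hN : N.Normal) (hN1 : N ≠ ⊥) (hT1 : T ≠ ⊥) (hTN : T ≤ N)
    (hnorm : ∀ g, N ≤ normalizer (cj g T : Set G))
    (hcomm : ∀ g, cj g T ≠ T → ∀ a ∈ T, ∀ b ∈ cj g T, a * b = b * a)
    (hgen : N = ⨆ g, cj g T)
    (hmin : ∀ T' : Subgroup G, T' ≤ T → T' ≠ ⊥ → N ≤ normalizer (T' : Set G) → T' = T) :
    IsComp T := by
  have hT : N ≤ normalizer (T : Set G) := by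
    have := hnorm 1
    rwa [cj_one] at this
  refine ⟨IsSubnormal.step T N hTN hN.isSubnormal (normal_subgroupOf_of_le_normalizer hT), ?_, ?_⟩
  · haveI : Nontrivial T := (Subgroup.nontrivial_iff_ne_bot T).2 hT1
    refine ⟨fun X hX => ?_⟩
    have hle : X.map T.subtype ≤ T := map_subtype_le X
    have hn : N ≤ normalizer ((X.map T.subtype : Subgroup G) : Set G) := by
      rw [hgen]
      refine iSup_le fun g => Comp2_norm ?_
      rintro k hk _ ⟨x, hx, rfl⟩
      by_cases hg : cj g T = T
      · rw [hg] at hk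
        exact ⟨⟨k, hk⟩ * x * ⟨k, hk⟩⁻¹, hX.conj_mem x hx ⟨k, hk⟩, rfl⟩
      · have h1 := hcomm g hg x x.2 k hk
        have h2 : k * T.subtype x * k⁻¹ = T.subtype x := by
          change k * (x : G) * k⁻¹ = (x : G)
          rw [← h1]
          group
        rw [h2]
        exact ⟨x, hx, rfl⟩
    by_cases h0 : X.map T.subtype = ⊥
    · left
      exact (map_eq_bot_iff_of_injective X T.subtype_injective).1 h0
    · right
      have h1 := hmin _ hle h0 hn
      rw [eq_top_iff]
      intro x _
      have h2 : (x : G) ∈ X.map T.subtype := by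
        rw [h1]
        exact x.2
      obtain ⟨y, hy, hyx⟩ := h2
      have h3 : y = x := Subtype.ext hyx
      rwa [← h3]
  · intro hab
    apply hN1
    have hTc : ∀ a ∈ T, ∀ b ∈ T, a * b = b * a := fun a ha b hb =>
      congrArg Subtype.val (hab ⟨a, ha⟩ ⟨b, hb⟩)
    have hc : ∀ g h, ∀ a ∈ cj g T, ∀ b ∈ cj h T, a * b = b * a := by
      intro g h a ha b hb
      rw [mem_cj] at ha hb
      have h1 : (g⁻¹ * a * g) * (g⁻¹ * b * g) = (g⁻¹ * b * g) * (g⁻¹ * a * g) := by
        by_cases hg : cj (g⁻¹ * h) T = T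
        · apply hTc _ ha
          rw [← hg, mem_cj]
          have : (g⁻¹ * h)⁻¹ * (g⁻¹ * b * g) * (g⁻¹ * h) = h⁻¹ * b * h := by group
          rw [this]
          exact hb
        · apply hcomm _ hg _ ha
          rw [mem_cj]
          have : (g⁻¹ * h)⁻¹ * (g⁻¹ * b * g) * (g⁻¹ * h) = h⁻¹ * b * h := by group
          rw [this]
          exact hb
      have h2 : g * ((g⁻¹ * a * g) * (g⁻¹ * b * g)) * g⁻¹ = a * b := by group
      have h3 : g * ((g⁻¹ * b * g) * (g⁻¹ * a * g)) * g⁻¹ = b * a := by group
      rw [← h2, h1, h3]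
    have hc1 : ∀ h, N ≤ centralizer ((cj h T : Subgroup G) : Set G) := by
      intro h
      rw [hgen]
      refine iSup_le fun g a ha => ?_
      rw [mem_centralizer_iff]
      intro b hb
      exact (hc g h a ha b hb).symm
    have hc2 : N ≤ centralizer (N : Set G) := by
      conv_lhs => rw [hgen]
      refine iSup_le fun g a ha => ?_
      rw [mem_centralizer_iff]
      intro b hb
      exact ((mem_centralizer_iff.1 (hc1 g hb)) a ha).symm
    apply hR N hN
    apply isSolvable_of_comm
    intro a b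
    apply Subtype.ext
    exact (mem_centralizer_iff.1 (hc2 b.2)) a a.2

end Pool.Agent.H77.TI
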