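import Pool.Agent.H77.TI.Base

/-!
[H77 TI COMP3] Conjugates of components are components (20-30 min).

PROOF. cj g T is the image of T under the automorphism MulAut.conj g of G: subnormality is
preserved (IsSubnormal.map for the surjective homomorphism (MulAut.conj g).toMonoidHom), and
cj g T is isomorphic to T (MulEquiv.subgroupMap / Subgroup.equivMapOfInjective), so simple and
not commutative.
-/

namespace Pool.Agent.H77.TI

open Subgroup

theorem comp3 {G : Type*} [Group G] {T : Subgroup G} (hT : IsComp T) (g : G) :
    IsComp (cj g T) := by
  obtain ⟨h1, h2, h3⟩ := hT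
  let e : T ≃* cj g T := T.equivMapOfInjective (MulAut.conj g).toMonoidHom
    (MulAut.conj g).injective
  refine ⟨?_, ?_, ?_⟩
  · exact IsSubnormal.map (f := (MulAut.conj g).toMonoidHom) (MulAut.conj g).surjective h1
  · exact e.isSimpleGroup_congr.1 h2
  · intro h
    apply h3
    intro a b
    apply e.injective
    rw [map_mul, map_mul]
    exact h _ _

end Pool.Agent.H77.TI
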