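import Pool.Agent.H77.TI.Loc2

/-!
[H77 TI EQ1] Four colours do not suffice for S_4 wr S_4 on 16 points (40-60 min).

PROOF. Let blk : the set of all permutations π of Fin 4 × Fin 4 such that ω.1 = ω'.1 implies
(π ω).1 = (π ω').1 for all ω, ω'. It is a subgroup P (finite: for the inverse note that π maps the
4-element block of ω into, hence onto, a block; or put iff in the definition). P is soluble: the
homomorphism P → Perm (Fin 4) (action on the blocks) has kernel embedded in Fin 4 → Perm (Fin 4),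
and Perm (Fin 4) is soluble (see LOC2, part (a)); products of soluble groups are soluble
(a finite power: induction or Pi instance). Alternative: P is the image of a semidirect product;
or show derivedSeries P 6 = ⊥ step by step.
Colourings: let c : Fin 4 × Fin 4 → Fin 4. If c (b, x) = c (b, y) for some b and x ≠ y: π = the
transposition of (b, x) and (b, y) is in P. Otherwise for every b the map x ↦ c (b, x) is
injective, hence bijective Fin 4 → Fin 4; let σ b be it. π (0, x) = (1, (σ 1)⁻¹ (σ 0 x)),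
π (1, x) = (0, (σ 0)⁻¹ (σ 1 x)), π (b, x) = (b, x) for b = 2, 3: π ∈ P, π ≠ 1 and c ∘ π = c.
-/

namespace Pool.Agent.H77.TI

/-- the permutations of `Fin 4 × Fin 4` which preserve the blocks -/
private def eqP : Subgroup (Equiv.Perm (Fin 4 × Fin 4)) where
  carrier := {π | ∀ ω ω', ω.1 = ω'.1 ↔ (π ω).1 = (π ω').1}
  one_mem' := fun _ _ => Iff.rfl
  mul_mem' := by
    intro a b ha hb ω ω'
    rw [hb ω ω', ha (b ω) (b ω')]
    rfl
  inv_mem' := by
    intro a ha ω ω'
    have h1 := ha (a⁻¹ ω) (a⁻¹ ω')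
    have h2 : ∀ v, a (a⁻¹ v) = v := fun v => Equiv.apply_symm_apply a v
    rw [h2, h2] at h1
    exact h1.symm

private def eqf : eqP →* Equiv.Perm (Fin 4) where
  toFun π :=
    { toFun := fun b => (π.1 (b, 0)).1
      invFun := fun b => ((π⁻¹ : eqP).1 (b, 0)).1
      left_inv := by
        intro b
        have h1 := ((π⁻¹ : eqP).2 ((π.1 (b, 0)).1, 0) (π.1 (b, 0))).mp rfl
        show ((π⁻¹ : eqP).1 ((π.1 (b, 0)).1, 0)).1 = b
        rw [h1]
        simp
      right_inv := by
        intro b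
        have h1 := (π.2 (((π⁻¹ : eqP).1 (b, 0)).1, 0) ((π⁻¹ : eqP).1 (b, 0))).mp rfl
        show (π.1 (((π⁻¹ : eqP).1 (b, 0)).1, 0)).1 = b
        rw [h1]
        simp }
  map_one' := by
    ext b
    rfl
  map_mul' := by
    intro π π'
    ext b : 1
    have h1 := (π.2 ((π'.1 (b, 0)).1, 0) (π'.1 (b, 0))).mp rfl
    exact h1.symm

private theorem eqf_ker (π : eqP) (hπ : π ∈ eqf.ker) (ω : Fin 4 × Fin 4) : (π.1 ω).1 = ω.1 := by
  have h1 : eqf π = 1 := hπ
  have h2 : (π.1 (ω.1, 0)).1 = ω.1 := congrArg (fun e : Equiv.Perm (Fin 4) => e ω.1) h1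
  have h3 := (π.2 (ω.1, 0) ω).mp rfl
  rw [← h3, h2]

private def eqg (b : Fin 4) : eqf.ker →* Equiv.Perm (Fin 4) where
  toFun π :=
    { toFun := fun x => (π.1.1 (b, x)).2
      invFun := fun x => ((π⁻¹ : eqf.ker).1.1 (b, x)).2
      left_inv := by
        intro x
        have h1 : π.1.1 (b, x) = (b, (π.1.1 (b, x)).2) :=
          Prod.ext (eqf_ker π.1 π.2 (b, x)) rfl
        show ((π⁻¹ : eqf.ker).1.1 (b, (π.1.1 (b, x)).2)).2 = x
        rw [← h1]
        simp
      right_inv := by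
        intro x
        have h1 : (π⁻¹ : eqf.ker).1.1 (b, x) = (b, ((π⁻¹ : eqf.ker).1.1 (b, x)).2) :=
          Prod.ext (eqf_ker (π⁻¹ : eqf.ker).1 (π⁻¹ : eqf.ker).2 (b, x)) rfl
        show (π.1.1 (b, ((π⁻¹ : eqf.ker).1.1 (b, x)).2)).2 = x
        rw [← h1]
        simp }
  map_one' := by
    ext x
    rfl
  map_mul' := by
    intro π π'
    ext x : 1
    have h1 : π'.1.1 (b, x) = (b, (π'.1.1 (b, x)).2) :=
      Prod.ext (eqf_ker π'.1 π'.2 (b, x)) rfl
    show (π.1.1 (π'.1.1 (b, x))).2 = (π.1.1 (b, (π'.1.1 (b, x)).2)).2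
    rw [← h1]

private theorem eqP_solvable : Group.IsSolvable eqP := by
  have h4 := loc2_perm4
  let h : eqf.ker →* Equiv.Perm (Fin 4) × Equiv.Perm (Fin 4) × Equiv.Perm (Fin 4) ×
      Equiv.Perm (Fin 4) := (eqg 0).prod ((eqg 1).prod ((eqg 2).prod (eqg 3)))
  have hinj : Function.Injective h := by
    intro π π' hh
    have h0 : eqg 0 π = eqg 0 π' := congrArg (fun q => q.1) hh
    have h1 : eqg 1 π = eqg 1 π' := congrArg (fun q => q.2.1) hh
    have h2 : eqg 2 π = eqg 2 π' := congrArg (fun q => q.2.2.1) hh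
    have h3 : eqg 3 π = eqg 3 π' := congrArg (fun q => q.2.2.2) hh
    have hb : ∀ b, eqg b π = eqg b π' := by
      intro b
      fin_cases b
      · exact h0
      · exact h1
      · exact h2
      · exact h3
    apply Subtype.ext
    apply Subtype.ext
    ext1 ω
    obtain ⟨b, x⟩ := ω
    refine Prod.ext ?_ ?_
    · rw [eqf_ker π.1 π.2, eqf_ker π'.1 π'.2]
    · exact congrArg (fun e : Equiv.Perm (Fin 4) => e x) (hb b)
  have hk : Group.IsSolvable eqf.ker := Group.isSolvable_of_isSolvable_injective hinj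
  apply Group.isSolvable_of_ker_le_range eqf.ker.subtype eqf
  rw [Subgroup.range_subtype]

theorem eq1 : ∃ P : Subgroup (Equiv.Perm (Fin 4 × Fin 4)), Group.IsSolvable P ∧
    ∀ c : Fin 4 × Fin 4 → Fin 4, ∃ π ∈ P, π ≠ 1 ∧ ∀ ω, c (π ω) = c ω := by
  refine ⟨eqP, eqP_solvable, fun c => ?_⟩
  by_cases hc : ∃ b x y, x ≠ y ∧ c (b, x) = c (b, y)
  · obtain ⟨b, x, y, hxy, hcxy⟩ := hc
    have hfst : ∀ ω : Fin 4 × Fin 4, (Equiv.swap (b, x) (b, y) ω).1 = ω.1 := by
      intro ω
      by_cases h1 : ω = (b, x)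
      · rw [h1, Equiv.swap_apply_left]
      · by_cases h2 : ω = (b, y)
        · rw [h2, Equiv.swap_apply_right]
        · rw [Equiv.swap_apply_of_ne_of_ne h1 h2]
    refine ⟨Equiv.swap (b, x) (b, y), ?_, ?_, ?_⟩
    · intro ω ω'
      rw [hfst, hfst]
    · intro h1
      have h2 := congrArg (fun e : Equiv.Perm (Fin 4 × Fin 4) => (e (b, x)).2) h1
      simp only [Equiv.swap_apply_left, Equiv.Perm.one_apply] at h2
      exact hxy h2.symm
    · intro ω
      by_cases h1 : ω = (b, x)
      · rw [h1, Equiv.swap_apply_left, hcxy]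
      · by_cases h2 : ω = (b, y)
        · rw [h2, Equiv.swap_apply_right, hcxy]
        · rw [Equiv.swap_apply_of_ne_of_ne h1 h2]
  · push Not at hc
    have hinj : ∀ b, Function.Injective (fun x => c (b, x)) := by
      intro b x y hxy
      by_contra hne
      exact hc b x y hne hxy
    have hbij : ∀ b, Function.Bijective (fun x => c (b, x)) := fun b =>
      Finite.injective_iff_bijective.mp (hinj b)
    let σ : Fin 4 → Equiv.Perm (Fin 4) := fun b => Equiv.ofBijective _ (hbij b)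
    have hσ : ∀ b x, σ b x = c (b, x) := fun b x => rfl
    let τ : Equiv.Perm (Fin 4) := Equiv.swap 0 1
    have hτ : ∀ b, τ (τ b) = b := by
      intro b
      show Equiv.swap 0 1 (Equiv.swap 0 1 b) = b
      revert b
      decide
    let F : Fin 4 × Fin 4 → Fin 4 × Fin 4 := fun ω =>
      (τ ω.1, (σ (τ ω.1)).symm (σ ω.1 ω.2))
    have hF : Function.Involutive F := by
      intro ω
      show (τ (τ ω.1), (σ (τ (τ ω.1))).symm (σ (τ ω.1) ((σ (τ ω.1)).symm (σ ω.1 ω.2)))) = ω
      rw [hτ, Equiv.apply_symm_apply, Equiv.symm_apply_apply]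
    refine ⟨hF.toPerm, ?_, ?_, ?_⟩
    · intro ω ω'
      show ω.1 = ω'.1 ↔ τ ω.1 = τ ω'.1
      exact (τ.injective.eq_iff).symm
    · intro h1
      have h2 := congrArg (fun e : Equiv.Perm (Fin 4 × Fin 4) => (e (0, 0)).1) h1
      have h3 : τ 0 = 0 := h2
      rw [show τ 0 = 1 from Equiv.swap_apply_left _ _] at h3
      exact absurd h3 (by decide)
    · intro ω
      show c (τ ω.1, (σ (τ ω.1)).symm (σ ω.1 ω.2)) = c ω
      rw [← hσ, Equiv.apply_symm_apply]
      exact hσ ω.1 ω.2

end Pool.Agent.H77.TI
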