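import Pool.Agent.H77.TI.Wr

/-!
[H77 TI EQ2] The wreath product has trivial soluble radical (40-60 min).

PROOF. Let N be a soluble normal subgroup of A wr P. For f : Ω → A write inl f.
(1) If inl f ∈ N then f = 1: for ω in Ω the set X = {f ω | inl f ∈ N} is a subgroup of A, the image
of the soluble group N ⊓ inl(Ω → A) under a homomorphism (f ↦ f ω), so soluble, and normal in A
(conjugate inl f with inl (Pi.mulSingle ω a)). So X = ⊥ by hA, f ω = 1.
(2) Let w ∈ N and f : Ω → A. The commutator w * inl f * w⁻¹ * (inl f)⁻¹ is in N and in the range of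
inl (inl f ∈ ker rightHom, which is normal), so it is 1: w commutes with all inl f. Write
w = (g, π). If π ω ≠ ω for some ω: take f = Pi.mulSingle ω a with a ≠ 1 in A; w inl f w⁻¹ =
inl (g * (f ∘ π⁻¹) * g⁻¹) has a nontrivial coordinate at π ω, while f has trivial coordinate there:
contradiction. So π = 1, w = inl g ∈ N, and g = 1 by (1).
-/

namespace Pool.Agent.H77.TI

private theorem eq2_inl {A : Type*} [Group A] (hA : TrivRad A) {Ω : Type*}
    (P : Subgroup (Equiv.Perm Ω)) (N : Subgroup (Wr A P)) (hN : N.Normal)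
    (hs : Group.IsSolvable N) (f : Ω → A) (hf : (SemidirectProduct.inl f : Wr A P) ∈ N) :
    f = 1 := by
  funext ω
  let ι : (Ω → A) →* Wr A P := SemidirectProduct.inl
  have hι : Function.Injective ι := SemidirectProduct.inl_injective
  let Y : Subgroup (Ω → A) := N.comap ι
  let ev : (Ω → A) →* A := Pi.evalMonoidHom (fun _ : Ω => A) ω
  have hev : Function.Surjective ev := fun a => ⟨fun _ => a, rfl⟩
  have hY : Y.Normal := hN.comap ι
  have hX : (Y.map ev).Normal := hY.map ev hev
  have hYs : Group.IsSolvable Y := by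
    let k : Y →* N := (ι.comp Y.subtype).codRestrict N (fun y => y.2)
    have hk : Function.Injective k := by
      intro y y' h
      apply Subtype.ext
      apply hι
      exact congrArg (fun n : N => n.1) h
    exact Group.isSolvable_of_isSolvable_injective hk
  have hXs : Group.IsSolvable (Y.map ev) :=
    Group.isSolvable_of_surjective (ev.subgroupMap_surjective Y)
  have hbot := hA _ hX hXs
  have h1 : ev f ∈ Y.map ev := ⟨f, hf, rfl⟩
  rw [hbot, Subgroup.mem_bot] at h1
  exact h1

theorem eq2 {A : Type*} [Group A] [Nontrivial A] (hA : TrivRad A) {Ω : Type*} [DecidableEq Ω]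
    (P : Subgroup (Equiv.Perm Ω)) : TrivRad (Wr A P) := by
  intro N hN hs
  rw [eq_bot_iff]
  intro w hw
  have hcomm : ∀ f : Ω → A, w * SemidirectProduct.inl f = SemidirectProduct.inl f * w := by
    intro f
    have h1 : w * SemidirectProduct.inl f * w⁻¹ * (SemidirectProduct.inl f : Wr A P)⁻¹ ∈ N := by
      have h2 := hN.conj_mem _ (N.inv_mem hw) (SemidirectProduct.inl f : Wr A P)
      have h3 := N.mul_mem hw h2
      have h4 : w * (SemidirectProduct.inl f * w⁻¹ * (SemidirectProduct.inl f : Wr A P)⁻¹) =
          w * SemidirectProduct.inl f * w⁻¹ * (SemidirectProduct.inl f : Wr A P)⁻¹ := by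
        group
      rwa [h4] at h3
    have h5 : (w * SemidirectProduct.inl f * w⁻¹ * (SemidirectProduct.inl f : Wr A P)⁻¹).right
        = 1 := by
      simp
    have h6 : w * SemidirectProduct.inl f * w⁻¹ * (SemidirectProduct.inl f : Wr A P)⁻¹ =
        SemidirectProduct.inl (w * SemidirectProduct.inl f * w⁻¹ *
          (SemidirectProduct.inl f : Wr A P)⁻¹).left := by
      apply SemidirectProduct.ext
      · simp
      · rw [h5]; simp
    have h7 := h1
    rw [h6] at h7
    have h8 := eq2_inl hA P N hN hs _ h7
    rw [h8, map_one] at h6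
    have h9 := mul_inv_eq_one.mp h6
    exact mul_inv_eq_iff_eq_mul.mp h9
  have hval : ∀ (f : Ω → A) (ω : Ω),
      w.left ω * f ((w.right⁻¹ : P).1 ω) = f ω * w.left ω := by
    intro f ω
    have h1 := congrArg (fun v : Wr A P => v.left ω) (hcomm f)
    simp only [SemidirectProduct.mul_left, SemidirectProduct.left_inl,
      SemidirectProduct.right_inl, map_one] at h1
    exact h1
  have hfix : ∀ ω, (w.right⁻¹ : P).1 ω = ω := by
    intro ω
    by_contra hne
    obtain ⟨a, ha⟩ := exists_ne (1 : A)
    have h1 := hval (Pi.mulSingle ((w.right⁻¹ : P).1 ω) a) ω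
    rw [Pi.mulSingle_eq_same, Pi.mulSingle_eq_of_ne (fun h => hne h.symm), one_mul] at h1
    exact ha (mul_eq_left.mp h1)
  have hr : w.right⁻¹ = 1 := by
    apply Subtype.ext
    ext ω
    exact hfix ω
  have hr1 : w.right = 1 := inv_eq_one.mp hr
  have h6 : w = SemidirectProduct.inl w.left := by
    apply SemidirectProduct.ext
    · simp
    · rw [hr1]; simp
  have h7 := hw
  rw [h6] at h7
  have h8 := eq2_inl hA P N hN hs _ h7
  rw [Subgroup.mem_bot, h6, h8, map_one]

end Pool.Agent.H77.TI
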