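import Pool.Agent.H77.TI.Wr

/-!
[H77 TI EQ3] Solubility and finiteness of K wr P (25-40 min).

PROOF. The homomorphism rightHom restricted to wrSub P K maps to the soluble group P; its kernel
consists of the inl f with f ω ∈ K for all ω, isomorphic to Ω → K (embeds into Ω → K); a finite
power of a soluble group is soluble (derivedSeries of a Pi: if derivedSeries K n = ⊥ then
derivedSeries (Ω → K) n = ⊥ coordinatewise via map_derivedSeries_le_derivedSeries and
Pi.evalMonoidHom; no finiteness of Ω needed). Use Group.isSolvable_of_ker_le_range or the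
corresponding lemma of Mathlib.
-/

namespace Pool.Agent.H77.TI

private theorem eq3_pi {Ω K : Type*} [Group K] (hK : Group.IsSolvable K) :
    Group.IsSolvable (Ω → K) := by
  obtain ⟨n, hn⟩ := hK
  refine ⟨⟨n, ?_⟩⟩
  rw [eq_bot_iff]
  intro v hv
  rw [Subgroup.mem_bot]
  funext ω
  have h1 : Pi.evalMonoidHom (fun _ : Ω => K) ω v ∈ derivedSeries K n :=
    map_derivedSeries_le_derivedSeries (Pi.evalMonoidHom (fun _ : Ω => K) ω) n ⟨v, hv, rfl⟩
  rw [hn, Subgroup.mem_bot] at h1
  exact h1

theorem eq3 {A : Type*} [Group A] {Ω : Type*} (P : Subgroup (Equiv.Perm Ω))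
    (hP : Group.IsSolvable P) (K : Subgroup A) (hK : Group.IsSolvable K) :
    Group.IsSolvable (wrSub P K) := by
  have h1 : Group.IsSolvable (Ω → K) := eq3_pi hK
  let f : (Ω → K) →* wrSub P K :=
    { toFun := fun v => ⟨SemidirectProduct.inl (fun ω => (v ω).1), fun ω => (v ω).2⟩
      map_one' := rfl
      map_mul' := fun v w => by
        apply Subtype.ext
        show SemidirectProduct.inl _ = SemidirectProduct.inl _ * SemidirectProduct.inl _
        rw [← map_mul]
        rfl }
  apply Group.isSolvable_of_ker_le_range f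
    ((SemidirectProduct.rightHom : Wr A P →* P).comp (wrSub P K).subtype)
  intro w hw
  have hr : w.1.right = 1 := hw
  refine ⟨fun ω => ⟨w.1.left ω, w.2 ω⟩, ?_⟩
  apply Subtype.ext
  show SemidirectProduct.inl (fun ω => w.1.left ω) = w.1
  apply SemidirectProduct.ext
  · rfl
  · exact hr.symm

end Pool.Agent.H77.TI
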