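import Pool.Agent.H77.TI.Wr

/-!
[H77 TI EQ4] Regularity in the wreath product gives five regular orbits (60-75 min).

PROOF. Let x i ∈ Wr A P be from h. Write x i = inr (π i) * inl (f i) (x i = inl (..) * inr (π i) =
inr (π i) * inl (f i) for suitable f i). As inr (π i) ∈ wrSub P (K i): x i w (x i)⁻¹ ∈ wrSub P (K i)
iff inl (f i) * w * (inl (f i))⁻¹ ∈ wrSub P (K i). For w = (n, π) the left part of
inl (f i) * w * (inl (f i))⁻¹ at ω is f i ω * n ω * (f i (π⁻¹ ω))⁻¹. So
(*) if f i ω * n ω * (f i (π⁻¹ ω))⁻¹ ∈ K i for all i, ω then n = 1 and π = 1.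
(1) For ω in Ω and a in A: (∀ i, f i ω * a * (f i ω)⁻¹ ∈ K i) → a = 1: (*) with π = 1 and
n = Pi.mulSingle ω a.
(2) Relation on Ω: ω ~ ω' iff ∃ a, ∀ i, f i ω' * a * (f i ω)⁻¹ ∈ K i: an equivalence relation
(reflexive a = 1, symmetric a⁻¹, transitive product).
(3) If there are five pairwise inequivalent points ω_0, ..., ω_4 then τ c i = f i (ω_c) gives
Five ⊤ K: if τ c' i * n * (τ c i)⁻¹ ∈ K i for all i then ω_c ~ ω_c', so c = c', and n = 1 by (1).
(4) Otherwise the quotient of Ω by ~ has at most 4 elements, so there is c : Ω → Fin 4 such that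
c ω = c ω' implies ω ~ ω' (inject the quotient into Fin 4). By hP there is π ∈ P, π ≠ 1, with
c (π ω) = c ω for all ω; so c (π⁻¹ ω) = c ω, and π⁻¹ ω ~ ω: choose n ω with
f i ω * n ω * (f i (π⁻¹ ω))⁻¹ ∈ K i for all i. By (*) π = 1: contradiction.
(Ω is Fin 4 × Fin 4 in the application, so finite.)
-/

namespace Pool.Agent.H77.TI

theorem eq4_left {A : Type*} [Group A] {Ω : Type*} (P : Subgroup (Equiv.Perm Ω))
    (x w : Wr A P) (ω : Ω) :
    (x * w * x⁻¹).left ω = x.left ω * w.left ((x.right⁻¹ : P).1 ω) *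
      (x.left (x.right.1 ((w.right⁻¹ : P).1 ((x.right⁻¹ : P).1 ω))))⁻¹ := by
  simp [wrHom]
  rfl

theorem eq4_star {A : Type*} [Group A] {Ω : Type*}
    (P : Subgroup (Equiv.Perm Ω)) {ι : Type*} (K : ι → Subgroup A) (x : ι → Wr A P)
    (hx : ∀ g : Wr A P, (∀ i, x i * g * (x i)⁻¹ ∈ wrSub P (K i)) → g = 1)
    (f : ι → Ω → A) (hf : ∀ i ω, f i ω = (x i).left ((x i).right.1 ω))
    (n : Ω → A) (π : Equiv.Perm Ω) (hπ : π ∈ P)
    (h : ∀ i ω, f i ω * n ω * (f i (π⁻¹ ω))⁻¹ ∈ K i) : n = 1 ∧ π = 1 := by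
  have h1 := hx ⟨n, ⟨π, hπ⟩⟩ (by
    intro i ω
    rw [eq4_left]
    have h2 := h i (((x i).right⁻¹ : P).1 ω)
    rw [hf, hf] at h2
    have h3 : (x i).right.1 (((x i).right⁻¹ : P).1 ω) = ω := by simp
    rw [h3] at h2
    exact h2)
  constructor
  · exact congrArg (fun w : Wr A P => w.left) h1
  · exact congrArg (fun w : Wr A P => w.right.1) h1

theorem eq4 {A : Type*} [Group A] {Ω : Type*} [Finite Ω] [DecidableEq Ω]
    (P : Subgroup (Equiv.Perm Ω)) (hP : ∀ c : Ω → Fin 4, ∃ π ∈ P, π ≠ 1 ∧ ∀ ω, c (π ω) = c ω)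
    {ι : Type*} (K : ι → Subgroup A) (h : Regular (fun i => wrSub P (K i))) : Five ⊤ K := by
  classical
  obtain ⟨x, hx⟩ := h
  obtain ⟨f, hf⟩ : ∃ f : ι → Ω → A, ∀ i ω, f i ω = (x i).left ((x i).right.1 ω) :=
    ⟨fun i ω => (x i).left ((x i).right.1 ω), fun _ _ => rfl⟩
  have hstar := eq4_star P K x hx f hf
  have h1 : ∀ ω a, (∀ i, f i ω * a * (f i ω)⁻¹ ∈ K i) → a = 1 := by
    intro ω a ha
    have h2 := (hstar (Pi.mulSingle ω a) 1 P.one_mem (by
      intro i ω'
      rw [inv_one, Equiv.Perm.one_apply]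
      by_cases hω : ω' = ω
      · subst hω
        rw [Pi.mulSingle_eq_same]
        exact ha i
      · rw [Pi.mulSingle_eq_of_ne hω, mul_one, mul_inv_cancel]
        exact (K i).one_mem)).1
    have h3 := congrFun h2 ω
    rwa [Pi.mulSingle_eq_same] at h3
  let r : Setoid Ω :=
    { r := fun ω ω' => ∃ a, ∀ i, f i ω' * a * (f i ω)⁻¹ ∈ K i
      iseqv :=
        { refl := fun ω => ⟨1, fun i => by
            rw [mul_one, mul_inv_cancel]
            exact (K i).one_mem⟩
          symm := by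
            rintro ω ω' ⟨a, ha⟩
            refine ⟨a⁻¹, fun i => ?_⟩
            have h2 := (K i).inv_mem (ha i)
            have h3 : (f i ω' * a * (f i ω)⁻¹)⁻¹ = f i ω * a⁻¹ * (f i ω')⁻¹ := by group
            rwa [h3] at h2
          trans := by
            rintro ω ω' ω'' ⟨a, ha⟩ ⟨b, hb⟩
            refine ⟨b * a, fun i => ?_⟩
            have h2 := (K i).mul_mem (hb i) (ha i)
            have h3 : f i ω'' * b * (f i ω')⁻¹ * (f i ω' * a * (f i ω)⁻¹) =
                f i ω'' * (b * a) * (f i ω)⁻¹ := by group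
            rwa [h3] at h2 } }
  have hQ : Finite (Quotient r) := Quotient.finite r
  by_cases hc : 5 ≤ Nat.card (Quotient r)
  · have := Fintype.ofFinite (Quotient r)
    have hc2 : Fintype.card (Fin 5) ≤ Fintype.card (Quotient r) := by
      rw [Fintype.card_fin, ← Nat.card_eq_fintype_card]
      exact hc
    obtain ⟨e⟩ := Function.Embedding.nonempty_of_card_le hc2
    refine ⟨fun c i => f i (e c).out, fun _ _ => Subgroup.mem_top _, ?_⟩
    intro c c' n hn
    have h2 : r ((e c).out) ((e c').out) := ⟨n, hn⟩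
    have h3 : e c = e c' := by
      rw [← Quotient.out_eq (e c), ← Quotient.out_eq (e c')]
      exact Quotient.sound h2
    have h4 : c = c' := e.injective h3
    subst h4
    exact ⟨rfl, h1 _ n hn⟩
  · exfalso
    have := Fintype.ofFinite (Quotient r)
    have hc2 : Fintype.card (Quotient r) ≤ Fintype.card (Fin 4) := by
      rw [Fintype.card_fin, ← Nat.card_eq_fintype_card]
      omega
    obtain ⟨e⟩ := Function.Embedding.nonempty_of_card_le hc2
    obtain ⟨π, hπ, hπ1, hπc⟩ := hP (fun ω => e (Quotient.mk r ω))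
    have h2 : ∀ ω, ∃ a, ∀ i, f i ω * a * (f i (π⁻¹ ω))⁻¹ ∈ K i := by
      intro ω
      have h3 := hπc (π⁻¹ ω)
      have h4 : π (π⁻¹ ω) = ω := by simp
      rw [h4] at h3
      exact Quotient.exact (e.injective h3.symm)
    choose n hn using h2
    exact hπ1 (hstar n π hπ (fun i ω => hn ω i)).2

end Pool.Agent.H77.TI
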