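import Pool.Agent.H77.TI.Red4

/-!
[H77 TI RED5] The reduction theorem (30-45 min).

PROOF. Claim: for every normal subgroup C of G there is y : ι → G with y i ∈ C and
∀ g ∈ C, (∀ i, y i * g * (y i)⁻¹ ∈ H i) → g = 1. (C = ⊤ is the theorem.)
Strong induction on the order of C. C = ⊥: y = 1. C ≠ ⊥: take N, x from red4, Z = centralizer N
(normal), C' = C ⊓ Z, normal, and C' < C (N ≤ C, N ≠ ⊥, N ⊓ Z = ⊥). Let y' be for C', and
y i = x i * y' i ∈ C. Suppose g ∈ C and x i y' i g (y' i)⁻¹ (x i)⁻¹ ∈ H i for all i. Then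
x i * g * (x i)⁻¹ = [x i y' i g (y' i)⁻¹ (x i)⁻¹] * [x i (y' i g⁻¹ (y' i)⁻¹ g) (x i)⁻¹] and the
second factor is in Z (y' i ∈ Z, Z normal). So x i g (x i)⁻¹ ∈ H i ⊔ Z for all i, and g ∈ Z by
red4; g ∈ C'. Now y' i g (y' i)⁻¹ ∈ Z commutes with x i ∈ N, so
y' i g (y' i)⁻¹ = x i y' i g (y' i)⁻¹ (x i)⁻¹ ∈ H i for all i, and g = 1.
-/

namespace Pool.Agent.H77.TI

open Subgroup

theorem red5 {G : Type*} [Group G] [Finite G] (hR : TrivRad G) {ι : Type*}
    (H : ι → Subgroup G) (i₁ : ι) (hsol : Group.IsSolvable (H i₁)) (hloc : LocHyp H) :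
    Regular H := by
  have claim : ∀ C : Subgroup G, C.Normal → ∃ y : ι → G, (∀ i, y i ∈ C) ∧
      ∀ g ∈ C, (∀ i, y i * g * (y i)⁻¹ ∈ H i) → g = 1 := by
    intro C
    induction C using WellFoundedLT.induction with
    | _ C ih =>
      intro hC
      by_cases hC1 : C = ⊥
      · subst hC1
        exact ⟨fun _ => 1, fun _ => one_mem _, fun g hg _ => by simpa using hg⟩
      obtain ⟨N, hN, hN1, hNC, hNZ, x, hx, hxd⟩ := red4 hR H i₁ hsol hloc C hC hC1
      have hZn : (centralizer (N : Set G)).Normal := inferInstance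
      have hlt : C ⊓ centralizer (N : Set G) < C := by
        refine lt_of_le_of_ne inf_le_left fun h => hN1 ?_
        rw [← hNZ]
        refine le_antisymm (le_inf le_rfl ?_) inf_le_left
        exact hNC.trans (h ▸ inf_le_right)
      obtain ⟨y, hy, hyg⟩ := ih _ hlt inferInstance
      refine ⟨fun i => x i * y i, fun i => mul_mem (hNC (hx i)) (hy i).1, ?_⟩
      intro g hg hH
      have hgZ : g ∈ centralizer (N : Set G) := by
        refine hxd g fun i => ?_
        have e : x i * g * (x i)⁻¹ =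
            (x i * y i * g * (x i * y i)⁻¹) * (x i * (y i * (g⁻¹ * (y i)⁻¹ * g⁻¹⁻¹)) * (x i)⁻¹) := by
          group
        rw [e]
        refine mul_mem (mem_sup_left (hH i)) (mem_sup_right ?_)
        exact hZn.conj_mem _ (mul_mem (hy i).2 (hZn.conj_mem _ (inv_mem (hy i).2) _)) _
      refine hyg g ⟨hg, hgZ⟩ fun i => ?_
      have h1 : y i * g * (y i)⁻¹ ∈ centralizer (N : Set G) := hZn.conj_mem _ hgZ _
      have h2 : x i * (y i * g * (y i)⁻¹) = (y i * g * (y i)⁻¹) * x i := (mem_centralizer_iff.1 h1) (x i) (hx i)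
      have h3 : y i * g * (y i)⁻¹ = x i * y i * g * (x i * y i)⁻¹ := by
        rw [eq_mul_inv_iff_mul_eq, ← mul_assoc, ← h2]
        group
      rw [h3]
      exact hH i
  obtain ⟨y, _, hy⟩ := claim ⊤ inferInstance
  exact ⟨y, fun g hg => hy g (mem_top g) hg⟩

end Pool.Agent.H77.TI
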