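import Pool.Agent.H77.TI.Loc5
import Pool.Agent.H77.TI.Red5

/-!
[H77 TI FINA] The theorem on local derived lengths (30-40 min).

PROOF. red5 with any i₁ (say 0). LocHyp: let T be a component, K i ≤ autSub (H i) T with
K i ⊔ inn T = K j ⊔ inn T. Take i₀, d from hloc T. K i ≤ autSub (H i) T, so
derivedSeries (K i) (d i) = ⊥ for i ≠ i₀ (map_derivedSeries_le_derivedSeries for the inclusion
K i → autSub (H i) T, injective). K i₀ is soluble: autSub (H i₀) T is the image of a subgroup of
H i₀. T is finite and simple, not commutative (IsComp). loc5.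
-/

namespace Pool.Agent.H77.TI

open Subgroup

private theorem finA_sol {G : Type*} [Group G] (H T : Subgroup G) (hH : Group.IsSolvable H) :
    Group.IsSolvable (autSub H T) := by
  have h1 : Group.IsSolvable (H.subgroupOf (normalizer (T : Set G))) := by
    let f : (H.subgroupOf (normalizer (T : Set G))) →* H :=
      ((normalizer (T : Set G)).subtype.comp
        (H.subgroupOf (normalizer (T : Set G))).subtype).codRestrict H (fun x => x.2)
    have hf : Function.Injective f := by
      intro x y hxy
      have h2 := congrArg Subtype.val hxy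
      exact Subtype.ext (Subtype.ext h2)
    exact Group.isSolvable_of_isSolvable_injective hf
  unfold autSub
  exact Group.isSolvable_of_surjective
    (T.normalizerMonoidHom.subgroupMap_surjective (H.subgroupOf (normalizer (T : Set G))))

private theorem finA_der {A : Type*} [Group A] {K L : Subgroup A} (h : K ≤ L) {n : ℕ}
    (hL : derivedSeries L n = ⊥) : derivedSeries K n = ⊥ := by
  have h1 := map_derivedSeries_le_derivedSeries (Subgroup.inclusion h) n
  rw [hL, le_bot_iff] at h1
  exact (Subgroup.map_eq_bot_iff_of_injective _ (Subgroup.inclusion_injective h)).1 h1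

theorem finA {G : Type*} [Group G] [Finite G] (hR : TrivRad G) (k : ℕ)
    (H : Fin (k + 1) → Subgroup G) (hsol : ∀ i, Group.IsSolvable (H i))
    (hloc : ∀ T : Subgroup G, IsComp T → ∃ (i₀ : Fin (k + 1)) (d : Fin (k + 1) → ℕ),
      (∀ i, i ≠ i₀ → derivedSeries (autSub (H i) T) (d i) = ⊥) ∧
        (1 : ℚ) ≤ ∑ i ∈ Finset.univ.erase i₀, (1 / 2 : ℚ) ^ (d i)) :
    Regular H := by
  refine red5 hR H 0 (hsol 0) ?_
  intro T hT K hK hKK
  obtain ⟨i₀, d, hd, hsum⟩ := hloc T hT
  have h1 : Group.IsSolvable (autSub (H i₀) T) := finA_sol (H i₀) T (hsol i₀)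
  have h2 : Group.IsSolvable (K i₀) :=
    Group.isSolvable_of_isSolvable_injective (Subgroup.inclusion_injective (hK i₀))
  exact loc5 hT.2.1 hT.2.2 K hKK i₀ h2 d (fun i hi => finA_der (hK i) (hd i hi)) hsum

end Pool.Agent.H77.TI
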