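import Pool.Agent.H77.TI.Base

/-!
[H77 TI LOC1] Automorphism groups of a nonabelian simple group (30-45 min).

PROOF of loc1. Let N be a soluble normal subgroup of ↥A₀ and N' its image in MulAut T.
X = {t | MulAut.conj t ∈ N'} = N'.comap MulAut.conj is normal in T: conj (s t s⁻¹) = conj s * conj t
* (conj s)⁻¹ and conj s ∈ inn T ≤ A₀. So X = ⊥ or ⊤. X = ⊤: MulAut.conj maps T injectively (the
centre of T is trivial: it is normal, and ≠ ⊤ because T is not commutative) into N' ≅ N, so T is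
soluble, so commutative (IsSimpleGroup.comm_iff_isSolvable): contradiction. X = ⊥: for φ in N' and
t in T: φ * conj t * φ⁻¹ = conj (φ t) and conj t ∈ A₀, so conj (φ t * t⁻¹) =
φ * (conj t * φ⁻¹ * (conj t)⁻¹) ∈ N', so φ t * t⁻¹ = 1. So φ = 1.
loc1b: conj : T → inn T is an isomorphism; its image in ↥A₀ is (inn T).subgroupOf A₀ ≅ inn T
(Subgroup.subgroupOfEquivOfLe). Normal: φ conj t φ⁻¹ = conj (φ t). An element φ of A₀ which commutes
with all conj t satisfies conj (φ t) = conj t, so φ t = t.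
-/

namespace Pool.Agent.H77.TI

open Subgroup

theorem loc1_conj {T : Type*} [Group T] (φ : MulAut T) (t : T) :
    φ * MulAut.conj t * φ⁻¹ = MulAut.conj (φ t) := by
  ext x
  simp [MulAut.conj_apply, MulAut.mul_apply]

theorem loc1_inj {T : Type*} [Group T] (hs : IsSimpleGroup T)
    (hc : ¬ ∀ a b : T, a * b = b * a) : Function.Injective (MulAut.conj : T →* MulAut T) := by
  rw [← MonoidHom.ker_eq_bot_iff]
  rcases hs.eq_bot_or_eq_top_of_normal (MulAut.conj : T →* MulAut T).ker inferInstance with h | h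
  · exact h
  · exfalso
    apply hc
    intro a b
    have h1 : a ∈ (MulAut.conj : T →* MulAut T).ker := by rw [h]; exact mem_top a
    have h2 : MulAut.conj a b = b := by
      rw [MonoidHom.mem_ker.1 h1]
      rfl
    rw [MulAut.conj_apply] at h2
    calc a * b = a * b * a⁻¹ * a := by group
      _ = b * a := by rw [h2]

theorem loc1 {T : Type*} [Group T] (hs : IsSimpleGroup T) (hc : ¬ ∀ a b : T, a * b = b * a)
    (A₀ : Subgroup (MulAut T)) (hA : inn T ≤ A₀) : TrivRad A₀ := by
  intro N hN hsol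
  have hA' : ∀ t : T, MulAut.conj t ∈ A₀ := fun t => hA ⟨t, rfl⟩
  have hXn : ((N.map A₀.subtype).comap (MulAut.conj : T →* MulAut T)).Normal := by
    refine ⟨?_⟩
    rintro t ⟨n, hn, hnt⟩ s
    refine ⟨⟨MulAut.conj s, hA' s⟩ * n * ⟨MulAut.conj s, hA' s⟩⁻¹,
      hN.conj_mem n hn ⟨MulAut.conj s, hA' s⟩, ?_⟩
    rw [map_mul, map_mul, map_inv, hnt, map_mul, map_mul, map_inv]
    rfl
  rcases hs.eq_bot_or_eq_top_of_normal _ hXn with h | h
  · rw [eq_bot_iff]
    intro φ hφ
    rw [mem_bot]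
    apply Subtype.ext
    ext t
    have h1 : φ * (⟨MulAut.conj t, hA' t⟩ * φ⁻¹ * ⟨MulAut.conj t, hA' t⟩⁻¹) ∈ N :=
      mul_mem hφ (hN.conj_mem _ (inv_mem hφ) _)
    have h2 : (φ : MulAut T) t * t⁻¹ ∈ (N.map A₀.subtype).comap (MulAut.conj : T →* MulAut T) := by
      refine ⟨_, h1, ?_⟩
      have h3 := loc1_conj (φ : MulAut T) t
      have h4 : MulAut.conj ((φ : MulAut T) t * t⁻¹)
          = (φ : MulAut T) * MulAut.conj t * (φ : MulAut T)⁻¹ * (MulAut.conj t)⁻¹ := by
        rw [h3, ← map_inv, ← map_mul]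
      rw [h4]
      show (φ : MulAut T) * (MulAut.conj t * (φ : MulAut T)⁻¹ * (MulAut.conj t)⁻¹) = _
      group
    rw [h, mem_bot] at h2
    show (φ : MulAut T) t = t
    exact mul_inv_eq_one.1 h2
  · exfalso
    have hsol2 : Group.IsSolvable (N.map A₀.subtype) :=
      Group.isSolvable_of_surjective
        (f := (N.equivMapOfInjective A₀.subtype A₀.subtype_injective).toMonoidHom)
        (N.equivMapOfInjective A₀.subtype A₀.subtype_injective).surjective
    have hmem : ∀ t : T, MulAut.conj t ∈ N.map A₀.subtype := by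
      intro t
      have : t ∈ (N.map A₀.subtype).comap (MulAut.conj : T →* MulAut T) := by
        rw [h]
        exact mem_top t
      exact this
    have hsolT : Group.IsSolvable T :=
      Group.isSolvable_of_isSolvable_injective
        (f := (MulAut.conj : T →* MulAut T).codRestrict (N.map A₀.subtype) hmem) (by
          intro a b hab
          exact loc1_inj hs hc (congrArg Subtype.val hab))
    haveI := hs
    exact hc (IsSimpleGroup.comm_iff_isSolvable.2 hsolT)

theorem loc1b {T : Type*} [Group T] (hs : IsSimpleGroup T) (hc : ¬ ∀ a b : T, a * b = b * a)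
    (A₀ : Subgroup (MulAut T)) (hA : inn T ≤ A₀) :
    ((inn T).subgroupOf A₀).Normal ∧ IsSimpleGroup ((inn T).subgroupOf A₀) ∧
      (¬ ∀ a b : (inn T).subgroupOf A₀, a * b = b * a) ∧
      centralizer ((inn T).subgroupOf A₀ : Set A₀) = ⊥ ∧ Nontrivial A₀ := by
  have hA' : ∀ t : T, MulAut.conj t ∈ A₀ := fun t => hA ⟨t, rfl⟩
  have hinj := loc1_inj hs hc
  let e : T ≃* (inn T).subgroupOf A₀ :=
    (MonoidHom.ofInjective hinj).trans (subgroupOfEquivOfLe hA).symm
  haveI := hs
  have hsimp : IsSimpleGroup ((inn T).subgroupOf A₀) := e.symm.isSimpleGroup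
  have hinn : (inn T).Normal := by
    refine ⟨?_⟩
    rintro _ ⟨t, rfl⟩ g
    exact ⟨g t, (loc1_conj g t).symm⟩
  refine ⟨hinn.subgroupOf A₀, hsimp, ?_, ?_, ?_⟩
  · intro h
    apply hc
    intro a b
    apply e.injective
    rw [map_mul, map_mul]
    exact h _ _
  · rw [eq_bot_iff]
    intro φ hφ
    rw [mem_bot]
    apply Subtype.ext
    ext t
    rw [mem_centralizer_iff] at hφ
    have h1 := hφ ⟨MulAut.conj t, hA' t⟩ ⟨t, rfl⟩
    have h2 : MulAut.conj t * (φ : MulAut T) = (φ : MulAut T) * MulAut.conj t :=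
      congrArg Subtype.val h1
    have h3 := loc1_conj (φ : MulAut T) t
    rw [← h2, mul_inv_cancel_right] at h3
    exact (hinj h3).symm
  · obtain ⟨x, y, hxy⟩ := hsimp.toNontrivial.exists_pair_ne
    exact ⟨⟨x, y, fun h => hxy (Subtype.ext h)⟩⟩

end Pool.Agent.H77.TI
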