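import Pool.Agent.H77.TI.Base

/-!
[H77 TI LOC3] Five inequivalent regular tuples from one regular tuple (30-45 min).

PROOF. For every i: x i ∈ K i ⊔ S = K i * S (S normal), x i = k i * t i, k i ∈ K i, t i ∈ S. Then
t i * z * (t i)⁻¹ ∈ K i iff x i * z * (x i)⁻¹ ∈ K i. As K i₀ ⊔ S = ⊤ and S normal, every coset of
K i₀ contains an element of S; the index is ≥ 5 and finite, so there are s : Fin 5 → A with s c ∈ S
and s c' * (s c)⁻¹ ∉ K i₀ for c ≠ c' (take five different right cosets K i₀ * s c; e.g. five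
different elements g c of A ⧸ K i₀ (left cosets), written as s' k..., and s c = their inverses).
τ c i = t i for i ≠ i₀, τ c i₀ = s c. If τ c' i * n * (τ c i)⁻¹ ∈ K i for all i, then for i ≠ i₀
t i * n * (t i)⁻¹ ∈ K i, so n = 1 by hx; then for i₀: s c' * (s c)⁻¹ ∈ K i₀, so c = c'.
loc3b (adjusting the entries): τ c i = k * t with k ∈ K i, t ∈ S; replace τ c i by t.
-/

namespace Pool.Agent.H77.TI

open Subgroup

/-- the adjustment of the entries -/
theorem loc3_adjust {A : Type*} [Group A] {ι : Type*} (S : Subgroup A) (hS : S.Normal)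
    (K : ι → Subgroup A) (hKS : ∀ i, K i ⊔ S = ⊤) (h : Five ⊤ K) : Five S K := by
  obtain ⟨τ, _, hτ⟩ := h
  have hdec : ∀ (c : Fin 5) (i : ι), ∃ k ∈ K i, ∃ t ∈ S, k * t = τ c i := by
    intro c i
    have h1 : τ c i ∈ K i ⊔ S := by
      rw [hKS i]
      exact mem_top _
    exact mem_sup_of_normal_right.1 h1
  choose k hk t ht hkt using hdec
  refine ⟨t, ht, fun c c' n hn => hτ c c' n fun i => ?_⟩
  have h1 : τ c' i * n * (τ c i)⁻¹ = k c' i * (t c' i * n * (t c i)⁻¹) * (k c i)⁻¹ := by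
    rw [← hkt c i, ← hkt c' i]
    group
  rw [h1]
  exact mul_mem (mul_mem (hk c' i) (hn i)) (inv_mem (hk c i))

theorem loc3 {A : Type*} [Group A] [Finite A] {ι : Type*} (S : Subgroup A) (hS : S.Normal)
    (K : ι → Subgroup A) (hKS : ∀ i, K i ⊔ S = ⊤) (i₀ : ι) (hi : 5 ≤ (K i₀).index) (x : ι → A)
    (hx : ∀ z : A, (∀ i, i ≠ i₀ → x i * z * (x i)⁻¹ ∈ K i) → z = 1) : Five S K := by
  classical
  refine loc3_adjust S hS K hKS ?_
  have hemb : Nonempty (Fin 5 ↪ A ⧸ K i₀) := by
    have : Fintype (A ⧸ K i₀) := Fintype.ofFinite _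
    refine Function.Embedding.nonempty_of_card_le ?_
    rw [Fintype.card_fin, ← Nat.card_eq_fintype_card]
    exact hi
  obtain ⟨e⟩ := hemb
  have hr : ∀ c, ∃ r : A, (QuotientGroup.mk r : A ⧸ K i₀) = e c := fun c =>
    QuotientGroup.mk_surjective (e c)
  choose r hr using hr
  refine ⟨fun c i => if i = i₀ then (r c)⁻¹ else x i, fun _ _ => mem_top _, ?_⟩
  intro c c' n hn
  have hn1 : n = 1 := by
    refine hx n fun i hi => ?_
    have h1 := hn i
    simp only [if_neg hi] at h1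
    exact h1
  refine ⟨?_, hn1⟩
  have h2 := hn i₀
  simp only [if_true, hn1, mul_one, inv_inv] at h2
  have h3 : (QuotientGroup.mk (r c') : A ⧸ K i₀) = QuotientGroup.mk (r c) := by
    rw [QuotientGroup.eq]
    exact h2
  rw [hr, hr] at h3
  exact (e.injective h3).symm

theorem loc3b {A : Type*} [Group A] {ι : Type*} (S : Subgroup A) (hS : S.Normal)
    (K : ι → Subgroup A) (hKS : ∀ i, K i ⊔ S = ⊤) (h : Five ⊤ K) : Five S K :=
  loc3_adjust S hS K hKS h

end Pool.Agent.H77.TI
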