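import Pool.Agent.H77.TI.Base

/-!
[H77 TI LOC4] Five: from a subgroup A₀ to A (15-25 min).

PROOF. Let τ be from h, τ' c i = (τ c i : A) ∈ S. If τ' c' i * n * (τ' c i)⁻¹ ∈ K i for all i, then
(ι nonempty, K i ≤ A₀, τ' in A₀) n ∈ A₀, and h applied to ⟨n, _⟩ gives c = c' and n = 1.
-/

namespace Pool.Agent.H77.TI

open Subgroup

theorem loc4 {A : Type*} [Group A] {ι : Type*} [Nonempty ι] (A₀ S : Subgroup A)
    (K : ι → Subgroup A) (hK : ∀ i, K i ≤ A₀)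
    (h : Five (S.subgroupOf A₀) (fun i => (K i).subgroupOf A₀)) : Five S K := by
  obtain ⟨τ, hτS, hτ⟩ := h
  refine ⟨fun c i => (τ c i : A), fun c i => mem_subgroupOf.1 (hτS c i), fun c c' n hn => ?_⟩
  obtain ⟨i0⟩ := (inferInstance : Nonempty ι)
  have hn0 : n ∈ A₀ := by
    have h1 := hK i0 (hn i0)
    have h2 : n = ((τ c' i0 : A₀) : A)⁻¹ * (((τ c' i0 : A₀) : A) * n * ((τ c i0 : A₀) : A)⁻¹) *
        ((τ c i0 : A₀) : A) := by group
    rw [h2]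
    exact A₀.mul_mem (A₀.mul_mem (A₀.inv_mem (τ c' i0).2) h1) (τ c i0).2
  obtain ⟨hc, h1⟩ := hτ c c' ⟨n, hn0⟩ (fun i => by
    rw [mem_subgroupOf]
    simpa using hn i)
  exact ⟨hc, by simpa using congrArg Subtype.val h1⟩

end Pool.Agent.H77.TI
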