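import Pool.Agent.H77.TI.Eq1
import Pool.Agent.H77.TI.Eq2
import Pool.Agent.H77.TI.Eq3
import Pool.Agent.H77.TI.Eq4
import Pool.Agent.H77.TI.Red5
import Pool.Agent.H77.TI.Loc1
import Pool.Agent.H77.TI.Loc3
import Pool.Agent.H77.TI.Loc4

/-!
[H77 TI FINB] The equivalence (45-60 min).

PROOF. (→): Let A, T, K be given; A is nontrivial. TrivRad A: N soluble normal in A; N ⊓ T is
normal in T (simple), so it is ⊥ or T; not T, as T would be soluble, hence commutative
(IsSimpleGroup.comm_iff_isSolvable); so N ⊓ T = ⊥, N and T commute elementwise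
(Subgroup.commute_of_normal_of_disjoint), N ≤ centralizer T = ⊥. Let P be from eq1,
G = Wr A P (a Type, finite), TrivRad by eq2, H i = wrSub P (K i) soluble by eq3; so Regular H, and
eq4 gives Five ⊤ K.
(←): Let G, H be given. red5 with i₁ = 0: LocHyp: T a component, K i ≤ autSub (H i) T (soluble: the
image of a subgroup of H i), A₀ = K 0 ⊔ inn T = K i ⊔ inn T. By loc1b (T simple, not commutative)
S = (inn T).subgroupOf A₀ is normal in A₀, simple, not commutative, with trivial centraliser. The
hypothesis for A₀, S, K' i = (K i).subgroupOf A₀ (soluble, isomorphic to K i) gives Five ⊤ K'.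
K' i ⊔ S = ⊤ (Subgroup.subgroupOf_sup or similar). loc3b: Five S K'. loc4: Five (inn T) K.
-/

namespace Pool.Agent.H77.TI

open Subgroup

theorem FinB_rad {A : Type*} [Group A] (T : Subgroup A) (hTn : T.Normal)
    (hTs : IsSimpleGroup T) (hTc : ¬ ∀ a b : T, a * b = b * a)
    (hcent : centralizer (T : Set A) = ⊥) : TrivRad A := by
  intro N hN hNs
  have hNT : (N.subgroupOf T).Normal := hN.subgroupOf T
  rcases hNT.eq_bot_or_eq_top with h1 | h1
  · have hdis : Disjoint N T := by
      rw [disjoint_iff, eq_bot_iff]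
      intro x hx
      rw [mem_inf] at hx
      have h2 : (⟨x, hx.2⟩ : T) ∈ N.subgroupOf T := by
        rw [mem_subgroupOf]
        exact hx.1
      rw [h1, mem_bot] at h2
      rw [mem_bot]
      exact congrArg Subtype.val h2
    rw [eq_bot_iff, ← hcent]
    intro x hx
    rw [mem_centralizer_iff]
    intro y hy
    exact (commute_of_normal_of_disjoint N T hN hTn hdis x y hx hy).symm
  · exfalso
    apply hTc
    rw [IsSimpleGroup.comm_iff_isSolvable]
    have h2 : T ≤ N := by
      intro x hx
      have h3 : (⟨x, hx⟩ : T) ∈ N.subgroupOf T := by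
        rw [h1]
        exact mem_top _
      rw [mem_subgroupOf] at h3
      exact h3
    exact Group.isSolvable_of_isSolvable_injective (inclusion_injective h2)

theorem FinB_aut {G : Type*} [Group G] (H T : Subgroup G) (hH : Group.IsSolvable H) :
    Group.IsSolvable (autSub H T) := by
  have h1 : Group.IsSolvable (H.subgroupOf (normalizer (T : Set G))) := by
    have hinj : Function.Injective ((H.subgroupOf (normalizer (T : Set G))).subtype) :=
      subtype_injective _
    let f : (H.subgroupOf (normalizer (T : Set G))) →* H :=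
      { toFun := fun x => ⟨x.1.1, x.2⟩
        map_one' := rfl
        map_mul' := fun _ _ => rfl }
    have hf : Function.Injective f := by
      intro x y h
      apply Subtype.ext
      apply Subtype.ext
      have h2 := congrArg (fun z : H => (z : G)) h
      exact h2
    exact Group.isSolvable_of_isSolvable_injective hf
  exact Group.isSolvable_of_surjective
    ((T.normalizerMonoidHom).subgroupMap_surjective (H.subgroupOf (normalizer (T : Set G))))

theorem FinB_le {G : Type*} [Group G] {H K : Subgroup G} (h : H ≤ K) (hK : Group.IsSolvable K) :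
    Group.IsSolvable H :=
  Group.isSolvable_of_isSolvable_injective (inclusion_injective h)

theorem FinB_sub {G : Type*} [Group G] (H K : Subgroup G) (hH : Group.IsSolvable H) :
    Group.IsSolvable (H.subgroupOf K) := by
  let f : (H.subgroupOf K) →* H :=
    { toFun := fun x => ⟨x.1.1, x.2⟩
      map_one' := rfl
      map_mul' := fun _ _ => rfl }
  have hf : Function.Injective f := by
    intro x y h
    apply Subtype.ext
    apply Subtype.ext
    have h2 := congrArg (fun z : H => (z : G)) h
    exact h2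
  exact Group.isSolvable_of_isSolvable_injective hf

theorem finB :
    (∀ (G : Type) [Group G] [Finite G], TrivRad G → ∀ H : Fin 5 → Subgroup G,
      (∀ i, Group.IsSolvable (H i)) → Regular H) ↔
    (∀ (A : Type) [Group A] [Finite A] (T : Subgroup A), T.Normal → IsSimpleGroup T →
      (¬ ∀ a b : T, a * b = b * a) → centralizer (T : Set A) = ⊥ →
      ∀ K : Fin 5 → Subgroup A, (∀ i, Group.IsSolvable (K i)) →
        ∃ τ : Fin 5 → Fin 5 → A, ∀ c c' n, (∀ i, τ c' i * n * (τ c i)⁻¹ ∈ K i) →
          c = c' ∧ n = 1) := by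
  constructor
  · intro h A _ _ T hTn hTs hTc hcent K hK
    obtain ⟨P, hPs, hPc⟩ := eq1
    have hnt : Nontrivial A := by
      obtain ⟨a, b, hab⟩ := hTs.toNontrivial
      exact ⟨a, b, fun h => hab (Subtype.ext h)⟩
    have hfin : Finite (Wr A P) := Finite.of_equiv _ (SemidirectProduct.equivProd).symm
    have hreg := h (Wr A P) (eq2 (FinB_rad T hTn hTs hTc hcent) P)
      (fun i => wrSub P (K i)) (fun i => eq3 P hPs (K i) (hK i))
    obtain ⟨τ, _, hτ⟩ := eq4 P hPc K hreg
    exact ⟨τ, hτ⟩
  · intro h G _ _ hR H hH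
    apply red5 hR H 0 (hH 0)
    intro T hT K hK hKK
    obtain ⟨_, hTs, hTc⟩ := hT
    obtain ⟨A₀, hA₀⟩ : ∃ A₀ : Subgroup (MulAut T), A₀ = K 0 ⊔ inn T := ⟨_, rfl⟩
    have hA : ∀ i, K i ⊔ inn T = A₀ := fun i => (hKK i 0).trans hA₀.symm
    have hin : inn T ≤ A₀ := hA₀ ▸ le_sup_right
    have hKA : ∀ i, K i ≤ A₀ := fun i => (hA i) ▸ le_sup_left
    obtain ⟨hSn, hSs, hSc, hScent, hnt⟩ := loc1b hTs hTc A₀ hin
    have hKs : ∀ i, Group.IsSolvable ((K i).subgroupOf A₀) := fun i =>
      FinB_sub _ _ (FinB_le (hK i) (FinB_aut (H i) T (hH i)))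
    obtain ⟨τ, hτ⟩ := h A₀ ((inn T).subgroupOf A₀) hSn hSs hSc hScent
      (fun i => (K i).subgroupOf A₀) hKs
    have hF : Five (⊤ : Subgroup A₀) (fun i => (K i).subgroupOf A₀) :=
      ⟨τ, fun _ _ => mem_top _, hτ⟩
    apply loc4 A₀ (inn T) K hKA
    apply loc3b ((inn T).subgroupOf A₀) hSn (fun i => (K i).subgroupOf A₀) _ hF
    intro i
    rw [← subgroupOf_sup (hKA i) hin, hA i, subgroupOf_self]

end Pool.Agent.H77.TI
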