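import Pool.Agent.H77.TI.Base

/-!
[H77 TI GLUE1] An element with prescribed components (30-40 min).

PROOF. The set 𝒯 is finite (G finite). For every finite subset s of 𝒯 (induction) there is x in
⨆ T ∈ 𝒯, T such that for T in s there is z in centralizer T with x = t T * z, and for T in 𝒯 not
in s: x ∈ centralizer T. Start: x = 1. Step: insert S (S in 𝒯, S not in s): x' = t S * x.
For T in s: T ≠ S, t S commutes with T; x' = t S * (t T * z) = t T * (t S * z) and
t S * z ∈ centralizer T. For T = S: x' = t S * x with x ∈ centralizer S. For T not in insert S s: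
t S and x both centralise T.
-/

namespace Pool.Agent.H77.TI

open Subgroup

theorem glue1 {G : Type*} [Group G] [Finite G] (𝒯 : Set (Subgroup G))
    (hcomm : ∀ S ∈ 𝒯, ∀ T ∈ 𝒯, S ≠ T → ∀ a ∈ S, ∀ b ∈ T, a * b = b * a)
    (t : Subgroup G → G) (ht : ∀ T ∈ 𝒯, t T ∈ T) :
    ∃ x ∈ ⨆ T ∈ 𝒯, T, ∀ T ∈ 𝒯, ∃ z ∈ centralizer (T : Set G), x = t T * z := by
  classical
  have hfin : 𝒯.Finite := Set.toFinite 𝒯
  have key : ∀ s : Finset (Subgroup G), (s : Set (Subgroup G)) ⊆ 𝒯 →
      ∃ x ∈ ⨆ T ∈ 𝒯, T, (∀ T ∈ s, ∃ z ∈ centralizer (T : Set G), x = t T * z) ∧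
        ∀ T ∈ 𝒯, T ∉ s → x ∈ centralizer (T : Set G) := by
    intro s
    induction s using Finset.induction_on with
    | empty =>
      intro _
      exact ⟨1, one_mem _, by simp, fun T _ _ => one_mem _⟩
    | insert S s hS ih =>
      intro hs
      have hs' : (s : Set (Subgroup G)) ⊆ 𝒯 := fun T hT => hs (Finset.mem_coe.2 (Finset.mem_insert_of_mem hT))
      have hST : S ∈ 𝒯 := hs (Finset.mem_coe.2 (Finset.mem_insert_self S s))
      obtain ⟨x, hx, h1, h2⟩ := ih hs'
      have hcen : ∀ T ∈ 𝒯, T ≠ S → t S ∈ centralizer (T : Set G) := by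
        intro T hT hne
        rw [mem_centralizer_iff]
        intro b hb
        exact hcomm T hT S hST hne b hb (t S) (ht S hST)
      refine ⟨t S * x, mul_mem ?_ hx, ?_, ?_⟩
      · exact (le_iSup₂ (f := fun (T : Subgroup G) (_ : T ∈ 𝒯) => T) S hST) (ht S hST)
      · intro T hT
        rcases Finset.mem_insert.1 hT with rfl | hT'
        · exact ⟨x, h2 T hST hS, rfl⟩
        · have hne : T ≠ S := fun h => hS (h ▸ hT')
          obtain ⟨z, hz, hxz⟩ := h1 T hT'
          have hTT : T ∈ 𝒯 := hs' hT'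
          refine ⟨t S * z, mul_mem (hcen T hTT hne) hz, ?_⟩
          rw [hxz, ← mul_assoc, ← mul_assoc, hcomm S hST T hTT hne.symm (t S) (ht S hST) (t T) (ht T hTT)]
      · intro T hT hTn
        have hne : T ≠ S := fun h => hTn (h ▸ Finset.mem_insert_self S s)
        exact mul_mem (hcen T hT hne) (h2 T hT fun h => hTn (Finset.mem_insert_of_mem h))
  obtain ⟨x, hx, h1, _⟩ := key hfin.toFinset (by simp)
  exact ⟨x, hx, fun T hT => h1 T (by simpa using hT)⟩

end Pool.Agent.H77.TI
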