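import Pool.Agent.H77.TI.Base

/-!
[H77 TI GLUE2] The product N of the family (30-40 min).

Let N = ⨆ S ∈ 𝒯, S. PROOF. (1) Every S in 𝒯 is contained in T ⊔ centralizer T (S = T, or S
commutes with T). (2) Every S in 𝒯 normalises T (S = T: le_normalizer; else it centralises T).
(3) cj g N = ⨆ S ∈ 𝒯, cj g S ≤ N for all g by hconj; so N is normal.
(4) m ∈ Q ≤ H ⊔ N = H N (N normal): m = h * n, h ∈ H, n ∈ N ≤ Q; so h ∈ Q, and n normalises T by
(2), so h ∈ normalizer T. By (1) n = z * s with z ∈ centralizer T, s ∈ T (T ⊔ centralizer T =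
centralizer T * T: the elements commute). So r = h * z.
(5) A set W of the form (H ⊓ Q ⊓ normalizer T) ⊔ centralizer T is contained in normalizer T.
-/

namespace Pool.Agent.H77.TI

open Subgroup

theorem glue2a {G : Type*} [Group G] (𝒯 : Set (Subgroup G))
    (hcomm : ∀ S ∈ 𝒯, ∀ T ∈ 𝒯, S ≠ T → ∀ a ∈ S, ∀ b ∈ T, a * b = b * a)
    (T : Subgroup G) (hT : T ∈ 𝒯) :
    (⨆ S ∈ 𝒯, S) ≤ normalizer (T : Set G) ∧
      ∀ n ∈ ⨆ S ∈ 𝒯, S, ∃ z ∈ centralizer (T : Set G), ∃ s ∈ T, n = z * s := by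
  have hle : ∀ S ∈ 𝒯, S ≤ centralizer (T : Set G) ∨ S = T := by
    intro S hS
    by_cases h : S = T
    · exact Or.inr h
    · refine Or.inl fun a ha => ?_
      rw [mem_centralizer_iff]
      intro b hb
      exact (hcomm S hS T hT h a ha b hb).symm
  constructor
  · refine iSup₂_le fun S hS => ?_
    rcases hle S hS with h | rfl
    · exact h.trans (centralizer_le_normalizer _)
    · exact le_normalizer
  · intro n hn
    have h1 : (⨆ S ∈ 𝒯, S) ≤ centralizer (T : Set G) ⊔ T := by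
      refine iSup₂_le fun S hS => ?_
      rcases hle S hS with h | rfl
      · exact h.trans le_sup_left
      · exact le_sup_right
    have h2 : n ∈ ((centralizer (T : Set G) ⊔ T : Subgroup G) : Set G) := h1 hn
    rw [Subgroup.coe_mul_of_left_le_normalizer_right _ _ (centralizer_le_normalizer _)] at h2
    obtain ⟨z, hz, s, hs, rfl⟩ := h2
    exact ⟨z, hz, s, hs, rfl⟩

theorem glue2b {G : Type*} [Group G] (𝒯 : Set (Subgroup G))
    (hconj : ∀ T ∈ 𝒯, ∀ g : G, cj g T ∈ 𝒯) : (⨆ S ∈ 𝒯, S).Normal := by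
  refine ⟨fun n hn g => ?_⟩
  have h1 : (⨆ S ∈ 𝒯, S).map (MulAut.conj g).toMonoidHom ≤ ⨆ S ∈ 𝒯, S := by
    rw [Subgroup.map_iSup]
    refine iSup_le fun S => ?_
    rw [Subgroup.map_iSup]
    refine iSup_le fun hS => ?_
    exact le_iSup₂ (f := fun (T : Subgroup G) (_ : T ∈ 𝒯) => T) (cj g S) (hconj S hS g)
  exact h1 ⟨n, hn, rfl⟩

theorem glue2c {G : Type*} [Group G] (𝒯 : Set (Subgroup G))
    (hconj : ∀ T ∈ 𝒯, ∀ g : G, cj g T ∈ 𝒯)
    (hcomm : ∀ S ∈ 𝒯, ∀ T ∈ 𝒯, S ≠ T → ∀ a ∈ S, ∀ b ∈ T, a * b = b * a)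
    (H Q : Subgroup G) (hNQ : (⨆ S ∈ 𝒯, S) ≤ Q) (hQ : Q ≤ H ⊔ ⨆ S ∈ 𝒯, S)
    (T : Subgroup G) (hT : T ∈ 𝒯) (m : G) (hm : m ∈ normalizer (T : Set G)) (hmQ : m ∈ Q) :
    ∃ r ∈ (H ⊓ Q ⊓ normalizer (T : Set G)) ⊔ centralizer (T : Set G), ∃ s ∈ T, m = r * s := by
  have hN : (⨆ S ∈ 𝒯, S).Normal := glue2b 𝒯 hconj
  obtain ⟨hn1, hn2⟩ := glue2a 𝒯 hcomm T hT
  obtain ⟨h, hh, n, hn, rfl⟩ := Subgroup.mem_sup_of_normal_right.1 (hQ hmQ)
  obtain ⟨z, hz, s, hs, hzs⟩ := hn2 n hn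
  have hhQ : h ∈ Q := by
    have := mul_mem hmQ (inv_mem (hNQ hn))
    simpa using this
  have hhN : h ∈ normalizer (T : Set G) := by
    have := mul_mem hm (inv_mem (hn1 hn))
    simpa using this
  refine ⟨h * z, mul_mem (mem_sup_left ⟨⟨hh, hhQ⟩, hhN⟩) (mem_sup_right hz), s, hs, ?_⟩
  rw [hzs, mul_assoc]

theorem glue2d {G : Type*} [Group G] (H Q T : Subgroup G) :
    (H ⊓ Q ⊓ normalizer (T : Set G)) ⊔ centralizer (T : Set G) ≤ normalizer (T : Set G) :=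
  sup_le inf_le_right (centralizer_le_normalizer _)

end Pool.Agent.H77.TI
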