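import Pool.Agent.H77.TI.Glue1
import Pool.Agent.H77.TI.Glue2

/-!
[H77 TI GLUE3] One subgroup H: the element x (40-60 min).

PROOF. Let N = ⨆ S ∈ 𝒯, S (normal by glue2b). Fix T in 𝒯. u T := g T ∈ Q ≤ H ⊔ N, so g T = h * n
with h ∈ H, n ∈ N ≤ Q; h ∈ H ⊓ Q; n normalises T (glue2a), so cj h T = cj h (cj n T) =
cj (g T) T = ρ T. Let m = h * (g T)⁻¹: it is in Q and normalises ρ T (cj m (ρ T) = cj h (cj (g T)⁻¹
(ρ T)) = cj h T = ρ T). By glue2c (for the member ρ T of 𝒯): m = r * s with r in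
R := (H ⊓ Q ⊓ normalizer (ρ T)) ⊔ centralizer (ρ T), s ∈ ρ T. Let
u = r * τ T * s⁻¹ * r⁻¹ ∈ ρ T (r normalises ρ T, glue2d), and t T := h⁻¹ * u * h ∈ T.
By glue1 there is x in N with x = t T * z, z ∈ centralizer T, for all T in 𝒯. Then
h x (g T)⁻¹ = (h t h⁻¹) (h z h⁻¹) m = u z' r s with z' = h z h⁻¹ ∈ centralizer (ρ T), and
u z' = z' u, so it is z' u r s = z' r τ T s⁻¹ r⁻¹ r s = (z' r) (τ T), and z' * r ∈ R.
(h depends on T: choose it for every T; only the existence of x is global.)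
-/

namespace Pool.Agent.H77.TI

open Subgroup

theorem glue3 {G : Type*} [Group G] [Finite G] (𝒯 : Set (Subgroup G))
    (hconj : ∀ T ∈ 𝒯, ∀ g : G, cj g T ∈ 𝒯)
    (hcomm : ∀ S ∈ 𝒯, ∀ T ∈ 𝒯, S ≠ T → ∀ a ∈ S, ∀ b ∈ T, a * b = b * a)
    (H Q : Subgroup G) (hNQ : (⨆ S ∈ 𝒯, S) ≤ Q) (hQ : Q ≤ H ⊔ ⨆ S ∈ 𝒯, S)
    (ρ : Subgroup G → Subgroup G) (g : Subgroup G → G)
    (hρ : ∀ T ∈ 𝒯, ρ T ∈ 𝒯) (hgQ : ∀ T ∈ 𝒯, g T ∈ Q) (hg : ∀ T ∈ 𝒯, cj (g T) T = ρ T)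
    (τ : Subgroup G → G) (hτ : ∀ T ∈ 𝒯, τ T ∈ ρ T) :
    ∃ x ∈ ⨆ S ∈ 𝒯, S, ∀ T ∈ 𝒯, ∃ h ∈ H ⊓ Q, cj h T = ρ T ∧
      ∃ r ∈ (H ⊓ Q ⊓ normalizer (ρ T : Set G)) ⊔ centralizer (ρ T : Set G),
        h * x * (g T)⁻¹ = r * τ T := by
  classical
  haveI hNn : (⨆ S ∈ 𝒯, S).Normal := glue2b 𝒯 hconj
  have key : ∀ T ∈ 𝒯, ∃ h r s : G, h ∈ H ⊓ Q ∧ cj h T = ρ T ∧
      r ∈ (H ⊓ Q ⊓ normalizer (ρ T : Set G)) ⊔ centralizer (ρ T : Set G) ∧ s ∈ ρ T ∧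
      h * (g T)⁻¹ = r * s := by
    intro T hT
    obtain ⟨h, hh, n, hn, hgn⟩ := mem_sup_of_normal_right.1 (hQ (hgQ T hT))
    have hhQ : h ∈ Q := by
      have : h = g T * n⁻¹ := by rw [← hgn]; simp
      rw [this]
      exact mul_mem (hgQ T hT) (inv_mem (hNQ hn))
    have hnT : cj n T = T := mem_normalizer_iff_cj.1 ((glue2a 𝒯 hcomm T hT).1 hn)
    have hcj : cj h T = ρ T := by
      rw [← hg T hT, ← hgn, cj_mul, hnT]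
    have hinv : cj (g T)⁻¹ (ρ T) = T := cj_inv_eq_iff.2 (hg T hT).symm
    have hm : h * (g T)⁻¹ ∈ normalizer (ρ T : Set G) := by
      rw [mem_normalizer_iff_cj, cj_mul, hinv, hcj]
    obtain ⟨r, hr, s, hs, hrs⟩ := glue2c 𝒯 hconj hcomm H Q hNQ hQ (ρ T) (hρ T hT)
      (h * (g T)⁻¹) hm (mul_mem hhQ (inv_mem (hgQ T hT)))
    exact ⟨h, r, s, ⟨hh, hhQ⟩, hcj, hr, hs, hrs⟩
  choose! hf rf sf k1 k2 k3 k4 k5 using key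
  have hu : ∀ T ∈ 𝒯, rf T * τ T * (sf T)⁻¹ * (rf T)⁻¹ ∈ ρ T := by
    intro T hT
    have hr : rf T ∈ normalizer (ρ T : Set G) := glue2d H Q (ρ T) (k3 T hT)
    have h1 : τ T * (sf T)⁻¹ ∈ ρ T := mul_mem (hτ T hT) (inv_mem (k4 T hT))
    have h2 := (mem_normalizer_iff.1 hr (τ T * (sf T)⁻¹)).1 h1
    have h3 : rf T * (τ T * (sf T)⁻¹) * (rf T)⁻¹ = rf T * τ T * (sf T)⁻¹ * (rf T)⁻¹ := by
      simp [mul_assoc]
    rw [← h3]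
    exact h2
  obtain ⟨x, hx, hxt⟩ := glue1 𝒯 hcomm
    (fun T => (hf T)⁻¹ * (rf T * τ T * (sf T)⁻¹ * (rf T)⁻¹) * hf T) (by
      intro T hT
      show (hf T)⁻¹ * (rf T * τ T * (sf T)⁻¹ * (rf T)⁻¹) * hf T ∈ T
      rw [← mem_cj, k2 T hT]
      exact hu T hT)
  refine ⟨x, hx, ?_⟩
  intro T hT
  obtain ⟨z, hz, hxz⟩ := hxt T hT
  have hz' : hf T * z * (hf T)⁻¹ ∈ centralizer (ρ T : Set G) := by
    rw [mem_centralizer_iff]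
    intro b hb
    have hb' : b ∈ cj (hf T) T := by
      rw [k2 T hT]
      exact hb
    rw [mem_cj] at hb'
    have h1 := mem_centralizer_iff.1 hz _ hb'
    have e1 : b * (hf T * z * (hf T)⁻¹) = hf T * (((hf T)⁻¹ * b * hf T) * z) * (hf T)⁻¹ := by
      group
    have e2 : hf T * z * (hf T)⁻¹ * b = hf T * (z * ((hf T)⁻¹ * b * hf T)) * (hf T)⁻¹ := by
      group
    rw [e1, e2, h1]
  refine ⟨hf T, k1 T hT, k2 T hT, (hf T * z * (hf T)⁻¹) * rf T,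
    mul_mem (le_sup_right (a := H ⊓ Q ⊓ normalizer (ρ T : Set G)) hz') (k3 T hT), ?_⟩
  have hcom := mem_centralizer_iff.1 hz' _ (hu T hT)
  have e3 : hf T * x * (g T)⁻¹
      = (rf T * τ T * (sf T)⁻¹ * (rf T)⁻¹) * (hf T * z * (hf T)⁻¹) * (hf T * (g T)⁻¹) := by
    rw [hxz]
    group
  rw [e3, hcom, k5 T hT]
  group

end Pool.Agent.H77.TI
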