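import Pool.Agent.H77.TI.Glue3

/-!
[H77 TI GLUE4] The gluing theorem (60-75 min).

PROOF. Let N = ⨆ S ∈ 𝒯, S, normal (glue2b), N ≤ Q. Q acts on 𝒯 by cj; choose a representative
ρ T ∈ 𝒯 of the Q-orbit of every T in 𝒯 (ρ T = ρ T' whenever T' = cj q T, q ∈ Q) and g T ∈ Q with
cj (g T) T = ρ T. For every member S of 𝒯 let τ^S : Fin 5 → ι → G be from hloc S. Let c be the
colouring. For every i in ι apply glue3 to H i (Q ≤ H i ⊔ N) with τ T := τ^(ρ T) (c T) i: get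
x i ∈ N and for T in 𝒯: h i T ∈ H i ⊓ Q, cj (h i T) T = ρ T,
h i T * x i * (g T)⁻¹ = r i T * τ^(ρ T) (c T) i with r i T in R i (ρ T) := (H i ⊓ Q ⊓ normalizer
(ρ T)) ⊔ centralizer (ρ T).
Let d satisfy y i := x i * d * (x i)⁻¹ ∈ H i for all i. As x i ∈ N, d = (x i)⁻¹ y i x i is in
H i ⊔ N for all i, so d ∈ Q; and y i ∈ Q.
Fix T in 𝒯, T' := cj d⁻¹ T ∈ 𝒯, ρ T' = ρ T =: S, and cj d T' = T, cj (y i) T' = T (x i ∈ N
normalises the members of 𝒯, glue2a). So w i := h i T * y i * (h i T')⁻¹ ∈ H i ⊓ Q normalises S,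
w i ∈ R i S. We have h i T x i d = h i T y i x i = w i h i T' x i. Let
n := g T * d * (g T')⁻¹ (normalises S). Then
r i T τ^S (c T) i n = h i T x i (g T)⁻¹ n = h i T x i d (g T')⁻¹ = w i h i T' x i (g T')⁻¹
= w i r i T' τ^S (c T') i, so τ^S (c T) i * n * (τ^S (c T') i)⁻¹ ∈ R i S for all i. By hloc:
c T' = c T and n ∈ centralizer S.
So c (cj d⁻¹ T) = c T for all T in 𝒯; cj d⁻¹ T = cj (y i₁)⁻¹ T (as cj (y i₁) T' = T). So by hcol
applied to (y i₁)⁻¹ ∈ H i₁: cj d⁻¹ T = T for all T in 𝒯. Then T' = T, n = g T * d * (g T)⁻¹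
centralises S = cj (g T) T, so d centralises T.
-/

namespace Pool.Agent.H77.TI

open Subgroup

theorem glue4 {G : Type*} [Group G] [Finite G] {ι : Type*} (𝒯 : Set (Subgroup G))
    (hconj : ∀ T ∈ 𝒯, ∀ g : G, cj g T ∈ 𝒯)
    (hcomm : ∀ S ∈ 𝒯, ∀ T ∈ 𝒯, S ≠ T → ∀ a ∈ S, ∀ b ∈ T, a * b = b * a)
    (H : ι → Subgroup G) (Q : Subgroup G) (hQ : Q = ⨅ i, (H i ⊔ ⨆ S ∈ 𝒯, S))
    (i₁ : ι)
    (hcol : ∃ c : Subgroup G → Fin 5, ∀ h ∈ H i₁, (∀ T ∈ 𝒯, c (cj h T) = c T) →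
      ∀ T ∈ 𝒯, cj h T = T)
    (hloc : ∀ T ∈ 𝒯, ∃ τ : Fin 5 → ι → G, (∀ c i, τ c i ∈ T) ∧
      ∀ c c' n, n ∈ normalizer (T : Set G) →
        (∀ i, τ c' i * n * (τ c i)⁻¹ ∈
          (H i ⊓ Q ⊓ normalizer (T : Set G)) ⊔ centralizer (T : Set G)) →
        c = c' ∧ n ∈ centralizer (T : Set G)) :
    ∃ x : ι → G, (∀ i, x i ∈ ⨆ S ∈ 𝒯, S) ∧
      ∀ d : G, (∀ i, x i * d * (x i)⁻¹ ∈ H i) → ∀ T ∈ 𝒯, d ∈ centralizer (T : Set G) := by
  classical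
  obtain ⟨N, hN⟩ : ∃ N : Subgroup G, N = ⨆ S ∈ 𝒯, S := ⟨_, rfl⟩
  have g2a := glue2a 𝒯 hcomm
  have g3 := fun i => glue3 𝒯 hconj hcomm (H i) Q
  rw [← hN] at hQ g2a g3 ⊢
  have hNQ : N ≤ Q := by
    rw [hQ]
    exact le_iInf fun i => le_sup_right
  have hQi : ∀ i, Q ≤ H i ⊔ N := by
    intro i
    rw [hQ]
    exact iInf_le _ i
  -- representatives
  let s : Setoid (Subgroup G) :=
    { r := fun T T' => ∃ q ∈ Q, cj q T = T'
      iseqv := ⟨fun T => ⟨1, one_mem _, cj_one T⟩,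
        fun {T T'} h => by
          obtain ⟨q, hq, h⟩ := h
          exact ⟨q⁻¹, inv_mem hq, cj_inv_eq_iff.2 h.symm⟩,
        fun {T T' T''} h h' => by
          obtain ⟨q, hq, h⟩ := h
          obtain ⟨q', hq', h'⟩ := h'
          exact ⟨q' * q, mul_mem hq' hq, by rw [cj_mul, h, h']⟩⟩ }
  obtain ⟨ρ, hρdef⟩ : ∃ ρ : Subgroup G → Subgroup G, ρ = fun T => (Quotient.mk s T).out :=
    ⟨_, rfl⟩
  have hρ1 : ∀ T, ∃ q ∈ Q, cj q T = ρ T := by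
    intro T
    rw [hρdef]
    have h1 : s.r (Quotient.mk s T).out T := Quotient.exact (Quotient.out_eq _)
    exact s.iseqv.symm h1
  have hρ2 : ∀ T T', (∃ q ∈ Q, cj q T = T') → ρ T' = ρ T := by
    intro T T' h
    have h1 : Quotient.mk s T = Quotient.mk s T' := Quotient.sound h
    rw [hρdef]
    change (Quotient.mk s T').out = (Quotient.mk s T).out
    rw [h1]
  choose g hgQ hg using hρ1
  have hρ : ∀ T ∈ 𝒯, ρ T ∈ 𝒯 := by
    intro T hT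
    rw [← hg T]
    exact hconj T hT _
  choose! τ hτ1 hτ2 using hloc
  obtain ⟨c, hc⟩ := hcol
  have hx : ∀ i, ∃ x ∈ N, ∀ T ∈ 𝒯, ∃ h ∈ H i ⊓ Q, cj h T = ρ T ∧
      ∃ r ∈ (H i ⊓ Q ⊓ normalizer (ρ T : Set G)) ⊔ centralizer (ρ T : Set G),
        h * x * (g T)⁻¹ = r * τ (ρ T) (c T) i := fun i =>
    g3 i hNQ (hQi i) ρ g hρ (fun T _ => hgQ T) (fun T _ => hg T)
      (fun T => τ (ρ T) (c T) i) (fun T hT => hτ1 (ρ T) (hρ T hT) (c T) i)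
  choose x hxN hx using hx
  refine ⟨x, hxN, fun d hd => ?_⟩
  have hdQ : d ∈ Q := by
    rw [hQ, mem_iInf]
    intro i
    have h1 : d = (x i)⁻¹ * (x i * d * (x i)⁻¹) * x i := by group
    rw [h1]
    exact mul_mem (mul_mem (inv_mem (mem_sup_right (hxN i))) (mem_sup_left (hd i)))
      (mem_sup_right (hxN i))
  -- the action of `y i`
  have hy : ∀ i, ∀ T ∈ 𝒯, cj (x i * d * (x i)⁻¹) (cj d⁻¹ T) = T := by
    intro i T hT
    have h1 : cj (x i)⁻¹ (cj d⁻¹ T) = cj d⁻¹ T := by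
      rw [← mem_normalizer_iff_cj]
      exact inv_mem ((g2a _ (hconj T hT _)).1 (hxN i))
    have h2 : cj (x i) T = T := by
      rw [← mem_normalizer_iff_cj]
      exact (g2a _ hT).1 (hxN i)
    have h3 : cj d (cj d⁻¹ T) = T := by
      rw [← cj_mul, mul_inv_cancel, cj_one]
    rw [cj_mul, cj_mul, h1, h3, h2]
  have key : ∀ T ∈ 𝒯, c (cj d⁻¹ T) = c T ∧
      g T * d * (g (cj d⁻¹ T))⁻¹ ∈ centralizer (ρ T : Set G) := by
    intro T hT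
    obtain ⟨T', hT'def⟩ : ∃ T', T' = cj d⁻¹ T := ⟨_, rfl⟩
    have hyT := fun i => hy i T hT
    rw [← hT'def] at hyT ⊢
    have hT' : T' ∈ 𝒯 := by
      rw [hT'def]
      exact hconj T hT _
    have hρT : ρ T' = ρ T := hρ2 T T' ⟨d⁻¹, inv_mem hdQ, hT'def.symm⟩
    have hdT : cj d T' = T := by
      rw [hT'def, ← cj_mul, mul_inv_cancel, cj_one]
    have hgT' : cj (g T')⁻¹ (ρ T) = T' := by
      rw [cj_inv_eq_iff, hg T', hρT]
    refine hτ2 (ρ T) (hρ T hT) (c T') (c T) _ ?_ ?_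
    · rw [mem_normalizer_iff_cj, cj_mul, cj_mul, hgT', hdT, hg T]
    · intro i
      obtain ⟨h, hh, hhT, r, hr, e1⟩ := hx i T hT
      obtain ⟨h', hh', hhT', r', hr', e2⟩ := hx i T' hT'
      rw [hρT] at hhT' hr' e2
      have hh'T : cj h'⁻¹ (ρ T) = T' := by rw [cj_inv_eq_iff, hhT']
      have hw : h * (x i * d * (x i)⁻¹) * h'⁻¹ ∈
          (H i ⊓ Q ⊓ normalizer (ρ T : Set G)) ⊔ centralizer (ρ T : Set G) := by
        refine mem_sup_left (mem_inf.2 ⟨mem_inf.2 ⟨?_, ?_⟩, ?_⟩)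
        · exact mul_mem (mul_mem hh.1 (hd i)) (inv_mem hh'.1)
        · exact mul_mem (mul_mem hh.2 (mul_mem (mul_mem (hNQ (hxN i)) hdQ)
            (inv_mem (hNQ (hxN i))))) (inv_mem hh'.2)
        · rw [mem_normalizer_iff_cj, cj_mul, cj_mul, hh'T, hyT i, hhT]
      have e3 : τ (ρ T) (c T) i = r⁻¹ * (h * x i * (g T)⁻¹) := by
        rw [e1]
        group
      have e4 : τ (ρ T) (c T') i = r'⁻¹ * (h' * x i * (g T')⁻¹) := by
        rw [e2]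
        group
      have e5 : τ (ρ T) (c T) i * (g T * d * (g T')⁻¹) * (τ (ρ T) (c T') i)⁻¹ =
          r⁻¹ * (h * (x i * d * (x i)⁻¹) * h'⁻¹) * r' := by
        rw [e3, e4]
        group
      rw [e5]
      exact mul_mem (mul_mem (inv_mem hr) hw) hr'
  have hfix : ∀ T ∈ 𝒯, cj d⁻¹ T = T := by
    have h1 : ∀ T ∈ 𝒯, cj (x i₁ * d * (x i₁)⁻¹)⁻¹ T = cj d⁻¹ T := by
      intro T hT
      rw [cj_inv_eq_iff]
      exact (hy i₁ T hT).symm
    have h2 := hc (x i₁ * d * (x i₁)⁻¹)⁻¹ (inv_mem (hd i₁)) (by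
      intro T hT
      rw [h1 T hT]
      exact (key T hT).1)
    intro T hT
    rw [← h1 T hT]
    exact h2 T hT
  intro T hT
  have h1 := (key T hT).2
  rw [hfix T hT] at h1
  rw [mem_centralizer_iff] at h1 ⊢
  intro t ht
  have h2 : g T * t * (g T)⁻¹ ∈ (ρ T : Set G) := by
    rw [SetLike.mem_coe, ← hg T, mem_cj]
    have h3 : (g T)⁻¹ * (g T * t * (g T)⁻¹) * g T = t := by group
    rw [h3]
    exact ht
  have h4 := h1 _ h2
  calc t * d = (g T)⁻¹ * ((g T * t * (g T)⁻¹) * (g T * d * (g T)⁻¹)) * g T := by group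
    _ = (g T)⁻¹ * ((g T * d * (g T)⁻¹) * (g T * t * (g T)⁻¹)) * g T := by rw [h4]
    _ = d * t := by group

end Pool.Agent.H77.TI
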