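import Pool.Agent.H77.TI.Zen3

/-!
[H77 TI KR1] Two subgroups of derived length at most d+1 have conjugates whose intersection has
derived length at most d (30-40 min).

PROOF. Let K1 = the image in A of derivedSeries K d (map by K.subtype), L1 the same for L. As
derivedSeries K (d+1) = ⊥, the group derivedSeries K d is commutative, so the elements of K1
commute; the same for L1. By zenkov_triv there is g with K1 ⊓ cj g L1 = ⊥. Let D = K ⊓ cj g L.
The image in A of derivedSeries D d is contained in K1 (D ≤ K; map_derivedSeries_le_derivedSeries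
for the inclusion D → K) and in cj g L1 (apply the same to the homomorphism D → L,
x ↦ g⁻¹ x g, and conjugate back). So it is ⊥, and derivedSeries D d = ⊥ since D.subtype is
injective.
-/

namespace Pool.Agent.H77.TI

open Subgroup
open scoped commutatorElement

private theorem kr1_comm {A : Type*} [Group A] (K : Subgroup A) (d : ℕ)
    (hK : derivedSeries K (d + 1) = ⊥) :
    ∀ a ∈ (derivedSeries K d).map K.subtype, ∀ b ∈ (derivedSeries K d).map K.subtype,
      a * b = b * a := by
  rintro _ ⟨a, ha, rfl⟩ _ ⟨b, hb, rfl⟩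
  have h1 : ⁅a, b⁆ ∈ derivedSeries K (d + 1) := by
    rw [derivedSeries_succ]
    exact Subgroup.commutator_mem_commutator ha hb
  rw [hK, Subgroup.mem_bot, commutatorElement_eq_one_iff_mul_comm] at h1
  rw [← map_mul, h1, map_mul]

theorem kr1 {A : Type*} [Group A] [Finite A] (hR : TrivRad A) (K L : Subgroup A) (d : ℕ)
    (hK : derivedSeries K (d + 1) = ⊥) (hL : derivedSeries L (d + 1) = ⊥) :
    ∃ g : A, derivedSeries (K ⊓ cj g L : Subgroup A) d = ⊥ := by
  obtain ⟨g, hg⟩ := zenkov_triv hR ((derivedSeries K d).map K.subtype)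
    ((derivedSeries L d).map L.subtype) (kr1_comm K d hK) (kr1_comm L d hL)
  refine ⟨g, ?_⟩
  rw [eq_bot_iff]
  intro x hx
  let ι1 : (K ⊓ cj g L : Subgroup A) →* K := Subgroup.inclusion inf_le_left
  let ι2 : (K ⊓ cj g L : Subgroup A) →* L :=
    { toFun := fun x => ⟨g⁻¹ * x.1 * g, mem_cj.mp x.2.2⟩
      map_one' := by
        apply Subtype.ext
        show g⁻¹ * 1 * g = 1
        group
      map_mul' := fun x y => by
        apply Subtype.ext
        show g⁻¹ * (x.1 * y.1) * g = (g⁻¹ * x.1 * g) * (g⁻¹ * y.1 * g)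
        group }
  have h1 : ι1 x ∈ derivedSeries K d := map_derivedSeries_le_derivedSeries ι1 d ⟨x, hx, rfl⟩
  have h2 : ι2 x ∈ derivedSeries L d := map_derivedSeries_le_derivedSeries ι2 d ⟨x, hx, rfl⟩
  have h3 : x.1 ∈ (derivedSeries K d).map K.subtype ⊓
      cj g ((derivedSeries L d).map L.subtype) := by
    refine ⟨⟨ι1 x, h1, rfl⟩, ?_⟩
    show x.1 ∈ cj g ((derivedSeries L d).map L.subtype)
    rw [mem_cj]
    exact ⟨ι2 x, h2, rfl⟩
  rw [hg, Subgroup.mem_bot] at h3
  rw [Subgroup.mem_bot]
  exact Subtype.ext h3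

end Pool.Agent.H77.TI
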