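import Pool.Agent.H77.TI.Kr1

/-!
[H77 TI KR2] Kraft's inequality for derived lengths (45-60 min).

PROOF. Strong induction on the number of elements of s, for all K, d. Let D = the maximum of
d i, i in s (s is nonempty because the sum is ≥ 1).
If D = 0: take i in s; derivedSeries (K i) 0 = ⊤ = ⊥ says K i = ⊥; any x works.
If D ≥ 1 and exactly one i in s has d i = D: the sum over s.erase i is ≥ 1 - 2^(-D), and it is a
multiple of 2^(-(D-1)) (all the other d j ≤ D - 1), as 1 is; so it is ≥ 1. (Multiply by 2^(D-1):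
an integer m with m ≥ 2^(D-1) - 1/2 is ≥ 2^(D-1).) Induction for s.erase i.
If D ≥ 1 and two elements i ≠ j of s have d i = d j = D: by kr1 with d = D - 1 there is g with
derivedSeries (K i ⊓ cj g (K j)) (D-1) = ⊥. Let s' = s.erase j, K' = Function.update K i
(K i ⊓ cj g (K j)), d' = Function.update d i (D-1). The sum for s', d' is the same
(2^(-D) + 2^(-D) = 2^(-(D-1))). Induction gives x'. Let x = Function.update x' j (g⁻¹ * x' i).
If x m * z * (x m)⁻¹ ∈ K m for all m in s, then u := x' i * z * (x' i)⁻¹ ∈ K i and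
g⁻¹ u g ∈ K j, so u ∈ K i ⊓ cj g (K j) = K' i; so z = 1.
-/

namespace Pool.Agent.H77.TI

open Subgroup

private theorem kr2_sum {ι : Type*} [DecidableEq ι] (s : Finset ι) (d : ι → ℕ) (i : ι)
    (hi : i ∈ s) (D : ℕ) (hD : d i = D + 1) (hlt : ∀ j ∈ s.erase i, d j ≤ D)
    (hs : (1 : ℚ) ≤ ∑ i ∈ s, (1 / 2 : ℚ) ^ (d i)) :
    (1 : ℚ) ≤ ∑ i ∈ s.erase i, (1 / 2 : ℚ) ^ (d i) := by
  have h1 : ∑ j ∈ s.erase i, (1 / 2 : ℚ) ^ (d j) =
      ((∑ j ∈ s.erase i, 2 ^ (D - d j) : ℕ) : ℚ) * (1 / 2 : ℚ) ^ D := by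
    rw [Nat.cast_sum, Finset.sum_mul]
    apply Finset.sum_congr rfl
    intro j hj
    obtain ⟨e, he⟩ := Nat.exists_eq_add_of_le (hlt j hj)
    rw [he, Nat.add_sub_cancel_left, pow_add]
    push_cast
    have h2 : (2 : ℚ) ^ e * (1 / 2 : ℚ) ^ e = 1 := by
      rw [← mul_pow]; norm_num
    calc (1 / 2 : ℚ) ^ d j = (1 / 2 : ℚ) ^ d j * ((2 : ℚ) ^ e * (1 / 2 : ℚ) ^ e) := by
          rw [h2, mul_one]
      _ = _ := by ring
  rw [← Finset.add_sum_erase s _ hi, h1, hD] at hs
  rw [h1]
  set m : ℕ := ∑ j ∈ s.erase i, 2 ^ (D - d j) with hm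
  have h3 : (2 : ℚ) ^ D * (1 / 2 : ℚ) ^ D = 1 := by
    rw [← mul_pow]; norm_num
  have h4 : (2 : ℚ) ^ (D + 1) ≤ 2 * m + 1 := by
    have h5 := mul_le_mul_of_nonneg_left hs (pow_nonneg (by norm_num : (0 : ℚ) ≤ 2) (D + 1))
    have h6 : (2 : ℚ) ^ (D + 1) * ((1 / 2 : ℚ) ^ (D + 1) + m * (1 / 2 : ℚ) ^ D) =
        2 * m * ((2 : ℚ) ^ D * (1 / 2 : ℚ) ^ D) + ((2 : ℚ) ^ D * (1 / 2 : ℚ) ^ D) := by
      ring
    rw [h6, h3] at h5
    linarith
  have h7 : 2 ^ (D + 1) ≤ 2 * m + 1 := by exact_mod_cast h4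
  have h8 : 2 ^ D ≤ m := by
    rw [pow_succ] at h7
    omega
  have h9 : (2 : ℚ) ^ D ≤ m := by exact_mod_cast h8
  calc (1 : ℚ) = (2 : ℚ) ^ D * (1 / 2 : ℚ) ^ D := h3.symm
    _ ≤ m * (1 / 2 : ℚ) ^ D := mul_le_mul_of_nonneg_right h9 (by positivity)

private theorem kr2_aux {A : Type*} [Group A] [Finite A] (hR : TrivRad A) {ι : Type*}
    [DecidableEq ι] (n : ℕ) : ∀ (s : Finset ι) (_ : s.card ≤ n) (K : ι → Subgroup A) (d : ι → ℕ)
    (_ : ∀ i ∈ s, derivedSeries (K i) (d i) = ⊥)
    (_ : (1 : ℚ) ≤ ∑ i ∈ s, (1 / 2 : ℚ) ^ (d i)),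
    ∃ x : ι → A, ∀ z : A, (∀ i ∈ s, x i * z * (x i)⁻¹ ∈ K i) → z = 1 := by
  induction n with
  | zero =>
    intro s hs K d _ hsum
    have h1 : s = ∅ := Finset.card_eq_zero.mp (Nat.le_zero.mp hs)
    rw [h1, Finset.sum_empty] at hsum
    norm_num at hsum
  | succ n ih =>
    intro s hs K d hd hsum
    have hne : s.Nonempty := by
      rw [Finset.nonempty_iff_ne_empty]
      intro h1
      rw [h1, Finset.sum_empty] at hsum
      norm_num at hsum
    obtain ⟨i, hi, hmax⟩ := Finset.exists_max_image s d hne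
    rcases Nat.eq_zero_or_pos (d i) with h0 | hpos
    · refine ⟨fun _ => 1, fun z hz => ?_⟩
      have h1 := hd i hi
      rw [h0, derivedSeries_zero] at h1
      have h2 := hz i hi
      rw [one_mul, inv_one, mul_one] at h2
      have h3 : (⟨z, h2⟩ : K i) ∈ (⊤ : Subgroup (K i)) := Subgroup.mem_top _
      rw [h1, Subgroup.mem_bot] at h3
      exact congrArg Subtype.val h3
    · obtain ⟨D, hD⟩ : ∃ D, d i = D + 1 := ⟨d i - 1, by omega⟩
      by_cases hex : ∃ j ∈ s, j ≠ i ∧ d j = d i
      · obtain ⟨j, hj, hji, hdj⟩ := hex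
        have hKi := hd i hi
        have hKj := hd j hj
        rw [hD] at hKi hdj
        rw [hdj] at hKj
        obtain ⟨g, hg⟩ := kr1 hR (K i) (K j) D hKi hKj
        have hcard : (s.erase j).card ≤ n := by
          rw [Finset.card_erase_of_mem hj]
          omega
        have hij : i ∈ s.erase j := Finset.mem_erase.mpr ⟨hji.symm, hi⟩
        obtain ⟨x', hx'⟩ := ih (s.erase j) hcard (Function.update K i (K i ⊓ cj g (K j)))
          (Function.update d i D) (by
            intro l hl
            by_cases hli : l = i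
            · rw [hli, Function.update_self, Function.update_self]
              exact hg
            · rw [Function.update_of_ne hli, Function.update_of_ne hli]
              exact hd l (Finset.mem_of_mem_erase hl))
          (by
            refine hsum.trans (le_of_eq ?_)
            rw [← Finset.add_sum_erase s _ hj, ← Finset.add_sum_erase (s.erase j) _ hij,
              ← Finset.add_sum_erase (s.erase j) _ hij, Function.update_self]
            have h1 : ∑ l ∈ (s.erase j).erase i, (1 / 2 : ℚ) ^ (Function.update d i D l) =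
                ∑ l ∈ (s.erase j).erase i, (1 / 2 : ℚ) ^ (d l) := by
              apply Finset.sum_congr rfl
              intro l hl
              rw [Function.update_of_ne (Finset.ne_of_mem_erase hl)]
            rw [h1, hdj, hD]
            ring)
        refine ⟨Function.update x' j (g⁻¹ * x' i), fun z hz => hx' z ?_⟩
        intro l hl
        have hlj : l ≠ j := Finset.ne_of_mem_erase hl
        by_cases hli : l = i
        · rw [hli, Function.update_self]
          have h1 := hz i hi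
          rw [Function.update_of_ne hji.symm] at h1
          have h2 := hz j hj
          rw [Function.update_self] at h2
          refine ⟨h1, ?_⟩
          show x' i * z * (x' i)⁻¹ ∈ cj g (K j)
          rw [mem_cj]
          have h3 : g⁻¹ * (x' i * z * (x' i)⁻¹) * g = g⁻¹ * x' i * z * (g⁻¹ * x' i)⁻¹ := by
            group
          rw [h3]
          exact h2
        · rw [Function.update_of_ne hli]
          have h1 := hz l (Finset.mem_of_mem_erase hl)
          rwa [Function.update_of_ne hlj] at h1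
      · push Not at hex
        have hcard : (s.erase i).card ≤ n := by
          rw [Finset.card_erase_of_mem hi]
          omega
        have hlt : ∀ j ∈ s.erase i, d j ≤ D := by
          intro j hj
          have h1 := hmax j (Finset.mem_of_mem_erase hj)
          have h2 := hex j (Finset.mem_of_mem_erase hj) (Finset.ne_of_mem_erase hj)
          omega
        obtain ⟨x, hx⟩ := ih (s.erase i) hcard K d
          (fun l hl => hd l (Finset.mem_of_mem_erase hl)) (kr2_sum s d i hi D hD hlt hsum)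
        exact ⟨x, fun z hz => hx z fun l hl => hz l (Finset.mem_of_mem_erase hl)⟩

theorem kr2 {A : Type*} [Group A] [Finite A] (hR : TrivRad A) {ι : Type*} [DecidableEq ι]
    (s : Finset ι) (K : ι → Subgroup A) (d : ι → ℕ)
    (hd : ∀ i ∈ s, derivedSeries (K i) (d i) = ⊥)
    (hs : (1 : ℚ) ≤ ∑ i ∈ s, (1 / 2 : ℚ) ^ (d i)) :
    ∃ x : ι → A, ∀ z : A, (∀ i ∈ s, x i * z * (x i)⁻¹ ∈ K i) → z = 1 :=
  kr2_aux hR s.card s le_rfl K d hd hs

end Pool.Agent.H77.TI
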