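import Pool.Agent.H77.TI.Base

/-!
[H77 TI LOC2] Soluble subgroups have index at least 5 (40-60 min).

PROOF. (a) Equiv.Perm (Fin 4) is soluble: the sign of a commutator is 1; the commutator of two even
permutations of Fin 4 lies in V = {1, (01)(23), (02)(13), (03)(12)} (decide over Perm (Fin 4), or
over the 12 x 12 even ones), and V is commutative. So derivedSeries 1 ≤ even permutations,
derivedSeries 2 ≤ V, derivedSeries 3 = ⊥. (b) So Equiv.Perm X is soluble for every finite X with at
most 4 elements (it embeds into Perm (Fin 4): an injection X → Fin 4 gives an injective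
homomorphism Perm X → Perm (Fin 4), Equiv.Perm.viaEmbeddingHom; or use Perm (Fin m), m ≤ 4).
(c) Let K be a soluble subgroup of A of index ≤ 4. The kernel of MulAction.toPermHom A (A ⧸ K) is
K.normalCore ≤ K, soluble; the range is soluble by (b). So A is soluble
(Group.isSolvable_of_ker_le_range / solvable_of_ker_le_range or the quotient criterion), and
TrivRad applied to ⊤ gives ⊤ = ⊥, contradiction to Nontrivial A.
-/

namespace Pool.Agent.H77.TI

open Subgroup

/-- The symmetric group of degree four is soluble. -/
theorem loc2_perm4 : Group.IsSolvable (Equiv.Perm (Fin 4)) := by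
  have hc : Nat.card (Fin 4) = 4 := by simp
  have hk : IsKleinFour (alternatingGroup.kleinFour (Fin 4)) :=
    alternatingGroup.kleinFour_isKleinFour hc
  have h1 : Group.IsSolvable (alternatingGroup.kleinFour (Fin 4)) := by
    apply Group.isSolvable_of_comm
    intro a b
    exact mul_comm_of_exponent_two hk.exponent_two a b
  have h2 : Group.IsSolvable (alternatingGroup (Fin 4)) := by
    apply Group.isSolvable_of_ker_le_range (alternatingGroup.kleinFour (Fin 4)).subtype
      (Abelianization.of : alternatingGroup (Fin 4) →* Abelianization (alternatingGroup (Fin 4)))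
    rw [Abelianization.ker_of, Subgroup.range_subtype,
      alternatingGroup.kleinFour_eq_commutator hc]
  apply Group.isSolvable_of_ker_le_range (alternatingGroup (Fin 4)).subtype
    (Equiv.Perm.sign (α := Fin 4))
  rw [Subgroup.range_subtype]
  exact le_rfl

theorem loc2_perm {X : Type*} [Finite X] (hX : Nat.card X ≤ 4) :
    Group.IsSolvable (Equiv.Perm X) := by
  have h4 := loc2_perm4
  have e : X ≃ Fin (Nat.card X) := Finite.equivFin X
  let ι : X ↪ Fin 4 := e.toEmbedding.trans (Fin.castLEEmb hX)
  exact Group.isSolvable_of_isSolvable_injective (Equiv.Perm.viaEmbeddingHom_injective ι)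

theorem loc2 {A : Type*} [Group A] [Finite A] [Nontrivial A] (hR : TrivRad A) (K : Subgroup A)
    (hK : Group.IsSolvable K) : 5 ≤ K.index := by
  by_contra hlt
  have hX : Nat.card (A ⧸ K) ≤ 4 := by
    have h1 : K.index = Nat.card (A ⧸ K) := rfl
    omega
  have h1 : Group.IsSolvable (Equiv.Perm (A ⧸ K)) := loc2_perm hX
  have h2 : Group.IsSolvable A := by
    apply Group.isSolvable_of_ker_le_range K.subtype (MulAction.toPermHom A (A ⧸ K))
    rw [← Subgroup.normalCore_eq_ker, Subgroup.range_subtype]
    exact Subgroup.normalCore_le K
  have h3 : (⊤ : Subgroup A) = ⊥ := hR ⊤ inferInstance inferInstance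
  exact top_ne_bot h3

end Pool.Agent.H77.TI
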