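import Pool.Agent.H77.TI.Loc1
import Pool.Agent.H77.TI.Loc2
import Pool.Agent.H77.TI.Loc3
import Pool.Agent.H77.TI.Loc4
import Pool.Agent.H77.TI.Kr2

/-!
[H77 TI LOC5] The local theorem with derived lengths (40-60 min).

PROOF. Let A₀ = K i₀ ⊔ inn T (= K i ⊔ inn T for all i), inn T ≤ A₀, K i ≤ A₀. By loc1 TrivRad A₀,
by loc1b S := (inn T).subgroupOf A₀ is normal and A₀ is nontrivial; A₀ is finite (T finite). Let
K' i = (K i).subgroupOf A₀, isomorphic to K i (Subgroup.subgroupOfEquivOfLe), so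
derivedSeries (K' i) (d i) = ⊥ for i ≠ i₀ (transport along the isomorphism) and K' i₀ is soluble.
K' i ⊔ S = ⊤ (subgroupOf of a supremum inside A₀: Subgroup.subgroupOf_sup / sup_subgroupOf).
kr2 in ↥A₀ with s = Finset.univ.erase i₀ gives x; loc2: index ≥ 5; loc3: Five S K'; loc4.
-/

namespace Pool.Agent.H77.TI

open Subgroup

private theorem loc5_der {G G' : Type*} [Group G] [Group G'] (f : G →* G')
    (hf : Function.Injective f) (n : ℕ) (h : derivedSeries G' n = ⊥) : derivedSeries G n = ⊥ := by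
  have h1 := map_derivedSeries_le_derivedSeries f n
  rw [h, le_bot_iff] at h1
  exact (Subgroup.map_eq_bot_iff_of_injective _ hf).1 h1

theorem loc5 {T : Type*} [Group T] [Finite T] (hs : IsSimpleGroup T)
    (hc : ¬ ∀ a b : T, a * b = b * a) {ι : Type*} [Fintype ι] [DecidableEq ι]
    (K : ι → Subgroup (MulAut T)) (hKK : ∀ i j, K i ⊔ inn T = K j ⊔ inn T) (i₀ : ι)
    (hsol : Group.IsSolvable (K i₀)) (d : ι → ℕ)
    (hd : ∀ i, i ≠ i₀ → derivedSeries (K i) (d i) = ⊥)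
    (hsum : (1 : ℚ) ≤ ∑ i ∈ Finset.univ.erase i₀, (1 / 2 : ℚ) ^ (d i)) : Five (inn T) K := by
  have hfin : Finite (MulAut T) := inferInstance
  obtain ⟨A₀, hA₀⟩ : ∃ A₀ : Subgroup (MulAut T), A₀ = K i₀ ⊔ inn T := ⟨_, rfl⟩
  have hinn : inn T ≤ A₀ := by
    rw [hA₀]
    exact le_sup_right
  have hK : ∀ i, K i ≤ A₀ := by
    intro i
    rw [hA₀, hKK i₀ i]
    exact le_sup_left
  have hR : TrivRad A₀ := loc1 hs hc A₀ hinn
  obtain ⟨hSn, -, -, -, hnt⟩ := loc1b hs hc A₀ hinn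
  have hKS : ∀ i, (K i).subgroupOf A₀ ⊔ (inn T).subgroupOf A₀ = ⊤ := by
    intro i
    rw [← Subgroup.subgroupOf_sup (hK i) hinn, hKK i i₀, ← hA₀, Subgroup.subgroupOf_self]
  have hd' : ∀ i, i ≠ i₀ → derivedSeries ((K i).subgroupOf A₀) (d i) = ⊥ := by
    intro i hi
    exact loc5_der (subgroupOfEquivOfLe (hK i)).toMonoidHom (subgroupOfEquivOfLe (hK i)).injective
      _ (hd i hi)
  have hsol' : Group.IsSolvable ((K i₀).subgroupOf A₀) :=
    Group.isSolvable_of_isSolvable_injective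
      (f := (subgroupOfEquivOfLe (hK i₀)).toMonoidHom) (subgroupOfEquivOfLe (hK i₀)).injective
  obtain ⟨x, hx⟩ := kr2 hR (Finset.univ.erase i₀) (fun i => (K i).subgroupOf A₀) d
    (fun i hi => hd' i (Finset.ne_of_mem_erase hi)) hsum
  have hidx : 5 ≤ ((K i₀).subgroupOf A₀).index := loc2 hR _ hsol'
  have h5 : Five ((inn T).subgroupOf A₀) (fun i => (K i).subgroupOf A₀) :=
    loc3 _ hSn _ hKS i₀ hidx x (fun z hz => hx z (fun i hi => hz i (Finset.ne_of_mem_erase hi)))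
  have : Nonempty ι := ⟨i₀⟩
  exact loc4 A₀ (inn T) K hK h5

end Pool.Agent.H77.TI
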