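import Pool.Agent.H77.TI.Base

/-!
[H77 TI RED1] From automorphisms of T back to the normaliser (30-45 min).

PROOF. Let φ = T.normalizerMonoidHom : normalizer T →* MulAut T, kernel = (centralizer T) in
normalizer T (normalizerMonoidHom_ker), and φ t = MulAut.conj t for t in T. Let τ' be from h;
τ' c i = MulAut.conj (t c i) with t c i : T (inn = range). Let τ c i = t c i : G. If n ∈
normalizer T and w := τ c' i * n * (τ c i)⁻¹ ∈ (H i ⊓ Q ⊓ normalizer T) ⊔ centralizer T =: W, then
φ w ∈ autSub (H i ⊓ Q) T (W ≤ normalizer T, and the image of W under φ is the image of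
H i ⊓ Q ⊓ normalizer T, since φ kills centralizer T; W = product by
Subgroup.mul_normal-like lemmas or closure induction: Subgroup.sup_le / map_sup). And
φ w = τ' c' i * φ n * (τ' c i)⁻¹. So c = c' and φ n = 1, i.e. n ∈ centralizer T.
-/

namespace Pool.Agent.H77.TI

open Subgroup

theorem red1_norm {G : Type*} [Group G] (T H : Subgroup G) :
    (H ⊓ normalizer (T : Set G)) ⊔ centralizer (T : Set G) ≤
      ((autSub H T).comap T.normalizerMonoidHom).map (normalizer (T : Set G)).subtype := by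
  refine sup_le ?_ ?_
  · intro x hx
    refine ⟨⟨x, hx.2⟩, ?_, rfl⟩
    exact ⟨⟨x, hx.2⟩, hx.1, rfl⟩
  · intro x hx
    have hxn : x ∈ normalizer (T : Set G) := centralizer_le_normalizer (T : Set G) hx
    refine ⟨⟨x, hxn⟩, ?_, rfl⟩
    have hk : (⟨x, hxn⟩ : normalizer (T : Set G)) ∈ T.normalizerMonoidHom.ker := by
      rw [normalizerMonoidHom_ker]
      exact hx
    show T.normalizerMonoidHom ⟨x, hxn⟩ ∈ autSub H T
    rw [MonoidHom.mem_ker.1 hk]
    exact one_mem _

theorem red1_conj {G : Type*} [Group G] (T : Subgroup G) (t : T)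
    (ht : (t : G) ∈ normalizer (T : Set G)) :
    T.normalizerMonoidHom ⟨t, ht⟩ = MulAut.conj t := by
  ext y
  rfl

theorem red1 {G : Type*} [Group G] {ι : Type*} (T : Subgroup G) (H : ι → Subgroup G)
    (Q : Subgroup G) (h : Five (inn T) (fun i => autSub (H i ⊓ Q) T)) :
    ∃ τ : Fin 5 → ι → G, (∀ c i, τ c i ∈ T) ∧
      ∀ c c' n, n ∈ normalizer (T : Set G) →
        (∀ i, τ c' i * n * (τ c i)⁻¹ ∈
          (H i ⊓ Q ⊓ normalizer (T : Set G)) ⊔ centralizer (T : Set G)) →
        c = c' ∧ n ∈ centralizer (T : Set G) := by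
  obtain ⟨τ', h1, h2⟩ := h
  have h1' : ∀ c i, ∃ t : T, MulAut.conj t = τ' c i := fun c i => h1 c i
  choose t ht using h1'
  have hT : T ≤ normalizer (T : Set G) := le_normalizer
  refine ⟨fun c i => (t c i : G), fun c i => (t c i).2, ?_⟩
  intro c c' n hn hw
  have h3 : c = c' ∧ T.normalizerMonoidHom ⟨n, hn⟩ = 1 := by
    refine h2 c c' _ ?_
    intro i
    have hwi : (t c' i : G) * n * (t c i : G)⁻¹ ∈
        ((autSub (H i ⊓ Q) T).comap T.normalizerMonoidHom).map
          (normalizer (T : Set G)).subtype := red1_norm T (H i ⊓ Q) (hw i)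
    obtain ⟨v, hv, hvw⟩ := hwi
    have hv' : v = ⟨(t c' i : G), hT (t c' i).2⟩ * ⟨n, hn⟩ * ⟨(t c i : G), hT (t c i).2⟩⁻¹ := by
      apply Subtype.ext
      exact hvw
    have hv2 : T.normalizerMonoidHom v ∈ autSub (H i ⊓ Q) T := hv
    rw [hv', map_mul, map_mul, map_inv, red1_conj, red1_conj, ht, ht] at hv2
    exact hv2
  refine ⟨h3.1, ?_⟩
  have hk : (⟨n, hn⟩ : normalizer (T : Set G)) ∈ T.normalizerMonoidHom.ker :=
    MonoidHom.mem_ker.2 h3.2
  rw [normalizerMonoidHom_ker] at hk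
  exact hk

end Pool.Agent.H77.TI
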