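import Pool.Agent.H77.TI.Glue2

/-!
[H77 TI RED2] The induced groups of automorphisms (30-45 min).

PROOF. Let N = ⨆ S ∈ 𝒯, S (normal, glue2b), φ = T.normalizerMonoidHom.
(a) Let g ∈ (H i ⊔ C) ⊓ Q normalise T. As C is normal, g = h * c, h ∈ H i, c ∈ C ≤ centralizer T
≤ normalizer T, so h ∈ normalizer T and φ g = φ h (φ c = 1), in autSub (H i) T.
(b) ≤: autSub is monotone, and inn T = the image of T ≤ N ≤ Q. ≥: let q ∈ Q normalise T. By glue2c
(H := H i ⊔ C, Q ≤ (H i ⊔ C) ⊔ N): q = r * s, r ∈ ((H i ⊔ C) ⊓ Q ⊓ normalizer T) ⊔ centralizer T,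
s ∈ T. φ q = φ r * φ s, φ s = conj s ∈ inn T, and φ r ∈ autSub ((H i ⊔ C) ⊓ Q) T as φ kills
centralizer T.
-/

namespace Pool.Agent.H77.TI

open Subgroup

private theorem red2_mem {G : Type*} [Group G] {H T : Subgroup G} {α : MulAut T} :
    α ∈ autSub H T ↔ ∃ (g : G) (hg : g ∈ normalizer (T : Set G)), g ∈ H ∧
      T.normalizerMonoidHom ⟨g, hg⟩ = α := by
  constructor
  · rintro ⟨⟨g, hg⟩, hgH, rfl⟩
    exact ⟨g, hg, hgH, rfl⟩
  · rintro ⟨g, hg, hgH, rfl⟩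
    exact ⟨⟨g, hg⟩, hgH, rfl⟩

private theorem red2_cen_le {G : Type*} [Group G] (T : Subgroup G) :
    centralizer (T : Set G) ≤ normalizer (T : Set G) := by
  intro z hz
  rw [mem_normalizer_iff]
  intro x
  rw [mem_centralizer_iff] at hz
  constructor
  · intro hx
    have h1 := hz x hx
    rw [← h1, mul_inv_cancel_right]
    exact hx
  · intro hx
    have h1 := hz _ hx
    have h2 : z * x * z⁻¹ = x := by
      have h3 : z * x = z * (z * x * z⁻¹) := by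
        rw [← h1]
        group
      exact (mul_left_cancel h3).symm
    rwa [h2] at hx

private theorem red2_cen {G : Type*} [Group G] (T : Subgroup G) (z : G)
    (hz : z ∈ centralizer (T : Set G)) (hz' : z ∈ normalizer (T : Set G)) :
    T.normalizerMonoidHom ⟨z, hz'⟩ = 1 := by
  have h1 : (⟨z, hz'⟩ : normalizer (T : Set G)) ∈ T.normalizerMonoidHom.ker := by
    rw [normalizerMonoidHom_ker]
    exact hz
  exact h1

private theorem red2_conj {G : Type*} [Group G] (T : Subgroup G) (s : G)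
    (hs : s ∈ T) (hs' : s ∈ normalizer (T : Set G)) :
    T.normalizerMonoidHom ⟨s, hs'⟩ = MulAut.conj (⟨s, hs⟩ : T) := by
  ext x
  rfl

private theorem red2_mul {G : Type*} [Group G] (T : Subgroup G) (a b : G)
    (ha : a ∈ normalizer (T : Set G)) (hb : b ∈ normalizer (T : Set G))
    (hab : a * b ∈ normalizer (T : Set G)) :
    T.normalizerMonoidHom ⟨a * b, hab⟩ =
      T.normalizerMonoidHom ⟨a, ha⟩ * T.normalizerMonoidHom ⟨b, hb⟩ := by
  rw [← map_mul]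
  rfl

open Pointwise in
private theorem red2_split {G : Type*} [Group G] {H C : Subgroup G} (hC : C.Normal) {g : G}
    (hg : g ∈ H ⊔ C) : ∃ h ∈ H, ∃ c ∈ C, h * c = g := by
  have h1 : g ∈ ((H : Set G) * (C : Set G)) := by
    rw [← mul_normal]
    exact hg
  exact Set.mem_mul.1 h1

theorem red2 {G : Type*} [Group G] {ι : Type*} (𝒯 : Set (Subgroup G))
    (hconj : ∀ T ∈ 𝒯, ∀ g : G, cj g T ∈ 𝒯)
    (hcomm : ∀ S ∈ 𝒯, ∀ T ∈ 𝒯, S ≠ T → ∀ a ∈ S, ∀ b ∈ T, a * b = b * a)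
    (H : ι → Subgroup G) (T : Subgroup G) (hT : T ∈ 𝒯) (C : Subgroup G) (hC : C.Normal)
    (hCT : C ≤ centralizer (T : Set G)) (Q : Subgroup G)
    (hQ : Q = ⨅ i, ((H i ⊔ C) ⊔ ⨆ S ∈ 𝒯, S)) :
    (∀ i, autSub ((H i ⊔ C) ⊓ Q) T ≤ autSub (H i) T) ∧
      ∀ i, autSub ((H i ⊔ C) ⊓ Q) T ⊔ inn T = autSub Q T := by
  have hcn := red2_cen_le T
  have hTn : T ≤ normalizer (T : Set G) := le_normalizer
  have hNQ : (⨆ S ∈ 𝒯, S) ≤ Q := by
    rw [hQ]
    exact le_iInf fun i => le_sup_right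
  have hTQ : T ≤ Q := (le_iSup₂_of_le T hT le_rfl).trans hNQ
  constructor
  · intro i α hα
    obtain ⟨g, hg, ⟨hgH, hgQ⟩, rfl⟩ := red2_mem.1 hα
    obtain ⟨h, hh, c, hc, rfl⟩ := red2_split hC hgH
    have hcn' : c ∈ normalizer (T : Set G) := hcn (hCT hc)
    have hhn : h ∈ normalizer (T : Set G) := by
      have := (normalizer (T : Set G)).mul_mem hg ((normalizer (T : Set G)).inv_mem hcn')
      rwa [mul_inv_cancel_right] at this
    refine red2_mem.2 ⟨h, hhn, hh, ?_⟩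
    rw [red2_mul T h c hhn hcn' hg, red2_cen T c (hCT hc) hcn', mul_one]
  · intro i
    apply le_antisymm
    · refine sup_le ?_ ?_
      · intro α hα
        obtain ⟨g, hg, ⟨_, hgQ⟩, rfl⟩ := red2_mem.1 hα
        exact red2_mem.2 ⟨g, hg, hgQ, rfl⟩
      · rintro _ ⟨t, rfl⟩
        exact red2_mem.2 ⟨t, hTn t.2, hTQ t.2, red2_conj T t t.2 _⟩
    · intro α hα
      obtain ⟨q, hq, hqQ, rfl⟩ := red2_mem.1 hα
      obtain ⟨r, hr, s, hs, hqrs⟩ := glue2c 𝒯 hconj hcomm (H i ⊔ C) Q hNQ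
        (by rw [hQ]; exact iInf_le _ i) T hT q hq hqQ
      have hrn : r ∈ normalizer (T : Set G) := glue2d _ _ _ hr
      have hrn' : T.normalizerMonoidHom ⟨r, hrn⟩ ∈ autSub ((H i ⊔ C) ⊓ Q) T := by
        have hle : ((H i ⊔ C) ⊓ Q ⊓ normalizer (T : Set G)) ⊔ centralizer (T : Set G) ≤
            ((autSub ((H i ⊔ C) ⊓ Q) T).comap T.normalizerMonoidHom).map
              (normalizer (T : Set G)).subtype := by
          refine sup_le ?_ ?_
          · rintro x ⟨hx, hxn⟩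
            exact ⟨⟨x, hxn⟩, red2_mem.2 ⟨x, hxn, hx, rfl⟩, rfl⟩
          · intro z hz
            refine ⟨⟨z, hcn hz⟩, ?_, rfl⟩
            change T.normalizerMonoidHom ⟨z, hcn hz⟩ ∈ autSub ((H i ⊔ C) ⊓ Q) T
            rw [red2_cen T z hz]
            exact Subgroup.one_mem _
        obtain ⟨⟨y, hy⟩, hy', hyr⟩ := hle hr
        have hyr' : y = r := hyr
        subst hyr'
        exact hy'
      subst hqrs
      rw [red2_mul T r s hrn (hTn hs) hq, red2_conj T s hs]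
      exact Subgroup.mul_mem _ ((le_sup_left : autSub ((H i ⊔ C) ⊓ Q) T ≤ _) hrn')
        ((le_sup_right : inn T ≤ autSub ((H i ⊔ C) ⊓ Q) T ⊔ inn T) ⟨_, rfl⟩)

end Pool.Agent.H77.TI
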