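import Pool.Agent.H77.TI.Top8

/-!
[H77 TI RED3] The colouring of the components (30-40 min).

PROOF. If 𝒯 is empty any c works. Otherwise the group ↥H acts on ↥𝒯 by h • T = cj h T (hconj,
cj_one, cj_mul: define the MulAction instance locally). top8 (P = ↥H finite, soluble) gives
Col H 𝒯; let c0 : 𝒯 → Fin 5 be its colouring number 0, and c T = c0 T for T ∈ 𝒯, c T = 0 else.
Let g ∈ H ⊔ C, g = h * z with h ∈ H, z ∈ C (C normal). cj g T = cj h (cj z T) = cj h T for T in 𝒯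
(z centralises T). If c (cj g T) = c T for all T in 𝒯 then c0 (h • T) = c0 T, so (i = j = 0)
h • T = T for all T.
-/

namespace Pool.Agent.H77.TI

open Subgroup

/-- The action of a subgroup on a conjugation invariant set of subgroups. -/
@[reducible] def red3_act {G : Type*} [Group G] (𝒯 : Set (Subgroup G))
    (hconj : ∀ T ∈ 𝒯, ∀ g : G, cj g T ∈ 𝒯) (H : Subgroup G) : MulAction H 𝒯 where
  smul h T := ⟨cj (h : G) T.1, hconj T.1 T.2 h⟩
  one_smul T := by
    apply Subtype.ext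
    change cj ((1 : H) : G) T.1 = T.1
    rw [Subgroup.coe_one, cj_one]
  mul_smul a b T := by
    apply Subtype.ext
    change cj ((a * b : H) : G) T.1 = cj (a : G) (cj (b : G) T.1)
    rw [Subgroup.coe_mul, cj_mul]

theorem red3_cj {G : Type*} [Group G] {T : Subgroup G} {z : G}
    (hz : z ∈ centralizer (T : Set G)) : cj z T = T := by
  ext x
  rw [mem_cj]
  rw [mem_centralizer_iff] at hz
  constructor
  · intro h
    have h1 := hz _ h
    have h2 : x = z * (z⁻¹ * x * z) * z⁻¹ := by group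
    rw [h2, ← h1]
    have h3 : z⁻¹ * x * z * z * z⁻¹ = z⁻¹ * x * z := by group
    rw [h3]
    exact h
  · intro h
    have h1 := hz x h
    have h2 : z⁻¹ * x * z = x := by
      rw [mul_assoc, h1]
      group
    rw [h2]
    exact h

theorem red3 {G : Type*} [Group G] [Finite G] (𝒯 : Set (Subgroup G))
    (hconj : ∀ T ∈ 𝒯, ∀ g : G, cj g T ∈ 𝒯) (H C : Subgroup G) (hH : Group.IsSolvable H)
    (hC : C.Normal) (hCT : ∀ T ∈ 𝒯, C ≤ centralizer (T : Set G)) :
    ∃ c : Subgroup G → Fin 5, ∀ g ∈ H ⊔ C, (∀ T ∈ 𝒯, c (cj g T) = c T) →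
      ∀ T ∈ 𝒯, cj g T = T := by
  classical
  rcases isEmpty_or_nonempty 𝒯 with he | hne
  · refine ⟨fun _ => 0, fun g _ _ T hT => (he.false ⟨T, hT⟩).elim⟩
  letI := red3_act 𝒯 hconj H
  haveI : Group.IsSolvable H := hH
  obtain ⟨c0, hc0⟩ := top8 (P := H) (Ω := 𝒯)
  refine ⟨fun T => if h : T ∈ 𝒯 then c0 0 ⟨T, h⟩ else 0, ?_⟩
  intro g hg hfix T hT
  obtain ⟨h, hh, z, hz, rfl⟩ := Subgroup.mem_sup_of_normal_right.1 hg
  have key : ∀ S ∈ 𝒯, cj (h * z) S = cj h S := by
    intro S hS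
    rw [cj_mul, red3_cj (hCT S hS hz)]
  rw [key T hT]
  have h1 := (hc0 0 0 ⟨h, hh⟩ (by
    intro S
    have h2 := hfix S.1 S.2
    rw [key S.1 S.2] at h2
    have h3 : cj h S.1 ∈ 𝒯 := hconj _ S.2 h
    simp only [h3, dif_pos, S.2] at h2
    exact h2)).2 ⟨T, hT⟩
  exact congrArg Subtype.val h1

end Pool.Agent.H77.TI
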