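import Pool.Agent.H77.TI.Red1
import Pool.Agent.H77.TI.Red2
import Pool.Agent.H77.TI.Red3
import Pool.Agent.H77.TI.Glue4
import Pool.Agent.H77.TI.Comp2
import Pool.Agent.H77.TI.Comp3

/-!
[H77 TI RED4] One minimal normal subgroup (45-60 min).

PROOF. Take N, T from comp1 for C. By comp2 T is a component; let 𝒯 = Set.range (fun g => cj g T);
its members are components (comp3), conjugates of members are members (cj_mul), two different
members commute (cj g T ≠ cj h T: conjugate with g⁻¹ and use the property of T), and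
⨆ S ∈ 𝒯, S = ⨆ g, cj g T = N. Let Z = centralizer N, normal in G, contained in centralizer S for
all S in 𝒯 (S ≤ N). N ⊓ Z is normal and commutative, hence soluble, so it is ⊥ by hR.
Let H' i = H i ⊔ Z, Q = ⨅ i, (H' i ⊔ N). glue4 for H': hcol from red3 (H i₁, Z); hloc for S in 𝒯:
let K i = autSub (H' i ⊓ Q) S; by red2 (C := Z) K i ≤ autSub (H i) S and K i ⊔ inn S = autSub Q S
for all i; so the local hypothesis gives Five (inn S) K, and red1 (for H') gives hloc. glue4 gives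
x i ∈ N, and every d with x i * d * (x i)⁻¹ ∈ H' i for all i centralises all S in 𝒯, so it
centralises N (N is generated by them).
-/

namespace Pool.Agent.H77.TI

open Subgroup

theorem red4_comm {G : Type*} [Group G] {T : Subgroup G}
    (hcomm : ∀ g, cj g T ≠ T → ∀ a ∈ T, ∀ b ∈ cj g T, a * b = b * a) :
    ∀ S ∈ Set.range (fun g => cj g T), ∀ S' ∈ Set.range (fun g => cj g T), S ≠ S' →
      ∀ a ∈ S, ∀ b ∈ S', a * b = b * a := by
  rintro _ ⟨g, rfl⟩ _ ⟨h, rfl⟩ hne a ha b hb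
  have h1 : cj (g⁻¹ * h) T ≠ T := by
    intro h2
    rw [cj_mul, cj_inv_eq_iff] at h2
    exact hne h2.symm
  have h2 := mem_cj.1 ha
  have h3 : g⁻¹ * b * g ∈ cj (g⁻¹ * h) T := by
    rw [mem_cj]
    have h4 := mem_cj.1 hb
    have h5 : (g⁻¹ * h)⁻¹ * (g⁻¹ * b * g) * (g⁻¹ * h) = h⁻¹ * b * h := by group
    rw [h5]
    exact h4
  have h6 := hcomm (g⁻¹ * h) h1 _ h2 _ h3
  calc a * b = g * ((g⁻¹ * a * g) * (g⁻¹ * b * g)) * g⁻¹ := by group
    _ = g * ((g⁻¹ * b * g) * (g⁻¹ * a * g)) * g⁻¹ := by rw [h6]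
    _ = b * a := by group

theorem red4_inf {G : Type*} [Group G] (hR : TrivRad G) (N : Subgroup G) (hN : N.Normal) :
    N ⊓ centralizer (N : Set G) = ⊥ := by
  refine hR _ inferInstance (Group.isSolvable_of_comm ?_)
  rintro ⟨a, ha⟩ ⟨b, hb⟩
  apply Subtype.ext
  exact (mem_centralizer_iff.1 hb.2 a ha.1)

theorem red4 {G : Type*} [Group G] [Finite G] (hR : TrivRad G) {ι : Type*}
    (H : ι → Subgroup G) (i₁ : ι) (hsol : Group.IsSolvable (H i₁)) (hloc : LocHyp H)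
    (C : Subgroup G) (hC : C.Normal) (hC1 : C ≠ ⊥) :
    ∃ N : Subgroup G, N.Normal ∧ N ≠ ⊥ ∧ N ≤ C ∧ N ⊓ centralizer (N : Set G) = ⊥ ∧
      ∃ x : ι → G, (∀ i, x i ∈ N) ∧
        ∀ d : G, (∀ i, x i * d * (x i)⁻¹ ∈ H i ⊔ centralizer (N : Set G)) →
          d ∈ centralizer (N : Set G) := by
  obtain ⟨N, T, hNC, hN, hN1, hT1, hTN, hnorm, hcomm, hgen, hmin⟩ := comp1 C hC hC1
  have hT : IsComp T := comp2 hR N T hN hN1 hT1 hTN hnorm hcomm hgen hmin
  refine ⟨N, hN, hN1, hNC, red4_inf hR N hN, ?_⟩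
  obtain ⟨𝒯, h𝒯⟩ : ∃ 𝒯 : Set (Subgroup G), 𝒯 = Set.range (fun g => cj g T) := ⟨_, rfl⟩
  have hcomp : ∀ S ∈ 𝒯, IsComp S := by
    rw [h𝒯]
    rintro _ ⟨g, rfl⟩
    exact comp3 hT g
  have hconj : ∀ S ∈ 𝒯, ∀ g : G, cj g S ∈ 𝒯 := by
    rw [h𝒯]
    rintro _ ⟨h, rfl⟩ g
    exact ⟨g * h, cj_mul g h T⟩
  have hcomm' : ∀ S ∈ 𝒯, ∀ S' ∈ 𝒯, S ≠ S' → ∀ a ∈ S, ∀ b ∈ S', a * b = b * a := by
    rw [h𝒯]
    exact red4_comm hcomm
  have hsup : (⨆ S ∈ 𝒯, S) = N := by
    rw [hgen, h𝒯, iSup_range]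
  have hZ : (centralizer (N : Set G)).Normal := inferInstance
  have hZT : ∀ S ∈ 𝒯, centralizer (N : Set G) ≤ centralizer (S : Set G) := by
    intro S hS
    refine centralizer_le ?_
    rw [← hsup]
    exact SetLike.coe_subset_coe.2 (le_iSup₂_of_le S hS le_rfl)
  obtain ⟨x, hx1, hx2⟩ := glue4 𝒯 hconj hcomm' (fun i => H i ⊔ centralizer (N : Set G))
    (⨅ i, ((H i ⊔ centralizer (N : Set G)) ⊔ ⨆ S ∈ 𝒯, S)) rfl i₁
    (red3 𝒯 hconj (H i₁) (centralizer (N : Set G)) hsol hZ hZT)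
    (by
      intro S hS
      refine red1 S (fun i => H i ⊔ centralizer (N : Set G)) _ ?_
      have h2 := red2 𝒯 hconj hcomm' H S hS (centralizer (N : Set G)) hZ (hZT S hS) _ rfl
      exact hloc S (hcomp S hS) _ h2.1 (fun i j => (h2.2 i).trans (h2.2 j).symm))
  refine ⟨x, fun i => by rw [← hsup]; exact hx1 i, fun d hd => ?_⟩
  have h3 := hx2 d hd
  have h4 : N ≤ centralizer ({d} : Set G) := by
    rw [← hsup]
    refine iSup₂_le fun S hS s hs => ?_
    rw [mem_centralizer_iff]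
    intro e he
    rw [Set.mem_singleton_iff.1 he]
    exact (mem_centralizer_iff.1 (h3 S hS) s hs).symm
  rw [mem_centralizer_iff]
  intro n hn
  exact (mem_centralizer_iff.1 (h4 hn) d rfl).symm

end Pool.Agent.H77.TI
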