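import Pool.Agent.H77.TI.Base

/-!
[H77 TI TOP1] Colourings: from the orbits to the whole set (30-45 min).

PROOF. Choose a representative in every orbit: for x in Ω let r x be the representative of the
orbit of x (Quotient.out of the class in MulAction.orbitRel.Quotient P Ω) and choose g x in P
with g x • r x = x. For ω let C ω : Fin 5 → P ⧸ stabilizer P ω → Fin 5 be the colouring given by
h ω. Define c i x = C (r x) i (g x : P ⧸ stabilizer P (r x)). If g • r x = x for another g then
the cosets of g and g x agree. Suppose c j (p • x) = c i x for all x in Ω. Fix x0 in Ω (Nonempty)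
and let ρ = r x0. For every coset y = (g : P ⧸ stabilizer P ρ), with x = g • ρ: r x = ρ,
r (p • x) = ρ, the coset of g (p • x) is p • y, so C ρ j (p • y) = C ρ i y. So i = j and
p • y = y for all y, i.e. p g ∈ g stabilizer, so p • x = x for all x in the orbit. As x0 is
arbitrary we are done.
-/

namespace Pool.Agent.H77.TI

open MulAction

theorem top1 {P Ω : Type*} [Group P] [MulAction P Ω] [Nonempty Ω]
    (h : ∀ ω : Ω, Col P (P ⧸ stabilizer P ω)) : Col P Ω := by
  classical
  obtain ⟨r, hr1, hr2⟩ : ∃ r : Ω → Ω, (∀ x, ∃ g : P, g • r x = x) ∧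
      ∀ (p : P) x, r (p • x) = r x := by
    refine ⟨fun x => (Quotient.mk (orbitRel P Ω) x).out, fun x => ?_, fun p x => ?_⟩
    · have h1 : (orbitRel P Ω).r (Quotient.mk (orbitRel P Ω) x).out x := Quotient.mk_out x
      have h2 : (Quotient.mk (orbitRel P Ω) x).out ∈ orbit P x := h1
      have h3 : x ∈ orbit P (Quotient.mk (orbitRel P Ω) x).out :=
        mem_orbit_symm.1 h2
      obtain ⟨g, hg⟩ := h3
      exact ⟨g, hg⟩
    · have h1 : Quotient.mk (orbitRel P Ω) (p • x) = Quotient.mk (orbitRel P Ω) x :=
        Quotient.sound (mem_orbit x p)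
      change (Quotient.mk (orbitRel P Ω) (p • x)).out = (Quotient.mk (orbitRel P Ω) x).out
      rw [h1]
  choose gg hgg using hr1
  choose C hC using h
  have key : ∀ (i : Fin 5) (ρ x : Ω) (_ : r x = ρ) (g : P) (_ : g • ρ = x),
      C (r x) i (gg x : P ⧸ stabilizer P (r x)) = C ρ i (g : P ⧸ stabilizer P ρ) := by
    intro i ρ x hx g hg
    subst hx
    congr 1
    rw [QuotientGroup.eq, mem_stabilizer_iff, mul_smul, hg, inv_smul_eq_iff, hgg]
  refine ⟨fun i x => C (r x) i (gg x : P ⧸ stabilizer P (r x)), fun i j p hp => ?_⟩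
  have hmain : ∀ x0 : Ω, i = j ∧ p • x0 = x0 := by
    intro x0
    have hρ : r (r x0) = r x0 := by
      have := hr2 (gg x0) (r x0)
      rw [hgg] at this
      exact this.symm
    have h1 : ∀ y : P ⧸ stabilizer P (r x0), C (r x0) j (p • y) = C (r x0) i y := by
      intro y
      induction y using QuotientGroup.induction_on with
      | H g =>
        have h2 := hp (g • r x0)
        dsimp only at h2
        have h3 := key i (r x0) (g • r x0) (by rw [hr2, hρ]) g rfl
        have h4 := key j (r x0) (p • g • r x0) (by rw [hr2, hr2, hρ]) (p * g) (mul_smul _ _ _)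
        rw [← h3, ← h2, h4]
        rfl
    obtain ⟨h5, h6⟩ := hC (r x0) i j p h1
    refine ⟨h5, ?_⟩
    have h7 := h6 (gg x0 : P ⧸ stabilizer P (r x0))
    have h8 : ((p * gg x0 : P) : P ⧸ stabilizer P (r x0)) = (gg x0 : P ⧸ stabilizer P (r x0)) := h7
    rw [QuotientGroup.eq, mem_stabilizer_iff, mul_smul, hgg, inv_smul_eq_iff, mul_smul, hgg] at h8
    exact h8.symm
  exact ⟨(hmain (Classical.arbitrary Ω)).1, fun x => (hmain x).2⟩

end Pool.Agent.H77.TI
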