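import Pool.Agent.H77.TI.Base

/-!
[H77 TI TOP2] Colourings: imprimitive actions (45-60 min).

PROOF. Let b : Fin 5 → P ⧸ Q → Fin 5 be the colouring of h1, and a : Fin 5 → Q ⧸ (R.subgroupOf Q)
→ Fin 5 that of h2. Choose a section s : P ⧸ Q → P of the quotient map (Quotient.out). For g in P
with class [g] in P ⧸ Q: s [g]⁻¹ * g ∈ Q. Define for x = gR in P ⧸ R:
c i x = a (b i [g]) ((s [g]⁻¹ g) (R ∩ Q)). Well defined: g' = g r with r in R ≤ Q gives the same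
class [g'] = [g] and the coset of s[g]⁻¹ g r is the same.
Suppose c j (p • x) = c i x for all x. Fix a class β = [g] in P ⧸ Q, let u = s (pβ)⁻¹ p s β ∈ Q.
For q in Q, x = (s β) q R: [p s β q] = pβ, so c j (p x) = a (b j (pβ)) (u q (R ∩ Q)) and
c i x = a (b i β) (q (R ∩ Q)). So for all y in Q ⧸ (R ∩ Q): a (b j (pβ)) (u • y) = a (b i β) y.
By h2 b i β = b j (pβ) and u fixes all y. The first, for all β, gives by h1 i = j and pβ = β for
all β. Then p (s β) q R = (s β) u q R = (s β) q R. So p fixes all x.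
-/

namespace Pool.Agent.H77.TI

open Subgroup

theorem top2 {P : Type*} [Group P] (R Q : Subgroup P) (hRQ : R ≤ Q)
    (h1 : Col P (P ⧸ Q)) (h2 : Col Q (Q ⧸ R.subgroupOf Q)) : Col P (P ⧸ R) := by
  classical
  obtain ⟨b, hb⟩ := h1
  obtain ⟨a, ha⟩ := h2
  set s : P ⧸ Q → P := fun β => β.out with hs
  have hs1 : ∀ β : P ⧸ Q, ((s β : P) : P ⧸ Q) = β := fun β => QuotientGroup.out_eq' β
  have hsm : ∀ g : P, (s (g : P ⧸ Q))⁻¹ * g ∈ Q := by
    intro g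
    rw [← QuotientGroup.eq, hs1]
  set φ : Fin 5 → P → Fin 5 := fun i g =>
    a (b i (g : P ⧸ Q)) ((⟨(s (g : P ⧸ Q))⁻¹ * g, hsm g⟩ : Q) : Q ⧸ R.subgroupOf Q) with hφ
  have hφ1 : ∀ (i : Fin 5) (g : P) (β : P ⧸ Q) (q : Q), (g : P ⧸ Q) = β → s β * q = g →
      φ i g = a (b i β) (q : Q ⧸ R.subgroupOf Q) := by
    intro i g β q hβ hq
    subst hβ
    simp only [hφ]
    congr 2
    apply Subtype.ext
    change (s (g : P ⧸ Q))⁻¹ * g = q
    rw [inv_mul_eq_iff_eq_mul]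
    exact hq.symm
  have hφ2 : ∀ (i : Fin 5) (g g' : P), g⁻¹ * g' ∈ R → φ i g = φ i g' := by
    intro i g g' hg
    have hβ : (g : P ⧸ Q) = (g' : P ⧸ Q) := by
      rw [QuotientGroup.eq]
      exact hRQ hg
    have hm : (s (g : P ⧸ Q))⁻¹ * g' ∈ Q := by
      rw [hβ]
      exact hsm g'
    rw [hφ1 i g' (g : P ⧸ Q) ⟨(s (g : P ⧸ Q))⁻¹ * g', hm⟩ hβ.symm (mul_inv_cancel_left _ _)]
    simp only [hφ]
    congr 1
    rw [QuotientGroup.eq, mem_subgroupOf]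
    change ((s (g : P ⧸ Q))⁻¹ * g)⁻¹ * ((s (g : P ⧸ Q))⁻¹ * g') ∈ R
    have : ((s (g : P ⧸ Q))⁻¹ * g)⁻¹ * ((s (g : P ⧸ Q))⁻¹ * g') = g⁻¹ * g' := by group
    rw [this]
    exact hg
  set c : Fin 5 → P ⧸ R → Fin 5 := fun i x => φ i x.out with hc
  have hc1 : ∀ (i : Fin 5) (g : P), c i (g : P ⧸ R) = φ i g := by
    intro i g
    simp only [hc]
    apply hφ2
    rw [← QuotientGroup.eq]
    exact QuotientGroup.out_eq' _
  refine ⟨c, fun i j p hp => ?_⟩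
  have hum : ∀ β : P ⧸ Q, (s (p • β))⁻¹ * (p * s β) ∈ Q := by
    intro β
    rw [← QuotientGroup.eq, hs1]
    conv_lhs => rw [← hs1 β]
    rfl
  have hkey : ∀ β : P ⧸ Q, b i β = b j (p • β) ∧
      ∀ y : Q ⧸ R.subgroupOf Q, (⟨(s (p • β))⁻¹ * (p * s β), hum β⟩ : Q) • y = y := by
    intro β
    apply ha (b i β) (b j (p • β))
    intro y
    induction y using QuotientGroup.induction_on with
    | H q =>
      have e1 := hp ((s β * q : P) : P ⧸ R)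
      have e2 : (p • ((s β * q : P) : P ⧸ R)) = ((p * (s β * q) : P) : P ⧸ R) := rfl
      have hcl : ((s β * q : P) : P ⧸ Q) = β := by
        conv_rhs => rw [← hs1 β]
        rw [QuotientGroup.eq]
        have : (s β * (q : P))⁻¹ * s β = (q : P)⁻¹ := by group
        rw [this]
        exact Q.inv_mem q.2
      rw [e2, hc1, hc1, hφ1 i (s β * q) β q hcl rfl,
        hφ1 j (p * (s β * q)) (p • β) (⟨(s (p • β))⁻¹ * (p * s β), hum β⟩ * q) (by
          conv_rhs => rw [← hcl]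
          rfl) (by
          change s (p • β) * ((s (p • β))⁻¹ * (p * s β) * q) = p * (s β * q)
          group)] at e1
      exact e1
  obtain ⟨hij, hpβ⟩ := hb i j p (fun β => (hkey β).1.symm)
  refine ⟨hij, fun x => ?_⟩
  induction x using QuotientGroup.induction_on with
  | H g =>
    set β : P ⧸ Q := (g : P ⧸ Q) with hβ
    have e1 := (hkey β).2 ((⟨(s β)⁻¹ * g, hsm g⟩ : Q) : Q ⧸ R.subgroupOf Q)
    have e2 : ((⟨(s (p • β))⁻¹ * (p * s β), hum β⟩ * ⟨(s β)⁻¹ * g, hsm g⟩ : Q) :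
        Q ⧸ R.subgroupOf Q) = ((⟨(s β)⁻¹ * g, hsm g⟩ : Q) : Q ⧸ R.subgroupOf Q) := e1
    rw [QuotientGroup.eq, mem_subgroupOf] at e2
    have e3 : ((s (p • β))⁻¹ * (p * s β) * ((s β)⁻¹ * g))⁻¹ * ((s β)⁻¹ * g) ∈ R := e2
    rw [hpβ β] at e3
    have e4 : ((s β)⁻¹ * (p * s β) * ((s β)⁻¹ * g))⁻¹ * ((s β)⁻¹ * g) = (p * g)⁻¹ * g := by
      group
    rw [e4] at e3
    change ((p * g : P) : P ⧸ R) = (g : P ⧸ R)
    rw [QuotientGroup.eq]
    exact e3

end Pool.Agent.H77.TI
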