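import Pool.Agent.H77.TI.Base

/-!
[H77 TI TOP3] Colourings of small sets (20-30 min).

PROOF. X has at most 4 elements: fix an injection f : X → Fin 4 (or an equivalence with Fin m,
1 ≤ m ≤ 4). For m = 1, 2, 3, 4 there are at least 5 subsets of Fin 5 with m elements. For m = 4:
c i = (Fin.succAbove i) ∘ f, whose range is the complement of i. For m = 1: c i = constant i.
For m = 2, 3: choose 5 injective maps with different ranges, e.g. m = 2: ranges {i, i+1}
(indices mod 5); m = 3: ranges {i, i+1, i+2}. In general c i x = i + f x (mod 5) where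
f : X → Fin 4 injective with range {0, ..., m-1}: the range of c i is {i, ..., i+m-1}, and these
are different for different i (1 ≤ m ≤ 4). If c j (π x) = c i x for all x then (π being a
bijection) the ranges of c i and c j are the same, so i = j, and π x = x as c i is injective.
(X = Fin m and then decide is possible: after transport to Fin m the statement
∀ i j : Fin 5, ∀ π : Equiv.Perm (Fin m), ... is decidable.)
-/

namespace Pool.Agent.H77.TI

/-- The colouring i + x mod 5. -/
def top3c (m : ℕ) (i : Fin 5) (x : Fin m) : Fin 5 := i + Fin.ofNat 5 x.1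

theorem top3_fin (m : ℕ) (h1 : 1 ≤ m) (h4 : m ≤ 4) (i j : Fin 5) (f : Fin m → Fin m)
    (hf : ∀ x, top3c m j (f x) = top3c m i x) : i = j := by
  have hs : ∀ x : Fin m, (j.1 + (f x).1) % 5 = (i.1 + x.1) % 5 := by
    intro x
    have := congrArg Fin.val (hf x)
    simpa [top3c, Fin.val_add, Fin.ofNat] using this
  have hi := i.2
  have hj := j.2
  apply Fin.ext
  have h0 := hs ⟨0, by omega⟩
  have h0' := (f ⟨0, by omega⟩).2
  rcases Nat.lt_or_ge m 2 with hm | hm
  · simp only at h0
    omega
  have h1 := hs ⟨1, by omega⟩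
  have h1' := (f ⟨1, by omega⟩).2
  rcases Nat.lt_or_ge m 3 with hm | hm
  · simp only at h0 h1
    omega
  have h2 := hs ⟨2, by omega⟩
  have h2' := (f ⟨2, by omega⟩).2
  rcases Nat.lt_or_ge m 4 with hm | hm
  · simp only at h0 h1 h2
    omega
  have h3 := hs ⟨3, by omega⟩
  have h3' := (f ⟨3, by omega⟩).2
  simp only at h0 h1 h2 h3
  generalize ((f ⟨0, by omega⟩ : Fin m) : ℕ) = a0 at *
  generalize ((f ⟨1, by omega⟩ : Fin m) : ℕ) = a1 at *
  generalize ((f ⟨2, by omega⟩ : Fin m) : ℕ) = a2 at *
  generalize ((f ⟨3, by omega⟩ : Fin m) : ℕ) = a3 at *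
  generalize (j : ℕ) = jj at *
  generalize (i : ℕ) = ii at *
  clear hs
  interval_cases jj <;> interval_cases ii <;> first | rfl | omega

theorem top3 (X : Type*) [Finite X] [Nonempty X] (hX : Nat.card X ≤ 4) :
    ∃ c : Fin 5 → X → Fin 5, ∀ i j, ∀ π : Equiv.Perm X, (∀ x, c j (π x) = c i x) →
      i = j ∧ ∀ x, π x = x := by
  classical
  have e : X ≃ Fin (Nat.card X) := Finite.equivFin X
  have hpos : 1 ≤ Nat.card X := Nat.card_pos
  refine ⟨fun i x => top3c (Nat.card X) i (e x), ?_⟩
  intro i j π h
  have hij : i = j := by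
    apply top3_fin (Nat.card X) hpos hX i j (fun y => e (π (e.symm y)))
    intro y
    have := h (e.symm y)
    simpa using this
  refine ⟨hij, ?_⟩
  subst hij
  intro x
  have h1 := h x
  simp only [top3c] at h1
  have h2 := add_left_cancel h1
  have h3 := congrArg Fin.val h2
  simp only [Fin.ofNat] at h3
  have h4 := (e (π x)).2
  have h5 := (e x).2
  apply e.injective
  apply Fin.ext
  omega

end Pool.Agent.H77.TI
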