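import Pool.Agent.H77.TI.Base

/-!
[H77 TI TOP4] Four special sets in a vector space over ZMod p (60-90 min).

PROOF. Let e 1, ..., e k be a basis of V over ZMod p (p^k = |V| ≥ 5, k ≥ 1).
An additive bijection of V is ZMod p-linear, so it is determined by the images of the e i.
Case k ≤ 3: S 0 = {0}, S m = {e m} for 1 ≤ m ≤ k, S m = ∅ for m > k. If u ↦ φ u + v preserves the
sets then v = φ 0 + v = 0 and φ (e m) = e m, so φ = id. Size: the complement of the union has
|V| - (k+1) elements: k = 1: |V| ≥ 5, at least 3; k = 2: |V| ≥ 9 (p^2 ≥ 5), at least 6; k = 3: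
|V| ≥ 8, at least 4; and the S m have at most 1 element.
Case k ≥ 4: S 0 = {0}, S 1 = {e 1}, S 2 = {e 2, ..., e k},
S 3 = {e i + e (i+1) : 1 ≤ i < k}. These are disjoint (linear independence). Sizes 1, 1, k-1,
k-1; the complement has at least 2^k - 2k > k - 1 elements (k ≥ 4). If u ↦ φ u + v preserves the
sets then v = 0 and φ (e 1) = e 1. Induction on i: suppose φ (e j) = e j for j ≤ i. Then
φ (e (i+1)) = e m for some m in {2, ..., k}, and m > i since φ is injective; and
φ (e i + e (i+1)) = e i + e m is in S 3, so e i + e m = e j + e (j+1) for some j, and by linear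
independence {i, m} = {j, j+1}, so m = i + 1 (as m > i). So φ = id on the basis.
(The condition on φ is only: φ u + v ∈ S m ↔ u ∈ S m for all m and u.)
-/

namespace Pool.Agent.H77.TI

open Module

theorem top4_size {V : Type*} [Finite V] (S : Fin 4 → Set V) (c t : ℕ)
    (h : ∀ m, (S m).ncard ≤ c)
    (h2 : (S 0).ncard + (S 1).ncard + (S 2).ncard + (S 3).ncard ≤ t)
    (h3 : t + c < Nat.card V) (m : Fin 4) : (S m).ncard < ((⋃ l, S l)ᶜ).ncard := by
  have h4 : (⋃ l, S l) ⊆ S 0 ∪ S 1 ∪ S 2 ∪ S 3 := by
    intro x hx
    rw [Set.mem_iUnion] at hx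
    obtain ⟨l, hl⟩ := hx
    fin_cases l
    · exact Or.inl (Or.inl (Or.inl hl))
    · exact Or.inl (Or.inl (Or.inr hl))
    · exact Or.inl (Or.inr hl)
    · exact Or.inr hl
  have h5 := Set.ncard_le_ncard h4 (Set.toFinite _)
  have h6 := Set.ncard_union_le (S 0 ∪ S 1 ∪ S 2) (S 3)
  have h7 := Set.ncard_union_le (S 0 ∪ S 1) (S 2)
  have h8 := Set.ncard_union_le (S 0) (S 1)
  have h9 := Set.ncard_add_ncard_compl (⋃ l, S l)
  have h10 := h m
  omega

theorem top4_lin {p : ℕ} [Fact p.Prime] {V : Type*} [AddCommGroup V] [Module (ZMod p) V]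
    {ι : Type*} (b : Basis ι (ZMod p) V) (φ : V ≃+ V) (h : ∀ i, φ (b i) = b i) (u : V) :
    φ u = u := by
  have h1 : φ.toAddMonoidHom.toZModLinearMap p = LinearMap.id := b.ext fun i => h i
  exact LinearMap.congr_fun h1 u

theorem top4_crd {p : ℕ} [Fact p.Prime] {V : Type*} [AddCommGroup V] [Module (ZMod p) V]
    {ι : Type*} (b : Basis ι (ZMod p) V) {i m j l : ι} (him : i ≠ m)
    (h : b i + b m = b j + b l) : i = j ∨ i = l := by
  classical
  by_contra hcon
  rw [not_or] at hcon
  have h1 := congrArg (fun x => b.repr x i) h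
  simp only [map_add, Finsupp.add_apply, Basis.repr_self_apply] at h1
  simp only [if_true, if_neg him.symm, if_neg (Ne.symm hcon.1), if_neg (Ne.symm hcon.2)] at h1
  simp at h1

theorem top4_ne1 {p : ℕ} [Fact p.Prime] {V : Type*} [AddCommGroup V] [Module (ZMod p) V]
    {ι : Type*} (b : Basis ι (ZMod p) V) {i m : ι} (him : i ≠ m) : b i + b m ≠ 0 := by
  classical
  intro h
  have h1 := congrArg (fun x => b.repr x i) h
  simp only [map_add, Finsupp.add_apply, Basis.repr_self_apply, map_zero,
    Finsupp.zero_apply] at h1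
  simp only [if_true, if_neg him.symm] at h1
  simp at h1

theorem top4_ne2 {p : ℕ} [Fact p.Prime] {V : Type*} [AddCommGroup V] [Module (ZMod p) V]
    {ι : Type*} (b : Basis ι (ZMod p) V) {i m l : ι} (him : i ≠ m) : b i + b m ≠ b l := by
  classical
  intro h
  have h1 := congrArg (fun x => b.repr x i) h
  have h2 := congrArg (fun x => b.repr x m) h
  simp only [map_add, Finsupp.add_apply, Basis.repr_self_apply] at h1 h2
  simp only [if_true, if_neg him.symm] at h1
  simp only [if_neg him, if_true] at h2
  by_cases hl : l = i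
  · subst hl
    simp only [if_neg him] at h2
    simp at h2
  · simp only [if_neg hl] at h1
    simp at h1

/-- dimension at most three -/
theorem top4_small {p : ℕ} [Fact p.Prime] (V : Type*) [AddCommGroup V] [Module (ZMod p) V]
    [Finite V] (hV : 5 ≤ Nat.card V) (k : ℕ) (hk : k ≤ 3) (b : Basis (Fin k) (ZMod p) V)
    (hcard : Nat.card V = p ^ k) :
    ∃ S : Fin 4 → Set V, (∀ m m', m ≠ m' → Disjoint (S m) (S m')) ∧
      (∀ m, (S m).ncard < ((⋃ l, S l)ᶜ).ncard) ∧
      ∀ (φ : V ≃+ V) (v : V), (∀ m u, φ u + v ∈ S m ↔ u ∈ S m) → v = 0 ∧ ∀ u, φ u = u := by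
  have hp : 2 ≤ p := (Fact.out : p.Prime).two_le
  obtain ⟨S, hS⟩ : ∃ S : Fin 4 → Set V, ∀ m u, u ∈ S m ↔ (m = 0 ∧ u = 0) ∨
      (m ≠ 0 ∧ ∃ h : m.val - 1 < k, u = b ⟨m.val - 1, h⟩) :=
    ⟨fun m => {u | (m = 0 ∧ u = 0) ∨ (m ≠ 0 ∧ ∃ h : m.val - 1 < k, u = b ⟨m.val - 1, h⟩)},
      fun m u => Iff.rfl⟩
  have hone : ∀ m, (S m).ncard ≤ 1 := by
    intro m
    rw [Set.ncard_le_one (Set.toFinite _)]
    intro a ha c hc
    rw [hS] at ha hc
    rcases ha with ⟨hm, ha⟩ | ⟨hm, hx, ha⟩
    · rcases hc with ⟨_, hc⟩ | ⟨hm', _⟩
      · rw [ha, hc]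
      · exact absurd hm hm'
    · rcases hc with ⟨hm', _⟩ | ⟨_, _, hc⟩
      · exact absurd hm' hm
      · rw [ha, hc]
  refine ⟨S, ?_, ?_, ?_⟩
  · intro m m' hmm
    rw [Set.disjoint_left]
    intro u hu hu'
    rw [hS] at hu hu'
    rcases hu with ⟨hm, hu⟩ | ⟨hm, hx, hu⟩
    · rcases hu' with ⟨hm', _⟩ | ⟨_, hx', hu'⟩
      · exact hmm (hm.trans hm'.symm)
      · rw [hu] at hu'
        exact b.ne_zero _ hu'.symm
    · rcases hu' with ⟨_, hu'⟩ | ⟨hm', hx', hu'⟩
      · rw [hu'] at hu
        exact b.ne_zero _ hu.symm
      · rw [hu] at hu'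
        have h1 := b.injective hu'
        have h2 := Fin.mk.inj_iff.mp h1
        apply hmm
        apply Fin.ext
        have h3 : m.val ≠ 0 := fun h => hm (Fin.ext h)
        have h4 : m'.val ≠ 0 := fun h => hm' (Fin.ext h)
        omega
  · by_cases hk1 : k = 1
    · have e2 : S 2 = ∅ := by
        rw [Set.eq_empty_iff_forall_notMem]
        intro u hu
        rw [hS] at hu
        rcases hu with ⟨hm, _⟩ | ⟨_, hx, _⟩
        · exact absurd hm (by decide)
        · rw [hk1] at hx
          exact absurd hx (by decide)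
      have e3 : S 3 = ∅ := by
        rw [Set.eq_empty_iff_forall_notMem]
        intro u hu
        rw [hS] at hu
        rcases hu with ⟨hm, _⟩ | ⟨_, hx, _⟩
        · exact absurd hm (by decide)
        · rw [hk1] at hx
          exact absurd hx (by decide)
      apply top4_size S 1 2 hone
      · rw [e2, e3, Set.ncard_empty]
        have := hone 0
        have := hone 1
        omega
      · omega
    · have h6 : 6 ≤ Nat.card V := by
        interval_cases k
        · rw [hcard] at hV
          norm_num at hV
        · exact absurd rfl hk1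
        · rw [hcard] at hV ⊢
          have : 3 ≤ p := by
            by_contra hlt
            have : p = 2 := by omega
            rw [this] at hV
            norm_num at hV
          nlinarith
        · rw [hcard]
          have : 2 ^ 3 ≤ p ^ 3 := Nat.pow_le_pow_left hp 3
          omega
      apply top4_size S 1 4 hone
      · have := hone 0
        have := hone 1
        have := hone 2
        have := hone 3
        omega
      · omega
  · intro φ v h
    have hv : v = 0 := by
      have h1 := (h 0 0).mpr ((hS 0 0).mpr (Or.inl ⟨rfl, rfl⟩))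
      rw [map_zero, zero_add, hS] at h1
      rcases h1 with ⟨_, h1⟩ | ⟨h1, _⟩
      · exact h1
      · exact absurd rfl h1
    refine ⟨hv, ?_⟩
    apply top4_lin b φ
    intro i
    have hi : i.val + 1 < 4 := by omega
    have hne : (⟨i.val + 1, hi⟩ : Fin 4) ≠ 0 := by
      intro h0
      have := congrArg Fin.val h0
      simp at this
    have h1 := (h ⟨i.val + 1, hi⟩ (b i)).mpr ((hS _ _).mpr (Or.inr ⟨hne, by simp, by simp⟩))
    rw [hv, add_zero, hS] at h1
    rcases h1 with ⟨h1, _⟩ | ⟨_, _, h1⟩
    · exact absurd h1 hne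
    · simpa using h1

theorem top4_pow (n : ℕ) (hn : 3 ≤ n) : 3 * n + 2 < 2 ^ (n + 1) := by
  induction n, hn using Nat.le_induction with
  | base => norm_num
  | succ m hm ih =>
    rw [pow_succ]
    omega

/-- dimension at least four -/
theorem top4_big {p : ℕ} [Fact p.Prime] (V : Type*) [AddCommGroup V] [Module (ZMod p) V]
    [Finite V] (n : ℕ) (hn : 3 ≤ n) (b : Basis (Fin (n + 1)) (ZMod p) V)
    (hcard : Nat.card V = p ^ (n + 1)) :
    ∃ S : Fin 4 → Set V, (∀ m m', m ≠ m' → Disjoint (S m) (S m')) ∧
      (∀ m, (S m).ncard < ((⋃ l, S l)ᶜ).ncard) ∧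
      ∀ (φ : V ≃+ V) (v : V), (∀ m u, φ u + v ∈ S m ↔ u ∈ S m) → v = 0 ∧ ∀ u, φ u = u := by
  have hp : 2 ≤ p := (Fact.out : p.Prime).two_le
  have hcs : ∀ i : Fin n, i.castSucc ≠ i.succ := fun i h => by
    have := congrArg Fin.val h
    simp at this
  have d01 : Disjoint ({0} : Set V) {b 0} := by
    rw [Set.disjoint_singleton]
    exact (b.ne_zero 0).symm
  have d02 : Disjoint ({0} : Set V) (Set.range fun i : Fin n => b i.succ) := by
    rw [Set.disjoint_singleton_left]
    rintro ⟨i, hi⟩
    exact b.ne_zero _ hi
  have d03 : Disjoint ({0} : Set V) (Set.range fun i : Fin n => b i.castSucc + b i.succ) := by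
    rw [Set.disjoint_singleton_left]
    rintro ⟨i, hi⟩
    exact top4_ne1 b (hcs i) hi
  have d12 : Disjoint ({b 0} : Set V) (Set.range fun i : Fin n => b i.succ) := by
    rw [Set.disjoint_singleton_left]
    rintro ⟨i, hi⟩
    exact (Fin.succ_ne_zero i) (b.injective hi)
  have d13 : Disjoint ({b 0} : Set V) (Set.range fun i : Fin n => b i.castSucc + b i.succ) := by
    rw [Set.disjoint_singleton_left]
    rintro ⟨i, hi⟩
    exact top4_ne2 b (hcs i) hi
  have d23 : Disjoint (Set.range fun i : Fin n => b i.succ)
      (Set.range fun i : Fin n => b i.castSucc + b i.succ) := by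
    rw [Set.disjoint_left]
    rintro _ ⟨j, rfl⟩ ⟨i, hi⟩
    exact top4_ne2 b (hcs i) hi
  have hr : ∀ f : Fin n → V, (Set.range f).ncard ≤ n := by
    intro f
    rw [← Set.image_univ]
    refine (Set.ncard_image_le Set.finite_univ).trans ?_
    rw [Set.ncard_univ, Nat.card_fin]
  refine ⟨![{0}, {b 0}, Set.range fun i : Fin n => b i.succ,
    Set.range fun i : Fin n => b i.castSucc + b i.succ], ?_, ?_, ?_⟩
  · intro m m' hmm
    fin_cases m <;> fin_cases m' <;> first | exact absurd rfl hmm | skip
    · exact d01
    · exact d02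
    · exact d03
    · exact d01.symm
    · exact d12
    · exact d13
    · exact d02.symm
    · exact d12.symm
    · exact d23
    · exact d03.symm
    · exact d13.symm
    · exact d23.symm
  · have hpow : 3 * n + 2 < 2 ^ (n + 1) := top4_pow n hn
    have hc2 : 2 ^ (n + 1) ≤ p ^ (n + 1) := Nat.pow_le_pow_left hp _
    apply top4_size _ n (2 * n + 2)
    · intro m
      fin_cases m
      · show ({0} : Set V).ncard ≤ n
        rw [Set.ncard_singleton]
        omega
      · show ({b 0} : Set V).ncard ≤ n
        rw [Set.ncard_singleton]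
        omega
      · exact hr _
      · exact hr _
    · show ({0} : Set V).ncard + ({b 0} : Set V).ncard +
        (Set.range fun i : Fin n => b i.succ).ncard +
        (Set.range fun i : Fin n => b i.castSucc + b i.succ).ncard ≤ 2 * n + 2
      rw [Set.ncard_singleton, Set.ncard_singleton]
      have h1 := hr (fun i : Fin n => b i.succ)
      have h2 := hr (fun i : Fin n => b i.castSucc + b i.succ)
      omega
    · omega
  · intro φ v h
    have hv : v = 0 := by
      have h1 : φ 0 + v ∈ ({0} : Set V) := (h 0 0).mpr rfl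
      rwa [map_zero, zero_add, Set.mem_singleton_iff] at h1
    refine ⟨hv, ?_⟩
    apply top4_lin b φ
    have key : ∀ (N : ℕ) (i : Fin (n + 1)), i.val ≤ N → φ (b i) = b i := by
      intro N
      induction N with
      | zero =>
        intro i hi
        have hi0 : i = 0 := Fin.ext (by simpa using hi)
        subst hi0
        have h1 : φ (b 0) + v ∈ ({b 0} : Set V) := (h 1 (b 0)).mpr rfl
        rwa [hv, add_zero, Set.mem_singleton_iff] at h1
      | succ N ih =>
        intro i hi
        by_cases hle : i.val ≤ N
        · exact ih i hle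
        · have hiN : i.val = N + 1 := by omega
          have hNn : N < n := by omega
          -- `i = j.succ`
          obtain ⟨j, hj⟩ : ∃ j : Fin n, j.succ = i := ⟨⟨N, hNn⟩, Fin.ext (by simp [hiN])⟩
          have hjN : j.val = N := by
            have := congrArg Fin.val hj
            rw [Fin.val_succ] at this
            omega
          have h1 : φ (b j.succ) + v ∈ (Set.range fun i : Fin n => b i.succ) :=
            (h 2 (b j.succ)).mpr ⟨j, rfl⟩
          rw [hv, add_zero] at h1
          obtain ⟨m, hm⟩ := h1
          change b m.succ = φ (b j.succ) at hm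
          have hjc : φ (b j.castSucc) = b j.castSucc := ih _ (by simp [hjN])
          have h2 : φ (b j.castSucc + b j.succ) + v ∈
              (Set.range fun i : Fin n => b i.castSucc + b i.succ) :=
            (h 3 (b j.castSucc + b j.succ)).mpr ⟨j, rfl⟩
          rw [hv, add_zero, map_add, hjc, ← hm] at h2
          obtain ⟨l, hl⟩ := h2
          change b l.castSucc + b l.succ = b j.castSucc + b m.succ at hl
          -- `m.succ` is larger than `N`
          have hmN : N < m.succ.val := by
            by_contra hcon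
            have h3 := ih m.succ (by omega)
            rw [hm] at h3
            have h4 : φ (b m.succ) = φ (b j.succ) := by
              have h5 : φ (b m.succ) = b m.succ := ih m.succ (by omega)
              rw [h5, ← hm]
            have h6 := b.injective (φ.injective h4)
            have h7 := congrArg Fin.val h6
            rw [Fin.val_succ j] at h7
            omega
          have hne : j.castSucc ≠ m.succ := by
            intro h3
            have := congrArg Fin.val h3
            rw [Fin.val_castSucc] at this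
            omega
          have c1 := top4_crd b hne hl.symm
          have c2 := top4_crd b hne.symm (by rw [add_comm, ← hl] : b m.succ + b j.castSucc = b l.castSucc + b l.succ)
          have e1 : ∀ x y : Fin (n + 1), x = y → x.val = y.val := fun x y h => congrArg Fin.val h
          have c1' : j.val = l.val ∨ j.val = l.val + 1 := by
            rcases c1 with c | c
            · left
              have := e1 _ _ c
              simpa using this
            · right
              have := e1 _ _ c
              simpa using this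
          have c2' : m.val + 1 = l.val ∨ m.val + 1 = l.val + 1 := by
            rcases c2 with c | c
            · left
              have := e1 _ _ c
              simpa using this
            · right
              have := e1 _ _ c
              simpa using this
          have hmj : m = j := by
            apply Fin.ext
            rw [Fin.val_succ] at hmN
            omega
          rw [← hj, ← hm, hmj]
    intro i
    exact key i.val i le_rfl

theorem top4 {p : ℕ} [Fact p.Prime] (V : Type*) [AddCommGroup V] [Module (ZMod p) V] [Finite V]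
    (hV : 5 ≤ Nat.card V) :
    ∃ S : Fin 4 → Set V, (∀ m m', m ≠ m' → Disjoint (S m) (S m')) ∧
      (∀ m, (S m).ncard < ((⋃ l, S l)ᶜ).ncard) ∧
      ∀ (φ : V ≃+ V) (v : V), (∀ m u, φ u + v ∈ S m ↔ u ∈ S m) → v = 0 ∧ ∀ u, φ u = u := by
  have : FiniteDimensional (ZMod p) V := Module.Finite.of_finite
  have hfin : Fintype V := Fintype.ofFinite V
  obtain ⟨k, hk⟩ : ∃ k, k = finrank (ZMod p) V := ⟨_, rfl⟩
  have b : Basis (Fin k) (ZMod p) V := by
    rw [hk]
    exact finBasis (ZMod p) V
  have hcard : Nat.card V = p ^ k := by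
    rw [Module.natCard_eq_pow_finrank (K := ZMod p) (V := V), Nat.card_zmod, hk]
  by_cases hk3 : k ≤ 3
  · exact top4_small V hV k hk3 b hcard
  · obtain ⟨n, rfl⟩ : ∃ n, k = n + 1 := ⟨k - 1, by omega⟩
    exact top4_big V n (by omega) b hcard

end Pool.Agent.H77.TI
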