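import Pool.Agent.H77.TI.Top3
import Pool.Agent.H77.TI.Top4

/-!
[H77 TI TOP5] Colourings of a vector space (30-40 min).

PROOF. If Nat.card V ≤ 4: top3 (u ↦ φ u + v is a permutation π of V; π = id gives v = 0 (u = 0)
and φ u = u). If Nat.card V ≥ 5: let S be from top4, rest = the complement of the union of the
S m. Define c i x = i if x ∈ rest, and c i x = Fin.succAbove i m (: Fin 5, different from i, for
m : Fin 4) if x ∈ S m. Suppose c j (φ u + v) = c i u for all u. Let a(x) = φ x + v (bijection).
If i ≠ j: the set {x | c i x = i} is rest, and {x | c j x = i} is a^(-1)... : u ∈ rest iff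
c i u = i iff c j (a u) = i iff a u ∈ S m where Fin.succAbove j m = i. So rest and this S m have
the same number of elements (a is a bijection): contradiction to top4. So i = j, and then a u ∈
S m iff c i (a u) = succAbove i m iff c i u = succAbove i m iff u ∈ S m. top4 gives v = 0 and
φ u = u.
-/

namespace Pool.Agent.H77.TI

theorem top5 {p : ℕ} [Fact p.Prime] (V : Type*) [AddCommGroup V] [Module (ZMod p) V]
    [Finite V] :
    ∃ c : Fin 5 → V → Fin 5, ∀ i j, ∀ (φ : V ≃+ V) (v : V), (∀ u, c j (φ u + v) = c i u) →
      i = j ∧ v = 0 ∧ ∀ u, φ u = u := by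
  classical
  rcases Nat.lt_or_ge (Nat.card V) 5 with hV | hV
  · obtain ⟨c, hc⟩ := top3 V (by omega)
    refine ⟨c, fun i j φ v h => ?_⟩
    obtain ⟨hij, hπ⟩ := hc i j (φ.toEquiv.trans (Equiv.addRight v)) h
    have hπ' : ∀ x, φ x + v = x := hπ
    have hv : v = 0 := by
      have := hπ' 0
      rwa [map_zero, zero_add] at this
    refine ⟨hij, hv, fun u => ?_⟩
    have := hπ' u
    rwa [hv, add_zero] at this
  · obtain ⟨S, hdis, hlt, hS⟩ := top4 (p := p) V hV
    obtain ⟨c, hc⟩ : ∃ c : Fin 5 → V → Fin 5, ∀ i x,
        c i x = if h : ∃ m, x ∈ S m then i.succAbove h.choose else i :=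
      ⟨fun i x => if h : ∃ m, x ∈ S m then i.succAbove h.choose else i, fun _ _ => rfl⟩
    have huniq : ∀ {m m' : Fin 4} {x : V}, x ∈ S m → x ∈ S m' → m = m' := by
      intro m m' x h h'
      by_contra hne
      exact Set.disjoint_left.1 (hdis m m' hne) h h'
    have hc1 : ∀ i x m, c i x = i.succAbove m ↔ x ∈ S m := by
      intro i x m
      rw [hc]
      constructor
      · intro h
        split_ifs at h with hex
        · have h1 := Fin.succAbove_right_injective h
          rw [← h1]
          exact hex.choose_spec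
        · exact absurd h.symm (Fin.succAbove_ne i m)
      · intro h
        have hex : ∃ m, x ∈ S m := ⟨m, h⟩
        rw [dif_pos hex, huniq hex.choose_spec h]
    have hc2 : ∀ i x, c i x = i ↔ x ∈ (⋃ l, S l)ᶜ := by
      intro i x
      rw [hc, Set.mem_compl_iff, Set.mem_iUnion]
      constructor
      · intro h hex
        rw [dif_pos hex] at h
        exact Fin.succAbove_ne i _ h
      · intro h
        rw [dif_neg h]
    refine ⟨c, fun i j φ v h => ?_⟩
    have hij : i = j := by
      by_contra hne
      obtain ⟨m, hm⟩ := Fin.exists_succAbove_eq hne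
      have h1 : (⋃ l, S l)ᶜ = (φ.toEquiv.trans (Equiv.addRight v)) ⁻¹' (S m) := by
        ext u
        rw [← hc2 i u, ← h u, Set.mem_preimage]
        conv_lhs => rw [← hm]
        exact hc1 j _ m
      have h2 := hlt m
      rw [h1, ← Equiv.image_symm_eq_preimage,
        Set.ncard_image_of_injective _ (Equiv.injective _)] at h2
      exact lt_irrefl _ h2
    subst hij
    refine ⟨rfl, hS φ v fun m u => ?_⟩
    rw [← hc1 i _ m, h u, hc1]

end Pool.Agent.H77.TI
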