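import Pool.Agent.H77.TI.Base

/-!
[H77 TI TOP6] Primitive soluble actions are affine, group theory (45-60 min).

R is a maximal subgroup of the finite soluble group P. PROOF. Let K = R.normalCore. The group
P ⧸ K is soluble and nontrivial (K ≤ R ≠ ⊤). Let M' be a minimal nontrivial normal subgroup of
P ⧸ K (finite). It is abelian ([M', M'] is normal in P ⧸ K and < M' by solubility:
IsSolvable.commutator_lt_of_ne_bot, so it is ⊥). For a prime p dividing |M'| the elements of M'
of order dividing p form a nontrivial subgroup normal in P ⧸ K (M' abelian), so it is M':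
x^p = 1 for all x in M'. Let M = the preimage of M' in P; K < M, M normal.
M is not contained in R: otherwise M ≤ R.normalCore = K. R is maximal: M ⊔ R = ⊤.
M ⊓ R is normalised by R (M normal) and by M (for m in M, x in M ⊓ R: m x m⁻¹ x⁻¹ ∈ K ≤ R as
M ⧸ K is abelian), so by M ⊔ R = ⊤; it is normal in P and contained in R, so M ⊓ R ≤ K; so
M ⊓ R = K (K ≤ M, K ≤ R).
-/

namespace Pool.Agent.H77.TI

open Subgroup

theorem top6 {P : Type*} [Group P] [Finite P] [Group.IsSolvable P] (R : Subgroup P)
    (hR : IsCoatom R) :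
    ∃ (p : ℕ) (M : Subgroup P), p.Prime ∧ M.Normal ∧ M ⊔ R = ⊤ ∧ M ⊓ R = R.normalCore ∧
      (∀ a ∈ M, ∀ b ∈ M, a * b * a⁻¹ * b⁻¹ ∈ R.normalCore) ∧ ∀ a ∈ M, a ^ p ∈ R.normalCore := by
  classical
  set K : Subgroup P := R.normalCore with hK
  haveI hKn : K.Normal := R.normalCore_normal
  have hKR : K ≤ R := R.normalCore_le
  have hKtop : K < ⊤ := lt_of_le_of_lt hKR (lt_top_iff_ne_top.2 hR.1)
  obtain ⟨M, ⟨hMn, hKM⟩, hmin⟩ := WellFounded.has_min (wellFounded_lt (α := Subgroup P))
    {M : Subgroup P | M.Normal ∧ K < M} ⟨⊤, ⟨inferInstance, hKtop⟩⟩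
  have hmin' : ∀ D : Subgroup P, D.Normal → K ≤ D → D ≤ M → D = K ∨ D = M := by
    intro D hDn hKD hDM
    by_cases h1 : D = K
    · exact Or.inl h1
    · right
      by_contra h2
      exact hmin D ⟨hDn, lt_of_le_of_ne hKD (Ne.symm h1)⟩ (lt_of_le_of_ne hDM h2)
  -- the quotient
  have hM'ne : M.map (QuotientGroup.mk' K) ≠ ⊥ := by
    intro h0
    have h1 : M ≤ K := by
      intro x hx
      have h2 : QuotientGroup.mk' K x ∈ M.map (QuotientGroup.mk' K) := ⟨x, hx, rfl⟩
      rw [h0, mem_bot] at h2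
      exact (QuotientGroup.eq_one_iff x).1 h2
    exact absurd hKM (not_lt_of_ge h1)
  have hcomm : ∀ a ∈ M, ∀ b ∈ M, a * b * a⁻¹ * b⁻¹ ∈ K := by
    have hlt := Group.IsSolvable.commutator_lt_of_ne_bot hM'ne
    haveI hMm : (M.map (QuotientGroup.mk' K)).Normal :=
      hMn.map _ (QuotientGroup.mk'_surjective K)
    have hKD : K ≤ (⁅M.map (QuotientGroup.mk' K), M.map (QuotientGroup.mk' K)⁆.comap
        (QuotientGroup.mk' K)) := by
      intro x hx
      rw [mem_comap]
      have : QuotientGroup.mk' K x = 1 := (QuotientGroup.eq_one_iff x).2 hx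
      rw [this]
      exact one_mem _
    have hDM : (⁅M.map (QuotientGroup.mk' K), M.map (QuotientGroup.mk' K)⁆.comap
        (QuotientGroup.mk' K)) ≤ M := by
      intro x hx
      rw [mem_comap] at hx
      obtain ⟨y, hy, hyx⟩ := hlt.le hx
      have h4 : y⁻¹ * x ∈ K := (QuotientGroup.eq (s := K)).1 hyx
      have h5 : x = y * (y⁻¹ * x) := by group
      rw [h5]
      exact mul_mem hy (hKM.le h4)
    have hD : (⁅M.map (QuotientGroup.mk' K), M.map (QuotientGroup.mk' K)⁆.comap
        (QuotientGroup.mk' K)) = K := by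
      rcases hmin' (⁅M.map (QuotientGroup.mk' K), M.map (QuotientGroup.mk' K)⁆.comap
        (QuotientGroup.mk' K)) inferInstance hKD hDM with h | h
      · exact h
      · exfalso
        have h3 : (⁅M.map (QuotientGroup.mk' K), M.map (QuotientGroup.mk' K)⁆.comap
          (QuotientGroup.mk' K)).map (QuotientGroup.mk' K) = M.map (QuotientGroup.mk' K) := by
          rw [h]
        rw [map_comap_eq_self_of_surjective (QuotientGroup.mk'_surjective K)] at h3
        exact hlt.ne h3
    intro a ha b hb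
    rw [← hD, mem_comap]
    rw [map_mul, map_mul, map_mul, map_inv, map_inv]
    exact commutator_mem_commutator (mem_map_of_mem _ ha) (mem_map_of_mem _ hb)
  -- the prime
  haveI hnt : Nontrivial (M.map (QuotientGroup.mk' K)) := (nontrivial_iff_ne_bot _).2 hM'ne
  have hcard : 1 < Nat.card (M.map (QuotientGroup.mk' K)) := Finite.one_lt_card
  obtain ⟨p, hp, hpd⟩ := Nat.exists_prime_and_dvd hcard.ne'
  haveI : Fact p.Prime := ⟨hp⟩
  have hpow : ∀ a ∈ M, a ^ p ∈ K := by
    have hcq : ∀ a ∈ M, ∀ b ∈ M, Commute (QuotientGroup.mk' K a) (QuotientGroup.mk' K b) := by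
      intro a ha b hb
      have h1 : QuotientGroup.mk' K (a * b * a⁻¹ * b⁻¹) = 1 :=
        (QuotientGroup.eq_one_iff _).2 (hcomm a ha b hb)
      rw [map_mul, map_mul, map_mul, map_inv, map_inv] at h1
      exact commutatorElement_eq_one_iff_commute.1 h1
    let E : Subgroup P :=
      { carrier := {x | x ∈ M ∧ x ^ p ∈ K}
        one_mem' := ⟨one_mem _, by rw [one_pow]; exact one_mem _⟩
        mul_mem' := by
          rintro x y ⟨hx, hxp⟩ ⟨hy, hyp⟩
          refine ⟨mul_mem hx hy, ?_⟩
          have h1 : QuotientGroup.mk' K ((x * y) ^ p) = 1 := by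
            rw [map_pow, map_mul, (hcq x hx y hy).mul_pow, ← map_pow, ← map_pow]
            have h2 : QuotientGroup.mk' K (x ^ p) = 1 := (QuotientGroup.eq_one_iff _).2 hxp
            have h3 : QuotientGroup.mk' K (y ^ p) = 1 := (QuotientGroup.eq_one_iff _).2 hyp
            rw [h2, h3, one_mul]
          exact (QuotientGroup.eq_one_iff _).1 h1
        inv_mem' := by
          rintro x ⟨hx, hxp⟩
          refine ⟨inv_mem hx, ?_⟩
          rw [inv_pow]
          exact inv_mem hxp }
    have hEn : E.Normal := by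
      refine ⟨?_⟩
      rintro x ⟨hx, hxp⟩ g
      refine ⟨hMn.conj_mem x hx g, ?_⟩
      rw [conj_pow]
      exact hKn.conj_mem _ hxp g
    have hE : E = M := by
      rcases hmin' E hEn (fun x hx => ⟨hKM.le hx, pow_mem hx p⟩) (fun x hx => hx.1) with h | h
      · exfalso
        obtain ⟨y, hy⟩ := exists_prime_orderOf_dvd_card' p hpd
        obtain ⟨⟨_, x, hx, rfl⟩, hy2⟩ : ∃ z : M.map (QuotientGroup.mk' K), z = y := ⟨y, rfl⟩
        have hyp : y ^ p = 1 := by
          rw [← hy]
          exact pow_orderOf_eq_one y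
        have hxp : QuotientGroup.mk' K (x ^ p) = 1 := by
          have := congrArg Subtype.val hyp
          rw [← hy2] at this
          rw [map_pow]
          exact this
        have hxE : x ∈ E := ⟨hx, (QuotientGroup.eq_one_iff _).1 hxp⟩
        rw [h] at hxE
        have hx1 : QuotientGroup.mk' K x = 1 := (QuotientGroup.eq_one_iff _).2 hxE
        have hy1 : y = 1 := by
          rw [← hy2]
          exact Subtype.ext hx1
        rw [hy1, orderOf_one] at hy
        exact hp.one_lt.ne hy
      · exact h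
    intro a ha
    have : a ∈ E := by rw [hE]; exact ha
    exact this.2
  have hMR : ¬ M ≤ R := by
    intro h
    exact absurd hKM (not_lt_of_ge (normal_le_normalCore.2 h))
  have htop : M ⊔ R = ⊤ := by
    refine hR.2 _ (lt_of_le_of_ne le_sup_right ?_)
    intro h
    exact hMR (by rw [h]; exact le_sup_left)
  refine ⟨p, M, hp, hMn, htop, ?_, hcomm, hpow⟩
  refine le_antisymm ?_ (le_inf hKM.le hKR)
  have hnorm : (M ⊓ R).Normal := by
    refine ⟨?_⟩
    rintro x ⟨hxM, hxR⟩ g
    have hg : g ∈ M ⊔ R := by rw [htop]; exact mem_top g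
    obtain ⟨m, hm, r, hr, rfl⟩ := mem_sup_of_normal_left.1 hg
    have hyM : r * x * r⁻¹ ∈ M := hMn.conj_mem x hxM r
    have hyR : r * x * r⁻¹ ∈ R := mul_mem (mul_mem hr hxR) (inv_mem hr)
    refine ⟨hMn.conj_mem x hxM _, ?_⟩
    have e : m * r * x * (m * r)⁻¹ = (m * (r * x * r⁻¹) * m⁻¹ * (r * x * r⁻¹)⁻¹) * (r * x * r⁻¹) := by
      group
    rw [e]
    exact mul_mem (hKR (hcomm m hm _ hyM)) hyR
  exact normal_le_normalCore.2 inf_le_right

end Pool.Agent.H77.TI
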