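import Pool.Agent.H77.TI.Top6

/-!
[H77 TI TOP7] Primitive soluble actions are affine (45-75 min).

PROOF. Take p, M from top6, K = R.normalCore ≤ M. V := Additive (M ⧸ K.subgroupOf M) (or the
quotient of ↥M by K.subgroupOf M with a commutative group structure from the fourth property of
top6); it is an abelian group of exponent p, so a Module over ZMod p (AddCommGroup.zmodModule).
Finite. The map M → P ⧸ R, m ↦ mR, is surjective (M ⊔ R = ⊤, M normal: every g in P is m * r) and
m, m' have the same image iff m⁻¹ m' ∈ M ⊓ R = K. So it induces a bijection f : V → P ⧸ R,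
e := f⁻¹. For g = m0 * r0 in P (m0 in M, r0 in R) and m in M: g m R = m0 (r0 m r0⁻¹) R.
So e (g • x) = φ (e x) + v, where φ is the automorphism of M ⧸ K induced by the conjugation with
r0 (K and M are normal in P) and v = the class of m0.
-/

namespace Pool.Agent.H77.TI

open Subgroup

universe u

theorem top7 {P : Type u} [Group P] [Finite P] [Group.IsSolvable P] (R : Subgroup P)
    (hR : IsCoatom R) :
    ∃ (p : ℕ) (_ : Fact p.Prime) (V : Type u) (_ : AddCommGroup V) (_ : Module (ZMod p) V)
      (_ : Finite V) (e : (P ⧸ R) ≃ V), ∀ g : P, ∃ (φ : V ≃+ V) (v : V),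
        ∀ x : P ⧸ R, e (g • x) = φ (e x) + v := by
  classical
  obtain ⟨p, M, hp, hM, hsup, hinf, hcomm, hpow⟩ := top6 R hR
  obtain ⟨K, hKdef⟩ : ∃ K : Subgroup P, K = R.normalCore := ⟨_, rfl⟩
  rw [← hKdef] at hinf hcomm hpow
  have hK : K.Normal := by rw [hKdef]; exact R.normalCore_normal
  have hKR : K ≤ R := by rw [hKdef]; exact R.normalCore_le
  have hN : (K.subgroupOf M).Normal := inferInstance
  let icg : CommGroup (↥M ⧸ K.subgroupOf M) :=
    { (inferInstance : Group (↥M ⧸ K.subgroupOf M)) with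
      mul_comm := by
        intro a b
        induction a using QuotientGroup.induction_on with
        | H a =>
        induction b using QuotientGroup.induction_on with
        | H b =>
        refine QuotientGroup.eq.mpr ?_
        rw [mem_subgroupOf]
        have h1 := hcomm (b : P)⁻¹ (M.inv_mem b.2) (a : P)⁻¹ (M.inv_mem a.2)
        have h2 : (((a * b)⁻¹ * (b * a) : ↥M) : P) =
            (b : P)⁻¹ * (a : P)⁻¹ * ((b : P)⁻¹)⁻¹ * ((a : P)⁻¹)⁻¹ := by
          push_cast
          group
        rw [h2]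
        exact h1 }
  have hrel : ∀ a b : ↥M, ((a : P) : P ⧸ R) = ((b : P) : P ⧸ R) ↔
      (a : ↥M ⧸ K.subgroupOf M) = (b : ↥M ⧸ K.subgroupOf M) := by
    intro a b
    rw [QuotientGroup.eq, QuotientGroup.eq, mem_subgroupOf, ← hinf, mem_inf]
    constructor
    · intro h
      exact ⟨M.mul_mem (M.inv_mem a.2) b.2, h⟩
    · intro h
      exact h.2
  let f : (↥M ⧸ K.subgroupOf M) → P ⧸ R := fun q =>
    Quotient.liftOn' q (fun a : ↥M => ((a : P) : P ⧸ R)) (fun a b hab =>
      (hrel a b).mpr (Quotient.sound' hab))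
  have hf : ∀ a : ↥M, f (a : ↥M ⧸ K.subgroupOf M) = ((a : P) : P ⧸ R) := fun a => rfl
  have hdec : ∀ g : P, ∃ m ∈ M, ∃ r ∈ R, m * r = g := by
    intro g
    have h1 : g ∈ ((M ⊔ R : Subgroup P) : Set P) := by
      rw [hsup]
      exact mem_top g
    rw [normal_mul M R] at h1
    obtain ⟨m, hm, r, hr, h⟩ := Set.mem_mul.mp h1
    exact ⟨m, hm, r, hr, h⟩
  have hbij : Function.Bijective f := by
    constructor
    · intro a b hab
      induction a using QuotientGroup.induction_on with
      | H a =>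
      induction b using QuotientGroup.induction_on with
      | H b =>
      rw [hf, hf] at hab
      exact (hrel a b).mp hab
    · intro x
      induction x using QuotientGroup.induction_on with
      | H x =>
      obtain ⟨m, hm, r, hr, h⟩ := hdec x
      refine ⟨((⟨m, hm⟩ : ↥M) : ↥M ⧸ K.subgroupOf M), ?_⟩
      rw [hf, QuotientGroup.eq, ← h]
      simpa using hr
  let F : (↥M ⧸ K.subgroupOf M) ≃ P ⧸ R := Equiv.ofBijective f hbij
  refine ⟨p, ⟨hp⟩, Additive (↥M ⧸ K.subgroupOf M), inferInstance,
    AddCommGroup.zmodModule ?_, inferInstance, F.symm.trans Additive.ofMul, ?_⟩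
  · intro x
    have h1 : ∀ q : ↥M ⧸ K.subgroupOf M, q ^ p = 1 := by
      intro q
      induction q using QuotientGroup.induction_on with
      | H a =>
      rw [← QuotientGroup.mk_pow, QuotientGroup.eq_one_iff, mem_subgroupOf]
      exact hpow a a.2
    exact congrArg Additive.ofMul (h1 x.toMul)
  · intro g
    obtain ⟨m0, hm0, r0, hr0, hg⟩ := hdec g
    have hmap : (K.subgroupOf M).map (MulAut.conjNormal r0 : MulAut ↥M).toMonoidHom =
        K.subgroupOf M := by
      ext x
      rw [mem_map]
      constructor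
      · rintro ⟨y, hy, rfl⟩
        rw [mem_subgroupOf] at hy ⊢
        exact hK.conj_mem y hy r0
      · intro hx
        refine ⟨(MulAut.conjNormal r0⁻¹ : MulAut ↥M) x, ?_, ?_⟩
        · rw [mem_subgroupOf] at hx ⊢
          have := hK.conj_mem x hx r0⁻¹
          rw [MulAut.conjNormal_apply]
          exact this
        · apply Subtype.ext
          show r0 * (r0⁻¹ * (x : P) * (r0⁻¹)⁻¹) * r0⁻¹ = x
          group
    let φ : (↥M ⧸ K.subgroupOf M) ≃* (↥M ⧸ K.subgroupOf M) :=
      QuotientGroup.congr _ _ (MulAut.conjNormal r0 : MulAut ↥M) hmap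
    refine ⟨MulEquiv.toAdditive φ,
      Additive.ofMul ((⟨m0, hm0⟩ : ↥M) : ↥M ⧸ K.subgroupOf M), ?_⟩
    intro x
    obtain ⟨q, rfl⟩ := F.surjective x
    have h1 : g • F q = F (((⟨m0, hm0⟩ : ↥M) : ↥M ⧸ K.subgroupOf M) * φ q) := by
      induction q using QuotientGroup.induction_on with
      | H a =>
      show ((g * (a : P) : P) : P ⧸ R) =
        (((⟨m0, hm0⟩ : ↥M) * (MulAut.conjNormal r0 : MulAut ↥M) a : ↥M) : P)
      rw [QuotientGroup.eq]
      have h2 : (g * (a : P))⁻¹ * (((⟨m0, hm0⟩ : ↥M) * (MulAut.conjNormal r0 : MulAut ↥M) a : ↥M) : P)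
          = r0⁻¹ := by
        rw [← hg]
        show (m0 * r0 * (a : P))⁻¹ * (m0 * (r0 * (a : P) * r0⁻¹)) = r0⁻¹
        group
      rw [h2]
      exact R.inv_mem hr0
    rw [h1]
    simp only [Equiv.trans_apply, Equiv.symm_apply_apply]
    rw [mul_comm]
    rfl

end Pool.Agent.H77.TI
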