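import Pool.Agent.H77.TI.Top1
import Pool.Agent.H77.TI.Top2
import Pool.Agent.H77.TI.Top5
import Pool.Agent.H77.TI.Top7

/-!
[H77 TI TOP8] Five colours for soluble permutation groups (40-60 min).

PROOF. (a) R a maximal subgroup of a finite soluble group P: Col P (P ⧸ R): transport the
colouring of top5 for V by e of top7: c i x = c' i (e x). If c j (g • x) = c i x for all x, then
with φ, v of g: c' j (φ u + v) = c' i u for all u in V, so i = j, v = 0, φ = id, g • x = x.
(b) Any subgroup R of a finite soluble group P: Col P (P ⧸ R), by strong induction on R.index,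
for all soluble finite groups P in one universe. If R = ⊤: P ⧸ R has one element, c i = constant
i. Otherwise there is a maximal subgroup Q ≥ R (finite: IsCoatomic / exists coatom). Col P (P ⧸ Q)
by (a). Q is soluble and finite, and the index of R.subgroupOf Q in Q is R.relIndex Q =
R.index / Q.index < R.index as Q.index > 1. Induction and top2.
(c) top1.
-/

namespace Pool.Agent.H77.TI

universe u

/-- a maximal subgroup -/
theorem top8_max {P : Type u} [Group P] [Finite P] [Group.IsSolvable P] (R : Subgroup P)
    (hR : IsCoatom R) : Col P (P ⧸ R) := by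
  obtain ⟨p, hp, V, hV1, hV2, hV3, e, he⟩ := top7 R hR
  obtain ⟨c, hc⟩ := top5 (p := p) V
  refine ⟨fun i x => c i (e x), ?_⟩
  intro i j g hg
  obtain ⟨φ, v, hφ⟩ := he g
  have h1 : ∀ u, c j (φ u + v) = c i u := by
    intro u
    have h2 : c j (e (g • e.symm u)) = c i (e (e.symm u)) := hg (e.symm u)
    rw [hφ, Equiv.apply_symm_apply] at h2
    exact h2
  obtain ⟨hij, hv, hid⟩ := hc i j φ v h1
  refine ⟨hij, fun x => ?_⟩
  apply e.injective
  rw [hφ, hid, hv, add_zero]

theorem top8_any (n : ℕ) : ∀ (P : Type u) [Group P] [Finite P] [Group.IsSolvable P]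
    (R : Subgroup P), R.index = n → Col P (P ⧸ R) := by
  induction n using Nat.strong_induction_on with
  | _ n ih =>
    intro P _ _ _ R hRn
    rcases eq_top_or_exists_le_coatom R with rfl | ⟨Q, hQ, hRQ⟩
    · have hs : Subsingleton (P ⧸ (⊤ : Subgroup P)) := QuotientGroup.subsingleton_quotient_top
      refine ⟨fun i _ => i, ?_⟩
      intro i j g hg
      exact ⟨(hg ((1 : P) : P ⧸ (⊤ : Subgroup P))).symm, fun x => Subsingleton.elim _ _⟩
    · apply top2 R Q hRQ (top8_max Q hQ)
      have h1 : R.relIndex Q * Q.index = R.index := Subgroup.relIndex_mul_index hRQ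
      have h2 : Q.index ≠ 1 := fun h => hQ.1 (Subgroup.index_eq_one.mp h)
      have h3 : Q.index ≠ 0 := Subgroup.index_ne_zero_of_finite
      have h4 : R.index ≠ 0 := Subgroup.index_ne_zero_of_finite
      have h5 : (R.subgroupOf Q).index * Q.index = n := by
        rw [← hRn]
        exact h1
      have h6 : (R.subgroupOf Q).index ≠ 0 := by
        intro h0
        rw [h0, zero_mul] at h5
        exact h4 (hRn.trans h5.symm)
      have h7 : (R.subgroupOf Q).index < n := by
        rw [← h5]
        have h8 : 2 ≤ Q.index := by omega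
        have h9 : 0 < (R.subgroupOf Q).index := Nat.pos_of_ne_zero h6
        nlinarith
      exact ih _ h7 Q (R.subgroupOf Q) rfl

theorem top8 {P Ω : Type*} [Group P] [Finite P] [Group.IsSolvable P] [MulAction P Ω]
    [Nonempty Ω] : Col P Ω := by
  exact top1 fun ω => top8_any _ P (MulAction.stabilizer P ω) rfl

end Pool.Agent.H77.TI
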