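import Pool.Agent.H77.TI.Base

/-!
Wreath products: `P` acts on `Ω → A` by permuting the coordinates.
-/

namespace Pool.Agent.H77.TI

/-- `P` acts on `Ω → A` by automorphisms: `(π f) ω = f (π⁻¹ ω)`. -/
def wrHom (A : Type*) [Group A] {Ω : Type*} (P : Subgroup (Equiv.Perm Ω)) :
    P →* MulAut (Ω → A) where
  toFun π :=
    { toFun := fun f ω => f ((π⁻¹ : P).1 ω)
      invFun := fun f ω => f (π.1 ω)
      left_inv := fun f => by ext ω; simp
      right_inv := fun f => by ext ω; simp
      map_mul' := fun f g => rfl }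
  map_one' := by ext f ω; simp
  map_mul' := fun π π' => by ext f ω; simp [mul_inv_rev]

/-- The wreath product of `A` with the permutation group `P`. -/
abbrev Wr (A : Type*) [Group A] {Ω : Type*} (P : Subgroup (Equiv.Perm Ω)) :=
  (Ω → A) ⋊[wrHom A P] P

/-- The subgroup `K wr P` of `A wr P`. -/
def wrSub {A : Type*} [Group A] {Ω : Type*} (P : Subgroup (Equiv.Perm Ω)) (K : Subgroup A) :
    Subgroup (Wr A P) where
  carrier := {w | ∀ ω, w.left ω ∈ K}
  one_mem' := fun ω => by simp [K.one_mem]
  mul_mem' := by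
    intro a b ha hb ω
    have h1 := ha ω
    have h2 := hb ((a.right⁻¹ : P).1 ω)
    have : (a * b).left ω = a.left ω * b.left ((a.right⁻¹ : P).1 ω) := by
      simp [wrHom]
    rw [this]
    exact K.mul_mem h1 h2
  inv_mem' := by
    intro a ha ω
    have h2 := ha (a.right.1 ω)
    have : (a⁻¹).left ω = (a.left (a.right.1 ω))⁻¹ := by
      simp [wrHom]
      rfl
    rw [this]
    exact K.inv_mem h2

end Pool.Agent.H77.TI
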