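import Pool.Agent.H77.TI.Base

/-!
[H77 TI ZEN1] Baer's theorem for p-subgroups (45-75 min).

PROOF (Alperin-Lyons). Let Om = the set of conjugates cj g P. By h (and conjugation) any two
conjugates E, F of P generate a p-group: E ⊔ F is a p-group (E = cj a P, F = cj b P,
E ⊔ F = cj a (P ⊔ cj (a⁻¹ b) P)).
Let W = ⨆ g, cj g P (normal). Claim: W is a p-group; then N = W.
If some Sylow p-subgroup Q contains all conjugates then W ≤ Q and we are done.
Otherwise: for a Sylow subgroup Q let Om(Q) = {E in Om | E ≤ Q}. All Om(Q) have the same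
cardinality (Sylow subgroups are conjugate), and two of them are different (if all Om(Q) were
equal, then since every conjugate of P lies in some Sylow subgroup, every Q would contain all
conjugates). Choose Sylow Q1, Q2 with Om(Q1) ≠ Om(Q2) and |Om(Q1) ∩ Om(Q2)| maximal. Let
D = the subgroup generated by the members of Om(Q1) ∩ Om(Q2); D ≤ Q1 ⊓ Q2, so
{E in Om | E ≤ D} = Om(Q1) ∩ Om(Q2).
There is E in Om with E ≤ Q1, E not ≤ D, E ≤ normalizer D: otherwise every member of Om contained
in N1 := Q1 ⊓ normalizer D is ≤ D; then D = the subgroup generated by the members of Om contained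
in N1, so every element x of Q1 which normalises N1 normalises D; i.e. the normaliser of N1 in Q1
is N1, so N1 = Q1 (normaliser condition in the p-group Q1, Mathlib:
IsPGroup.isNilpotent / normalizerCondition); so every member of Om(Q1) is ≤ D ≤ Q2, Om(Q1) is
contained in Om(Q2), and they are equal (same cardinality): contradiction.
Similarly F in Om with F ≤ Q2, F not ≤ D, F ≤ normalizer D. E ⊔ F is a p-group normalising D, so
D ⊔ E ⊔ F is a p-group (product of a normal p-subgroup and a p-group), contained in a Sylow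
subgroup Q3. Om(Q1) ∩ Om(Q3) contains Om(Q1) ∩ Om(Q2) and E, so it is bigger; by maximality
Om(Q1) = Om(Q3); in the same way Om(Q2) = Om(Q3). Contradiction.
(If Om(Q1) ∩ Om(Q2) is empty then D = ⊥ and the argument is the same.)
Any other proof of Baer's theorem for p-groups is fine (e.g. Wielandt's zipper lemma).
-/

namespace Pool.Agent.H77.TI

open Subgroup

/-- the conjugates of `P` which are contained in `Q` -/
private def omz {G : Type*} [Group G] (P Q : Subgroup G) : Set (Subgroup G) :=
  {E | (∃ g : G, E = cj g P) ∧ E ≤ Q}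

private theorem cj_inj_baer {G : Type*} [Group G] (g : G) :
    Function.Injective (fun E : Subgroup G => cj g E) := by
  intro E F h
  have h1 : cj g⁻¹ (cj g E) = cj g⁻¹ (cj g F) := congrArg (cj g⁻¹) h
  rwa [← cj_mul, ← cj_mul, inv_mul_cancel, cj_one, cj_one] at h1

private theorem omz_cj {G : Type*} [Group G] (P Q : Subgroup G) (g : G) :
    omz P (cj g Q) = (fun E => cj g E) '' omz P Q := by
  ext E
  constructor
  · rintro ⟨⟨a, rfl⟩, hE⟩
    refine ⟨cj (g⁻¹ * a) P, ⟨⟨g⁻¹ * a, rfl⟩, ?_⟩, ?_⟩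
    · have h1 := cj_mono (g := g⁻¹) hE
      rwa [← cj_mul, ← cj_mul, inv_mul_cancel, cj_one] at h1
    · show cj g (cj (g⁻¹ * a) P) = cj a P
      rw [← cj_mul, mul_inv_cancel_left]
  · rintro ⟨F, ⟨⟨a, rfl⟩, hF⟩, rfl⟩
    exact ⟨⟨g * a, (cj_mul g a P).symm⟩, cj_mono hF⟩

private theorem omz_ncard {G : Type*} [Group G] [Finite G] (P Q : Subgroup G) (g : G) :
    (omz P (cj g Q)).ncard = (omz P Q).ncard := by
  rw [omz_cj]
  exact Set.ncard_image_of_injective _ (cj_inj_baer g)

private theorem omz_sylow {G : Type*} [Group G] [Finite G] {p : ℕ} [Fact p.Prime]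
    (P : Subgroup G) (S T : Sylow p G) :
    (omz P (S : Subgroup G)).ncard = (omz P (T : Subgroup G)).ncard := by
  obtain ⟨g, hg⟩ := MulAction.exists_smul_eq G T S
  have h1 : (S : Subgroup G) = cj g (T : Subgroup G) := by
    rw [← hg]
    rfl
  rw [h1]
  exact omz_ncard P _ g

private theorem pair_baer {G : Type*} [Group G] {p : ℕ} (P : Subgroup G)
    (h : ∀ g : G, IsPGroup p (P ⊔ cj g P : Subgroup G)) (a b : G) :
    IsPGroup p (cj a P ⊔ cj b P : Subgroup G) := by
  have h1 : (cj a P ⊔ cj b P : Subgroup G) = cj a (P ⊔ cj (a⁻¹ * b) P) := by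
    have h2 : cj b P = cj a (cj (a⁻¹ * b) P) := by rw [← cj_mul, mul_inv_cancel_left]
    rw [h2]
    exact (Subgroup.map_sup _ _ _).symm
  rw [h1]
  exact (h (a⁻¹ * b)).map _

private theorem cj_sSup_baer {G : Type*} [Group G] (g : G) (A : Set (Subgroup G)) :
    cj g (sSup A) = sSup ((fun E => cj g E) '' A) := by
  rw [sSup_image, sSup_eq_iSup]
  unfold cj
  rw [Subgroup.map_iSup]
  congr 1
  ext E : 1
  rw [Subgroup.map_iSup]

private theorem step_baer {G : Type*} [Group G] [Finite G] {p : ℕ} [Fact p.Prime] (P : Subgroup G)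
    (S T : Sylow p G) (hne : omz P (S : Subgroup G) ≠ omz P (T : Subgroup G)) :
    ∃ E ∈ omz P (S : Subgroup G), ¬ E ≤ sSup (omz P (S : Subgroup G) ∩ omz P (T : Subgroup G)) ∧
      E ≤ normalizer
        ((sSup (omz P (S : Subgroup G) ∩ omz P (T : Subgroup G)) : Subgroup G) : Set G) := by
  by_contra hcon
  push Not at hcon
  set D : Subgroup G := sSup (omz P (S : Subgroup G) ∩ omz P (T : Subgroup G)) with hD
  have hDS : D ≤ S := sSup_le fun E hE => hE.1.2
  have hDT : D ≤ T := sSup_le fun E hE => hE.2.2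
  have hDN : D ≤ normalizer (D : Set G) := Subgroup.le_normalizer
  set N : Subgroup G := (S : Subgroup G) ⊓ normalizer (D : Set G) with hN
  have hDN1 : D ≤ N := le_inf hDS hDN
  have hDe : D = sSup (omz P N) := by
    apply le_antisymm
    · rw [hD]
      refine sSup_le_sSup fun E hE => ⟨hE.1.1, (le_sSup hE).trans hDN1⟩
    · refine sSup_le fun E hE => ?_
      by_contra hED
      exact hcon E ⟨hE.1, hE.2.trans inf_le_left⟩ hED (hE.2.trans inf_le_right)
  have hnorm : ∀ x : G, x ∈ (S : Subgroup G) → cj x N = N → x ∈ N := by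
    intro x hx hxN
    refine ⟨hx, ?_⟩
    show x ∈ normalizer (D : Set G)
    rw [mem_normalizer_iff_cj]
    have h1 : cj x (sSup (omz P N)) = sSup (omz P N) := by
      rw [cj_sSup_baer, ← omz_cj, hxN]
    rw [← hDe] at h1
    exact h1
  have hNS : (S : Subgroup G) ≤ N := by
    by_contra hlt
    have hnil : Group.IsNilpotent (S : Subgroup G) := S.isPGroup'.isNilpotent
    have hcond : NormalizerCondition (S : Subgroup G) := Group.normalizerCondition_of_isNilpotent
    have h1 : N.subgroupOf (S : Subgroup G) < ⊤ := by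
      rw [lt_top_iff_ne_top]
      intro h2
      exact hlt (Subgroup.subgroupOf_eq_top.mp h2)
    have h3 := hcond _ h1
    obtain ⟨x, hx1, hx2⟩ := SetLike.exists_of_lt h3
    apply hx2
    rw [Subgroup.mem_subgroupOf]
    apply hnorm x.1 x.2
    have hx3 := mem_normalizer_iff_cj.mp hx1
    ext y
    rw [mem_cj]
    constructor
    · intro hy
      have hyS : (x.1)⁻¹ * y * x.1 ∈ (S : Subgroup G) := hy.1
      have hyS2 : y ∈ (S : Subgroup G) := by
        have h4 := (S : Subgroup G).mul_mem ((S : Subgroup G).mul_mem x.2 hyS)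
          ((S : Subgroup G).inv_mem x.2)
        have h5 : x.1 * ((x.1)⁻¹ * y * x.1) * (x.1)⁻¹ = y := by group
        rwa [h5] at h4
      have h6 : (⟨y, hyS2⟩ : (S : Subgroup G)) ∈ cj x (N.subgroupOf (S : Subgroup G)) := by
        rw [mem_cj]
        exact hy
      rw [hx3] at h6
      exact h6
    · intro hy
      have hyS2 : y ∈ (S : Subgroup G) := hy.1
      have h6 : (⟨y, hyS2⟩ : (S : Subgroup G)) ∈ cj x (N.subgroupOf (S : Subgroup G)) := by
        rw [hx3]
        exact hy
      rw [mem_cj] at h6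
      exact h6
  have hsub : omz P (S : Subgroup G) ⊆ omz P (T : Subgroup G) := by
    intro E hE
    refine ⟨hE.1, ?_⟩
    have h1 : E ∈ omz P N := ⟨hE.1, hE.2.trans hNS⟩
    have h2 : E ≤ D := by
      rw [hDe]
      exact le_sSup h1
    exact h2.trans hDT
  apply hne
  exact Set.eq_of_subset_of_ncard_le hsub (omz_sylow P T S).le (Set.toFinite _)

theorem baer {G : Type*} [Group G] [Finite G] {p : ℕ} [Fact p.Prime] (P : Subgroup G)
    (h : ∀ g : G, IsPGroup p (P ⊔ cj g P : Subgroup G)) :
    ∃ N : Subgroup G, N.Normal ∧ IsPGroup p N ∧ P ≤ N := by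
  have hall : ∀ S T : Sylow p G, omz P (S : Subgroup G) = omz P (T : Subgroup G) := by
    by_contra hcon
    push Not at hcon
    obtain ⟨S0, T0, h0⟩ := hcon
    let B : Set (Sylow p G × Sylow p G) :=
      {q | omz P (q.1 : Subgroup G) ≠ omz P (q.2 : Subgroup G)}
    obtain ⟨q, hq, hmax⟩ := Set.exists_max_image B
      (fun q => (omz P (q.1 : Subgroup G) ∩ omz P (q.2 : Subgroup G)).ncard) (Set.toFinite B)
      ⟨(S0, T0), h0⟩
    obtain ⟨S, T⟩ := q
    have hST : omz P (S : Subgroup G) ≠ omz P (T : Subgroup G) := hq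
    obtain ⟨E, hE, hED, hEN⟩ := step_baer P S T hST
    obtain ⟨F, hF, hFD, hFN⟩ := step_baer P T S hST.symm
    rw [Set.inter_comm] at hFD hFN
    set D : Subgroup G := sSup (omz P (S : Subgroup G) ∩ omz P (T : Subgroup G)) with hD
    have hDS : D ≤ S := sSup_le fun E hE => hE.1.2
    have hDp : IsPGroup p D := S.isPGroup'.to_le hDS
    have hL : IsPGroup p (E ⊔ F : Subgroup G) := by
      obtain ⟨⟨a, rfl⟩, _⟩ := hE
      obtain ⟨⟨b, rfl⟩, _⟩ := hF
      exact pair_baer P h a b
    have hLD : IsPGroup p ((E ⊔ F) ⊔ D : Subgroup G) :=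
      IsPGroup.to_sup_of_normal_right' hL hDp (sup_le hEN hFN)
    obtain ⟨R, hR⟩ := hLD.exists_le_sylow
    have hJ : ∀ A ∈ omz P (S : Subgroup G) ∩ omz P (T : Subgroup G),
        A ∈ omz P (R : Subgroup G) := by
      intro A hA
      exact ⟨hA.1.1, (le_sSup hA).trans (le_sup_right.trans hR)⟩
    have key : ∀ (U : Sylow p G) (A : Subgroup G), A ∈ omz P (U : Subgroup G) → ¬ A ≤ D →
        A ≤ R → omz P (S : Subgroup G) ∩ omz P (T : Subgroup G) ⊆ omz P (U : Subgroup G) →
        omz P (U : Subgroup G) = omz P (R : Subgroup G) := by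
      intro U A hA hAD hAR hU
      by_contra hne
      have h1 := hmax (U, R) hne
      have h2 : omz P (S : Subgroup G) ∩ omz P (T : Subgroup G) ⊂
          omz P (U : Subgroup G) ∩ omz P (R : Subgroup G) := by
        have hsub : omz P (S : Subgroup G) ∩ omz P (T : Subgroup G) ⊆
            omz P (U : Subgroup G) ∩ omz P (R : Subgroup G) := fun B hB => ⟨hU hB, hJ B hB⟩
        rw [Set.ssubset_iff_of_subset hsub]
        refine ⟨A, ⟨hA, ⟨hA.1, hAR⟩⟩, fun hA2 => hAD (le_sSup hA2)⟩
      have h3 := Set.ncard_lt_ncard h2 (Set.toFinite _)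
      exact absurd h1 (not_le.mpr h3)
    have k1 := key S E hE hED ((le_sup_left.trans le_sup_left).trans hR) Set.inter_subset_left
    have k2 := key T F hF hFD ((le_sup_right.trans le_sup_left).trans hR) Set.inter_subset_right
    exact hST (k1.trans k2.symm)
  have hP : IsPGroup p P := (h 1).to_le le_sup_left
  obtain ⟨S, hS⟩ := hP.exists_le_sylow
  refine ⟨Subgroup.normalCore (S : Subgroup G), Subgroup.normalCore_normal _,
    S.isPGroup'.to_le (Subgroup.normalCore_le _), ?_⟩
  intro a ha b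
  have h1 : IsPGroup p (cj b P : Subgroup G) := hP.map _
  obtain ⟨T, hT⟩ := h1.exists_le_sylow
  have h2 : cj b P ∈ omz P (S : Subgroup G) := by
    rw [hall S T]
    exact ⟨⟨b, rfl⟩, hT⟩
  apply h2.2
  rw [mem_cj]
  have h3 : b⁻¹ * (b * a * b⁻¹) * b = a := by group
  rw [h3]
  exact ha

end Pool.Agent.H77.TI
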