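import Pool.Agent.H77.TI.Zen1

/-!
[H77 TI ZEN2] Zenkov's theorem (45-60 min).

PROOF (Isaacs, Finite Group Theory, 2.18). Strong induction on the order of G (all G in one
universe). Let M = A ⊓ B; hmin says that M is minimal among the subgroups A ⊓ cj g B.
Case 1: G = A ⊔ cj g B for some g. Then A ⊓ cj g B is centralised by A and by cj g B, so it is
contained in the centre of G; so it is equal to its conjugate by g⁻¹, which is ≤ B; so
A ⊓ cj g B ≤ A ⊓ B, and by hmin A ⊓ B ≤ A ⊓ cj g B ≤ Z(G). So P ≤ Z(G), P is normal in G, and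
N = P works.
Case 2: H := A ⊔ cj g B ≠ ⊤ for all g. By baer it is enough that P ⊔ cj g P is a p-group for
every g. Let H = A ⊔ cj g B, C = B ⊓ H. For h in H: A ⊓ cj h C = A ⊓ cj h B (as A ≤ H and
cj h H = H). So in the group H the pair A, C satisfies hmin (A ⊓ C = A ⊓ B). P ≤ A ⊓ C. By
induction (in the group ↥H) there is a normal p-subgroup N' of H with P ≤ N'. And cj g P ≤ cj g B
≤ H. So N' ⊔ cj g P is a p-group (normal p-subgroup times p-group; Mathlib:
IsPGroup.to_sup_of_normal_left or similar), and it contains P ⊔ cj g P.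
-/

namespace Pool.Agent.H77.TI

open Subgroup

private theorem zenkov_aux.{u} (n : ℕ) : ∀ {G : Type u} [Group G] [Finite G] (_ : Nat.card G ≤ n)
    (A B : Subgroup G)
    (_ : ∀ a ∈ A, ∀ b ∈ A, a * b = b * a) (_ : ∀ a ∈ B, ∀ b ∈ B, a * b = b * a)
    (_ : ∀ g : G, A ⊓ cj g B ≤ A ⊓ B → A ⊓ B ≤ A ⊓ cj g B)
    {p : ℕ} [Fact p.Prime] (P : Subgroup G) (_ : P ≤ A ⊓ B) (_ : IsPGroup p P),
    ∃ N : Subgroup G, N.Normal ∧ IsPGroup p N ∧ P ≤ N := by
  induction n with
  | zero =>
    intro G _ _ hn
    exact absurd hn (Nat.not_le.mpr Nat.card_pos)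
  | succ n ih =>
    intro G _ _ hn A B hA hB hmin p _ P hP hpP
    by_cases hcase : ∃ g : G, A ⊔ cj g B = ⊤
    · obtain ⟨g, hg⟩ := hcase
      have hcent : ∀ x ∈ A ⊓ cj g B, ∀ y : G, y * x = x * y := by
        intro x hx y
        have h1 : A ⊔ cj g B ≤ Subgroup.centralizer {x} := by
          refine sup_le ?_ ?_
          · intro a ha
            rw [Subgroup.mem_centralizer_singleton_iff]
            exact (hA a ha x hx.1)
          · intro a ha
            rw [Subgroup.mem_centralizer_singleton_iff]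
            have h2 := mem_cj.mp ha
            have h3 := mem_cj.mp hx.2
            have h4 := hB _ h2 _ h3
            have h5 : g * (g⁻¹ * a * g * (g⁻¹ * x * g)) * g⁻¹ =
                g * (g⁻¹ * x * g * (g⁻¹ * a * g)) * g⁻¹ := by rw [h4]
            have h6 : g * (g⁻¹ * a * g * (g⁻¹ * x * g)) * g⁻¹ = a * x := by group
            have h7 : g * (g⁻¹ * x * g * (g⁻¹ * a * g)) * g⁻¹ = x * a := by group
            rw [← h6, h5, h7]
        rw [hg] at h1
        have h2 : y ∈ Subgroup.centralizer {x} := h1 (Subgroup.mem_top y)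
        rwa [Subgroup.mem_centralizer_singleton_iff] at h2
      have h1 : A ⊓ cj g B ≤ A ⊓ B := by
        intro x hx
        refine ⟨hx.1, ?_⟩
        have h2 := mem_cj.mp hx.2
        have h3 : g⁻¹ * x * g = x := by
          rw [hcent x hx g⁻¹, inv_mul_cancel_right]
        rw [h3] at h2
        exact h2
      have h2 := hmin g h1
      refine ⟨P, ⟨fun x hx y => ?_⟩, hpP, le_rfl⟩
      have h3 := hcent x (h2 (hP hx)) y
      have h4 : y * x * y⁻¹ = x := by rw [h3, mul_inv_cancel_right]
      rw [h4]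
      exact hx
    · push Not at hcase
      apply baer
      intro g
      set H : Subgroup G := A ⊔ cj g B with hH
      have hlt : H < ⊤ := lt_top_iff_ne_top.mpr (hcase g)
      have hcard : Nat.card H ≤ n := by
        have h1 : Nat.card H < Nat.card G := by
          have h2 : Nat.card H ≠ Nat.card G := by
            intro h3
            exact (hcase g) (Subgroup.eq_top_of_card_eq H h3)
          exact lt_of_le_of_ne (Nat.le_of_dvd Nat.card_pos (Subgroup.card_subgroup_dvd_card H)) h2
        omega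
      have hAH : A ≤ H := le_sup_left
      have hBH : cj g B ≤ H := le_sup_right
      have hPH : P ≤ H := (hP.trans inf_le_left).trans hAH
      have hQH : cj g P ≤ H := (cj_mono (hP.trans inf_le_right)).trans hBH
      obtain ⟨N, hN1, hN2, hN3⟩ := ih hcard (A.subgroupOf H) (B.subgroupOf H)
        (fun a ha b hb => Subtype.ext (hA a.1 ha b.1 hb))
        (fun a ha b hb => Subtype.ext (hB a.1 ha b.1 hb))
        (by
          intro h hh
          have h1 : A ⊓ cj h.1 B ≤ A ⊓ B := by
            intro x hx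
            refine ⟨hx.1, ?_⟩
            have h2 : (⟨x, hAH hx.1⟩ : H) ∈ A.subgroupOf H ⊓ cj h (B.subgroupOf H) := by
              refine ⟨hx.1, ?_⟩
              show _ ∈ cj h (B.subgroupOf H)
              rw [mem_cj]
              have h3 : h.1⁻¹ * x * h.1 ∈ B := mem_cj.mp hx.2
              exact h3
            exact (hh h2).2
          have h2 := hmin h.1 h1
          intro x hx
          refine ⟨hx.1, ?_⟩
          show x ∈ cj h (B.subgroupOf H)
          rw [mem_cj]
          have h3 : x.1 ∈ A ⊓ B := ⟨hx.1, hx.2⟩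
          have h4 : h.1⁻¹ * x.1 * h.1 ∈ B := mem_cj.mp (h2 h3).2
          exact h4)
        (P.subgroupOf H) (fun x hx => ⟨(hP hx).1, (hP hx).2⟩)
        (hpP.comap_of_injective H.subtype H.subtype_injective)
      have hQ : IsPGroup p ((cj g P).subgroupOf H) :=
        (hpP.map _).comap_of_injective H.subtype H.subtype_injective
      have h1 : IsPGroup p (N ⊔ (cj g P).subgroupOf H : Subgroup H) :=
        IsPGroup.to_sup_of_normal_left hN2 hQ
      have h2 := h1.map H.subtype
      refine h2.to_le (sup_le ?_ ?_)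
      · intro x hx
        exact ⟨⟨x, hPH hx⟩, (le_sup_left : N ≤ _) (hN3 hx), rfl⟩
      · intro x hx
        exact ⟨⟨x, hQH hx⟩, (le_sup_right : (cj g P).subgroupOf H ≤ _) hx, rfl⟩

theorem zenkov {G : Type*} [Group G] [Finite G] (A B : Subgroup G)
    (hA : ∀ a ∈ A, ∀ b ∈ A, a * b = b * a) (hB : ∀ a ∈ B, ∀ b ∈ B, a * b = b * a)
    (hmin : ∀ g : G, A ⊓ cj g B ≤ A ⊓ B → A ⊓ B ≤ A ⊓ cj g B)
    {p : ℕ} [Fact p.Prime] (P : Subgroup G) (hP : P ≤ A ⊓ B) (hpP : IsPGroup p P) :
    ∃ N : Subgroup G, N.Normal ∧ IsPGroup p N ∧ P ≤ N :=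
  zenkov_aux (Nat.card G) le_rfl A B hA hB hmin P hP hpP

end Pool.Agent.H77.TI
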