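import Pool.Agent.H77.TI.Zen2

/-!
[H77 TI ZEN3] Zenkov's theorem for trivial soluble radical (30 min).

PROOF. Choose g0 such that A ⊓ cj g0 B has minimal order among all A ⊓ cj g B. Then the pair
A, cj g0 B satisfies hmin of zenkov (if A ⊓ cj g (cj g0 B) ≤ A ⊓ cj g0 B then both have the same
order by minimality, so they are equal). Suppose M := A ⊓ cj g0 B ≠ ⊥; take a prime p dividing
its order and a Sylow p-subgroup P ≠ ⊥ of M (or the subgroup of zpowers of an element of order p).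
By zenkov P ≤ N with N a normal p-subgroup of G; N is soluble (IsPGroup.isNilpotent), so N = ⊥ by
TrivRad: contradiction.
-/

namespace Pool.Agent.H77.TI

open Subgroup

theorem zenkov_triv {G : Type*} [Group G] [Finite G] (hR : TrivRad G) (A B : Subgroup G)
    (hA : ∀ a ∈ A, ∀ b ∈ A, a * b = b * a) (hB : ∀ a ∈ B, ∀ b ∈ B, a * b = b * a) :
    ∃ g : G, A ⊓ cj g B = ⊥ := by
  obtain ⟨g0, -, hg0⟩ := Set.exists_min_image (Set.univ : Set G)
    (fun g => Nat.card (A ⊓ cj g B : Subgroup G)) Set.finite_univ ⟨1, trivial⟩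
  refine ⟨g0, ?_⟩
  by_contra hne
  have hmin : ∀ g : G, A ⊓ cj g (cj g0 B) ≤ A ⊓ cj g0 B → A ⊓ cj g0 B ≤ A ⊓ cj g (cj g0 B) := by
    intro g hg
    have h1 := hg0 (g * g0) trivial
    rw [cj_mul] at h1
    exact (Subgroup.eq_of_le_of_card_ge hg h1).ge
  have hB' : ∀ a ∈ cj g0 B, ∀ b ∈ cj g0 B, a * b = b * a := by
    intro a ha b hb
    have h2 := mem_cj.mp ha
    have h3 := mem_cj.mp hb
    have h4 := hB _ h2 _ h3
    have h5 : g0 * (g0⁻¹ * a * g0 * (g0⁻¹ * b * g0)) * g0⁻¹ =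
        g0 * (g0⁻¹ * b * g0 * (g0⁻¹ * a * g0)) * g0⁻¹ := by rw [h4]
    have h6 : g0 * (g0⁻¹ * a * g0 * (g0⁻¹ * b * g0)) * g0⁻¹ = a * b := by group
    have h7 : g0 * (g0⁻¹ * b * g0 * (g0⁻¹ * a * g0)) * g0⁻¹ = b * a := by group
    rw [← h6, h5, h7]
  set M : Subgroup G := A ⊓ cj g0 B with hM
  have hc : Nat.card M ≠ 1 := by
    intro h1
    exact hne (Subgroup.card_eq_one.mp h1)
  obtain ⟨p, hp, hpd⟩ := Nat.exists_prime_and_dvd hc
  have : Fact p.Prime := ⟨hp⟩
  obtain ⟨x, hx⟩ := exists_prime_orderOf_dvd_card' p hpd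
  have hP : Subgroup.zpowers x.1 ≤ A ⊓ cj g0 B := by
    rw [Subgroup.zpowers_le]
    exact x.2
  have hox : orderOf x.1 = p := by
    rw [Subgroup.orderOf_coe]
    exact hx
  have hpP : IsPGroup p (Subgroup.zpowers x.1) := by
    apply IsPGroup.of_card (n := 1)
    rw [Nat.card_zpowers, hox, pow_one]
  obtain ⟨N, hN1, hN2, hN3⟩ := zenkov A (cj g0 B) hA hB' hmin (Subgroup.zpowers x.1) hP hpP
  have hnil : Group.IsNilpotent N := hN2.isNilpotent
  have hsol : Group.IsSolvable N := inferInstance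
  have hbot := hR N hN1 hsol
  have hx1 : x.1 ∈ N := hN3 (Subgroup.mem_zpowers x.1)
  rw [hbot, Subgroup.mem_bot] at hx1
  rw [hx1, orderOf_one] at hox
  exact hp.one_lt.ne hox

end Pool.Agent.H77.TI
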